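import Mathlib

namespace Pool.Agent.P.MP_07218e_co

/-- A 1-3 tree: a tree in which every vertex has degree one or three. -/
def IsOneThreeTree {V : Type} (T : SimpleGraph V) : Prop :=
  T.IsTree ∧ ∀ v : V, (T.neighborSet v).ncard = 1 ∨ (T.neighborSet v).ncard = 3

/-- The set of lengths `l ≤ N` of paths whose two endpoints are leaves. -/
def leafLengths {V : Type} (T : SimpleGraph V) (N : ℕ) : Set ℕ :=
  {l | l ≤ N ∧ ∃ u v : V, (T.neighborSet u).ncard = 1 ∧ (T.neighborSet v).ncard = 1 ∧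
    ∃ p : T.Walk u v, p.IsPath ∧ p.length = l}

/-- The property `P(c)`. -/
def PropertyP (c : ℝ) : Prop :=
  ∃ κ : ℝ, 0 < κ ∧ ∀ N : ℕ, 1 ≤ N → ∃ n₀ : ℕ, ∀ n : ℕ, n₀ ≤ n → Even n →
    ∀ T : SimpleGraph (Fin n), IsOneThreeTree T →
      κ * (N : ℝ) ^ c ≤ ((leafLengths T N).ncard : ℝ)

/-- The exponent `c*`. -/
noncomputable def cStar : ℝ := sSup {c : ℝ | c ∈ Set.Icc (0 : ℝ) 1 ∧ PropertyP c}

end Pool.Agent.P.MP_07218e_co
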