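import Mathlib

namespace Pool.Agent.P.MP_07218e_co

open Finset Real

variable {G : Type} [AddCommGroup G] [Fintype G]

/-- Probability vectors on `G`. -/
def IsProb (P : G → ℝ) : Prop := (∀ t, 0 ≤ P t) ∧ ∑ t, P t = 1

/-- Shannon entropy. -/
noncomputable def ent (P : G → ℝ) : ℝ := - ∑ t, P t * Real.log (P t)

/-- Law of `Z + x I` where `Z` has law `R` and `I` is independent and uniform. -/
noncomputable def avg (x : G → G) (R : G → ℝ) : G → ℝ :=
  fun t => (∑ i, R (t - x i)) / Fintype.card G

lemma card_pos' : (0 : ℝ) < Fintype.card G := by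
  exact_mod_cast Fintype.card_pos

lemma avg_comm (x y : G → G) (R : G → ℝ) : avg x (avg y R) = avg y (avg x R) := by
  funext t
  simp only [avg, ← Finset.sum_div]
  rw [Finset.sum_comm]
  simp only [sub_right_comm]

lemma sum_avg_mul (x : G → G) (R f : G → ℝ) :
    ∑ t, avg x R t * f t = (∑ i, ∑ z, R z * f (z + x i)) / Fintype.card G := by
  simp only [avg, div_mul_eq_mul_div, ← Finset.sum_div, Finset.sum_mul]
  rw [Finset.sum_comm]
  congr 1
  refine Finset.sum_congr rfl fun i _ => ?_
  exact (Fintype.sum_equiv (Equiv.addRight (x i)) _ _ (fun z => by simp)).symm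

lemma IsProb.avg {R : G → ℝ} (h : IsProb R) (x : G → G) : IsProb (avg x R) := by
  refine ⟨fun t => div_nonneg (Finset.sum_nonneg fun i _ => h.1 _) card_pos'.le, ?_⟩
  have := sum_avg_mul x R (fun _ => 1)
  simp only [mul_one, h.2, sum_const, card_univ, nsmul_eq_mul] at this
  rw [this, div_self card_pos'.ne']

lemma avg_pos {R : G → ℝ} (h : IsProb R) (x : G → G) {z : G} (hz : 0 < R z) (i : G) :
    0 < avg x R (z + x i) := by
  refine div_pos ?_ card_pos'
  refine Finset.sum_pos' (fun j _ => h.1 _) ⟨i, mem_univ _, by simpa using hz⟩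

omit [AddCommGroup G] in
lemma ent_nonneg {P : G → ℝ} (h : IsProb P) : 0 ≤ ent P := by
  rw [ent, neg_nonneg]
  refine Finset.sum_nonpos fun t _ => mul_nonpos_of_nonneg_of_nonpos (h.1 t) ?_
  refine Real.log_nonpos (h.1 t) ?_
  rw [← h.2]
  exact Finset.single_le_sum (fun j _ => h.1 j) (mem_univ t)

omit [AddCommGroup G] in
lemma ent_le_log_card {P : G → ℝ} (h : IsProb P) (T : Finset G) (hT : ∀ t, P t ≠ 0 → t ∈ T) :
    ent P ≤ Real.log T.card := by
  classical
  have hne : T.Nonempty := by
    by_contra hne
    rw [Finset.not_nonempty_iff_eq_empty] at hne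
    have h0 : ∀ t, P t = 0 := fun t => by
      by_contra h0
      simpa [hne] using hT t h0
    have := h.2
    simp [h0] at this
  have hc : (0 : ℝ) < T.card := by exact_mod_cast hne.card_pos
  have key : ∀ t, - (P t * Real.log (P t)) - P t * Real.log T.card ≤
      (if t ∈ T then 1 / (T.card : ℝ) else 0) - P t := by
    intro t
    rcases (h.1 t).eq_or_lt with h0 | hpos
    · rw [← h0]
      split_ifs
      · simp
      · simp
    · rw [if_pos (hT t hpos.ne')]
      have := Real.log_le_sub_one_of_pos (x := 1 / (T.card * P t)) (by positivity)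
      rw [Real.log_div one_ne_zero (by positivity), Real.log_one,
        Real.log_mul hc.ne' hpos.ne'] at this
      have h2 := mul_le_mul_of_nonneg_left this hpos.le
      have e : P t * (1 / (T.card * P t) - 1) = 1 / T.card - P t := by field_simp
      rw [e] at h2
      linarith
  have := Finset.sum_le_sum (fun t (_ : t ∈ univ) => key t)
  simp only [Finset.sum_sub_distrib, Finset.sum_neg_distrib, ← Finset.sum_mul, h.2,
    Finset.sum_ite_mem, univ_inter, sum_const, nsmul_eq_mul] at this
  rw [mul_one_div_cancel hc.ne'] at this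
  rw [ent]
  linarith

lemma ent_avg (x : G → G) (R : G → ℝ) :
    ent (avg x R) = - (∑ i, ∑ z, R z * Real.log (avg x R (z + x i))) / Fintype.card G := by
  rw [ent, sum_avg_mul x R (fun t => Real.log (avg x R t)), neg_div]

/-- Entropic Ruzsa triangle inequality. -/
lemma ent_triangle {R : G → ℝ} (h : IsProb R) (x y : G → G)
    (hinj : Function.Injective fun i => x i - y i) :
    ent R + Real.log (Fintype.card G) ≤ ent (avg x R) + ent (avg y R) := by
  classical
  set m : ℝ := (Fintype.card G : ℝ) with hm
  have hm0 : 0 < m := card_pos'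
  have key : ∀ i z, R z * Real.log (avg x R (z + x i)) + R z * Real.log (avg y R (z + y i))
      - R z * Real.log (R z) + R z * Real.log m ≤
      m * (avg x R (z + x i) * avg y R (z + y i)) - R z := by
    intro i z
    rcases (h.1 z).eq_or_lt with h0 | hpos
    · rw [← h0]
      have := mul_nonneg hm0.le (mul_nonneg ((h.avg x).1 (z + x i)) ((h.avg y).1 (z + y i)))
      simpa using this
    · have p1 := avg_pos h x hpos i
      have p2 := avg_pos h y hpos i
      have := Real.log_le_sub_one_of_pos
        (x := m * (avg x R (z + x i) * avg y R (z + y i)) / R z) (by positivity)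
      rw [Real.log_div (by positivity) hpos.ne', Real.log_mul hm0.ne' (by positivity),
        Real.log_mul p1.ne' p2.ne'] at this
      have h2 := mul_le_mul_of_nonneg_left this hpos.le
      have e : R z * (m * (avg x R (z + x i) * avg y R (z + y i)) / R z - 1) =
          m * (avg x R (z + x i) * avg y R (z + y i)) - R z := by field_simp
      rw [e] at h2
      linarith
  have hsum : ∑ i, ∑ z, avg x R (z + x i) * avg y R (z + y i) ≤ 1 := by
    rw [← Finset.sum_product']
    have hinj2 : Set.InjOn (fun p : G × G => (p.2 + x p.1, p.2 + y p.1))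
        ((univ ×ˢ univ : Finset (G × G)) : Set (G × G)) := by
      rintro ⟨i, z⟩ - ⟨i', z'⟩ - e
      simp only [Prod.mk.injEq] at e
      have hi : i = i' := by
        apply hinj
        have : x i - y i = (z + x i) - (z + y i) := by abel
        simp only
        rw [this, e.1, e.2]; abel
      subst hi
      rw [add_right_cancel e.1]
    rw [← Finset.sum_image (f := fun q : G × G => avg x R q.1 * avg y R q.2) hinj2]
    calc _ ≤ ∑ q ∈ (univ ×ˢ univ : Finset (G × G)), avg x R q.1 * avg y R q.2 :=
          Finset.sum_le_sum_of_subset_of_nonneg (by simp)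
            (fun q _ _ => mul_nonneg ((h.avg x).1 _) ((h.avg y).1 _))
      _ = 1 := by
          rw [Finset.sum_product' (f := fun a b => avg x R a * avg y R b), ← Finset.sum_mul_sum,
            (h.avg x).2, (h.avg y).2, mul_one]
  have := Finset.sum_le_sum (fun i (_ : i ∈ univ) =>
    Finset.sum_le_sum (fun z (_ : z ∈ univ) => key i z))
  simp only [Finset.sum_sub_distrib, Finset.sum_add_distrib, ← Finset.sum_mul, ← Finset.mul_sum,
    h.2, sum_const, card_univ, nsmul_eq_mul, ← hm] at this
  rw [ent_avg, ent_avg, ent, ← hm]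
  have h3 := mul_le_mul_of_nonneg_left hsum hm0.le
  rw [← add_div, le_div_iff₀ hm0]
  nlinarith

/-- Submodularity of the entropy of independent sums. -/
lemma ent_submod {R : G → ℝ} (h : IsProb R) (x y : G → G) :
    ent (avg x (avg y R)) + ent R ≤ ent (avg x R) + ent (avg y R) := by
  classical
  set m : ℝ := (Fintype.card G : ℝ) with hm
  have hm0 : 0 < m := card_pos'
  set S := avg x (avg y R) with hS
  have hSp : IsProb S := (h.avg y).avg x
  have key : ∀ i j z, R z * Real.log (avg x R (z + x i)) + R z * Real.log (avg y R (z + y j))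
      - R z * Real.log (R z) - R z * Real.log (S (z + y j + x i)) ≤
      avg x R (z + x i) * avg y R (z + y j) / S (z + y j + x i) - R z := by
    intro i j z
    rcases (h.1 z).eq_or_lt with h0 | hpos
    · rw [← h0]
      have := div_nonneg (mul_nonneg ((h.avg x).1 (z + x i)) ((h.avg y).1 (z + y j)))
        (hSp.1 (z + y j + x i))
      simpa using this
    · have p1 := avg_pos h x hpos i
      have p2 := avg_pos h y hpos j
      have p3 : 0 < S (z + y j + x i) := avg_pos (h.avg y) x p2 i
      have := Real.log_le_sub_one_of_pos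
        (x := avg x R (z + x i) * avg y R (z + y j) / S (z + y j + x i) / R z) (by positivity)
      rw [Real.log_div (by positivity) hpos.ne', Real.log_div (by positivity) p3.ne',
        Real.log_mul p1.ne' p2.ne'] at this
      have h2 := mul_le_mul_of_nonneg_left this hpos.le
      have e : R z * (avg x R (z + x i) * avg y R (z + y j) / S (z + y j + x i) / R z - 1) =
          avg x R (z + x i) * avg y R (z + y j) / S (z + y j + x i) - R z := by field_simp
      rw [e] at h2
      linarith
  have hsum : ∑ i, ∑ j, ∑ z, avg x R (z + x i) * avg y R (z + y j) / S (z + y j + x i)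
      = m * m := by
    have e1 : ∀ i j, ∑ z, avg x R (z + x i) * avg y R (z + y j) / S (z + y j + x i) =
        ∑ t, avg x R (t - y j) * avg y R (t - x i) / S t := by
      intro i j
      refine Fintype.sum_equiv (Equiv.addRight (y j + x i)) _ _ (fun z => ?_)
      simp only [Equiv.coe_addRight]
      congr 2
      · congr 1; abel
      · congr 1; abel
      · abel
    simp only [e1]
    have e2 : ∀ t, ∑ i, ∑ j, avg x R (t - y j) * avg y R (t - x i) / S t = m * m * S t := by
      intro t
      have a1 : ∑ i, avg y R (t - x i) = m * S t := by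
        rw [hS, avg, ← hm]; field_simp
      have a2 : ∑ j, avg x R (t - y j) = m * S t := by
        rw [hS, avg_comm, avg, ← hm]; field_simp
      simp only [← Finset.sum_div, ← Finset.sum_mul, ← Finset.mul_sum, a1, a2]
      rcases eq_or_ne (S t) 0 with h0 | h0
      · simp [h0]
      · field_simp
    rw [Finset.sum_congr rfl (fun i _ => Finset.sum_comm), Finset.sum_comm]
    simp only [e2, ← Finset.mul_sum, hSp.2, mul_one]
  have hentS : ent S = - (∑ i, ∑ j, ∑ z, R z * Real.log (S (z + y j + x i))) / (m * m) := by
    rw [hS, ent_avg, ← hS]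
    have : ∀ i, ∑ z, avg y R z * Real.log (S (z + x i)) =
        (∑ j, ∑ z, R z * Real.log (S (z + y j + x i))) / m := fun i =>
      sum_avg_mul y R (fun t => Real.log (S (t + x i)))
    simp only [this, ← Finset.sum_div, ← hm]
    field_simp
  have := Finset.sum_le_sum (fun i (_ : i ∈ univ) => Finset.sum_le_sum (fun j (_ : j ∈ univ) =>
    Finset.sum_le_sum (fun z (_ : z ∈ univ) => key i j z)))
  simp only [Finset.sum_sub_distrib, Finset.sum_add_distrib, ← Finset.mul_sum,
    h.2, sum_const, card_univ, nsmul_eq_mul, ← hm, hsum] at this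
  rw [hentS, ent_avg, ent_avg, ent, ← hm]
  have hmm : 0 < m * m := by positivity
  rw [← sub_nonneg]
  have e : ∀ A B C D : ℝ, -A / m + -B / m - (-D / (m * m) + -C) =
      (D + m * (m * C) - m * A - m * B) / (m * m) := by
    intro A B C D; field_simp; ring
  rw [e]
  apply div_nonneg _ hmm.le
  linarith

end Pool.Agent.P.MP_07218e_co
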