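import Mathlib

namespace Pool.Agent.P.MP_07218e_co

open Real intervalIntegral

/-- The dual weights. -/
noncomputable def LL (n : ℕ) : ℝ := ∫ x in (0 : ℝ)..1, (1 - x) ^ n * x ^ 2 * Real.exp x

lemma LL_int (n : ℕ) : IntervalIntegrable (fun x : ℝ => (1 - x) ^ n * x ^ 2 * Real.exp x)
    MeasureTheory.volume 0 1 := by
  apply Continuous.intervalIntegrable
  fun_prop

lemma LL_nonneg (n : ℕ) : 0 ≤ LL n := by
  apply integral_nonneg zero_le_one
  intro x hx
  have := hx.1
  have : 0 ≤ 1 - x := by linarith [hx.2]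
  positivity

lemma LL_anti (n : ℕ) : LL (n + 1) ≤ LL n := by
  apply integral_mono_on zero_le_one (LL_int _) (LL_int _)
  intro x hx
  have h0 := hx.1
  have h1 : 0 ≤ 1 - x := by linarith [hx.2]
  have h2 : (1 - x) ^ (n + 1) ≤ (1 - x) ^ n := by
    rw [pow_succ]
    exact mul_le_of_le_one_right (by positivity) (by linarith)
  gcongr

lemma LL_zero : LL 0 = Real.exp 1 - 2 := by
  have : ∀ x ∈ Set.uIcc (0 : ℝ) 1, HasDerivAt (fun x : ℝ => (x ^ 2 - 2 * x + 2) * Real.exp x)
      ((1 - x) ^ 0 * x ^ 2 * Real.exp x) x := by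
    intro x _
    have h1 : HasDerivAt (fun x : ℝ => x ^ 2 - 2 * x + 2) (2 * x - 2) x := by
      have := (((hasDerivAt_id x).fun_pow 2).fun_sub ((hasDerivAt_id x).const_mul 2)).add_const 2
      simpa using this
    exact (h1.fun_mul (Real.hasDerivAt_exp x)).congr_deriv (by ring)
  rw [LL, integral_eq_sub_of_hasDerivAt this (LL_int 0)]
  norm_num

lemma LL_one : LL 1 = 3 * Real.exp 1 - 8 := by
  have : ∀ x ∈ Set.uIcc (0 : ℝ) 1,
      HasDerivAt (fun x : ℝ => (- x ^ 3 + 4 * x ^ 2 - 8 * x + 8) * Real.exp x)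
      ((1 - x) ^ 1 * x ^ 2 * Real.exp x) x := by
    intro x _
    have h1 : HasDerivAt (fun x : ℝ => - x ^ 3 + 4 * x ^ 2 - 8 * x + 8)
        (- (3 * x ^ 2) + 8 * x - 8) x := by
      have := ((((hasDerivAt_id x).fun_pow 3).fun_neg.fun_add
        (((hasDerivAt_id x).fun_pow 2).const_mul 4)).fun_sub
        ((hasDerivAt_id x).const_mul 8)).add_const 8
      exact this.congr_deriv (by simp; ring)
    exact (h1.fun_mul (Real.hasDerivAt_exp x)).congr_deriv (by ring)
  rw [LL, integral_eq_sub_of_hasDerivAt this (LL_int 1)]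
  norm_num

lemma LL_rec (n : ℕ) : ((n : ℝ) + 1) * LL n = ((n : ℝ) + 5) * LL (n + 1) - LL (n + 2) := by
  have hd : ∀ x ∈ Set.uIcc (0 : ℝ) 1,
      HasDerivAt (fun x : ℝ => (1 - x) ^ (n + 1) * x ^ 3 * Real.exp x)
      (((n : ℝ) + 5) * ((1 - x) ^ (n + 1) * x ^ 2 * Real.exp x) -
        (1 - x) ^ (n + 2) * x ^ 2 * Real.exp x -
        ((n : ℝ) + 1) * ((1 - x) ^ n * x ^ 2 * Real.exp x)) x := by
    intro x _
    have := (((((hasDerivAt_id x).const_sub 1).fun_pow (n + 1)).fun_mul
      ((hasDerivAt_id x).fun_pow 3)).fun_mul (Real.hasDerivAt_exp x))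
    exact this.congr_deriv (by simp; ring)
  have hi := integral_eq_sub_of_hasDerivAt hd (by
    apply Continuous.intervalIntegrable
    fun_prop)
  rw [integral_sub (((LL_int _).const_mul _).sub (LL_int _)) ((LL_int _).const_mul _),
    integral_sub ((LL_int _).const_mul _) (LL_int _), integral_const_mul,
    integral_const_mul] at hi
  simp only [sub_self, ne_eq, Nat.add_eq_zero_iff, one_ne_zero, and_false, not_false_eq_true,
    zero_pow, zero_mul, OfNat.ofNat_ne_zero, mul_zero] at hi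
  simp only [LL]
  linarith

lemma convex_back (f : ℕ → ℝ) (hc : ∀ r, 2 * f (r + 1) ≤ f r + f (r + 2)) (k r : ℕ) :
    f (r + k) + k * ((f (r + k) - f (r + k + 2)) / 2) ≤ f r := by
  have hmono : ∀ k r, f (r + k) - f (r + k + 1) ≤ f r - f (r + 1) := by
    intro k
    induction k with
    | zero => intro r; simp
    | succ k ih =>
      intro r
      have h1 := ih r
      have h2 := hc (r + k)
      have e1 : r + (k + 1) = r + k + 1 := by ring
      rw [e1]
      linarith
  induction k generalizing r with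
  | zero => simp
  | succ k ih =>
    have h1 := ih (r + 1)
    have h2 := hmono (k + 1) r
    have h3 := hc (r + (k + 1))
    have e1 : r + 1 + k = r + (k + 1) := by ring
    rw [e1] at h1
    push_cast
    linarith

lemma lp_symm (g : ℕ → ℕ → ℝ) (hs : ∀ r s, g r s = g s r) (h0 : g 0 0 ≤ 1)
    (hn : ∀ r s, 0 ≤ g r s) (ht : ∀ r s, g (r + 1) s + g r (s + 1) ≤ g r s)
    (hc : ∀ r s, 2 * g (r + 1) s ≤ g r s + g (r + 2) s) :
    g 1 1 ≤ (1 - (Real.exp 1)⁻¹) / 2 := by
  set Ψ : ℕ → ℝ := fun n => LL n * g 0 (n + 2) -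
    (((n : ℝ) + 3) * LL n - LL (n + 1)) / 2 * g (n + 1) (n + 2) with hΨ
  have step : ∀ n, Ψ (n + 1) ≤ Ψ n := by
    intro n
    have b0 := convex_back (fun r => g r (n + 2)) (fun r => hc r (n + 2)) (n + 1) 0
    have b1 := convex_back (fun r => g r (n + 2)) (fun r => hc r (n + 2)) n 1
    simp only [zero_add] at b0
    have e1 : 1 + n = n + 1 := by ring
    rw [e1] at b1
    have e2 : g (n + 1 + 2) (n + 2) = g (n + 1 + 1) (n + 1 + 2) := hs _ _
    rw [e2] at b0 b1
    have t := ht 0 (n + 2)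
    simp only [zero_add] at t
    have r := LL_rec n
    have p1 := LL_nonneg (n + 1)
    have p2 := sub_nonneg.2 (LL_anti n)
    have m0 := mul_le_mul_of_nonneg_left b0 p2
    have m1 := mul_le_mul_of_nonneg_left b1 p1
    have m2 := mul_le_mul_of_nonneg_left t p1
    simp only [hΨ]
    have e3 : LL (n + 1 + 1) = ((n : ℝ) + 5) * LL (n + 1) - ((n : ℝ) + 1) * LL n := by
      linarith
    rw [e3]
    push_cast at m0 ⊢
    have e4 : n + 1 + 2 = n + 2 + 1 := by ring
    rw [e4] at m0 m1 ⊢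
    nlinarith
  have anti : ∀ n, Ψ n ≤ Ψ 0 := by
    intro n
    induction n with
    | zero => exact le_rfl
    | succ n ih => exact (step n).trans ih
  have cdec : ∀ n, g n (n + 1) ≤ (1 / 2 : ℝ) ^ n := by
    intro n
    induction n with
    | zero =>
      have := ht 0 0
      have := hn 1 0
      simp only [zero_add, pow_zero] at *
      linarith
    | succ n ih =>
      have a1 := ht (n + 1) (n + 1)
      have a2 := ht n (n + 1)
      have a3 := hn n (n + 1 + 1)
      rw [hs (n + 1 + 1) (n + 1)] at a1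
      rw [pow_succ]
      linarith
  have LLle : ∀ n, LL n ≤ LL 0 := by
    intro n
    induction n with
    | zero => exact le_rfl
    | succ n ih => exact (LL_anti n).trans ih
  have low : ∀ n : ℕ, - (LL 0 * (((n : ℝ) + 3) * (1 / 2 : ℝ) ^ n)) ≤ Ψ 0 := by
    intro n
    refine le_trans ?_ (anti n)
    simp only [hΨ]
    have a1 := mul_nonneg (LL_nonneg n) (hn 0 (n + 2))
    have a2 := cdec (n + 1)
    have a3 := hn (n + 1) (n + 2)
    have a4 : (((n : ℝ) + 3) * LL n - LL (n + 1)) / 2 ≤ ((n : ℝ) + 3) * LL 0 := by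
      have := LL_nonneg (n + 1)
      have h1 := mul_le_mul_of_nonneg_left (LLle n) (by positivity : (0 : ℝ) ≤ (n : ℝ) + 3)
      have h2 := mul_nonneg (by positivity : (0 : ℝ) ≤ (n : ℝ) + 3) (LL_nonneg 0)
      linarith
    have a5 : g (n + 1) (n + 2) ≤ (1 / 2 : ℝ) ^ n := by
      refine a2.trans ?_
      rw [pow_succ]
      have : (0 : ℝ) ≤ (1 / 2 : ℝ) ^ n := by positivity
      linarith
    have a6 := mul_le_mul a4 a5 a3
      (mul_nonneg (by positivity : (0 : ℝ) ≤ (n : ℝ) + 3) (LL_nonneg 0))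
    nlinarith
  have lim : Filter.Tendsto (fun n : ℕ => - (LL 0 * (((n : ℝ) + 3) * (1 / 2 : ℝ) ^ n)))
      Filter.atTop (nhds 0) := by
    have t1 := tendsto_self_mul_const_pow_of_lt_one (r := (1 / 2 : ℝ)) (by norm_num) (by norm_num)
    have t2 := (tendsto_pow_atTop_nhds_zero_of_lt_one (r := (1 / 2 : ℝ)) (by norm_num)
      (by norm_num)).const_mul 3
    have := ((t1.add t2).const_mul (LL 0)).neg
    simp only [mul_zero, add_zero, neg_zero] at this
    refine this.congr fun n => ?_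
    ring
  have key : 0 ≤ Ψ 0 := le_of_tendsto' lim low
  simp only [hΨ, LL_zero, LL_one, zero_add, Nat.cast_zero] at key
  have a1 := ht 0 0
  have a2 := ht 0 1
  have a3 := hc 0 1
  simp only [zero_add] at a1 a2 a3
  rw [hs 1 0] at a1
  rw [hs 2 1] at a3
  have he : (2 : ℝ) < Real.exp 1 := by
    have := Real.exp_one_gt_d9
    linarith
  have e1 : (1 - (Real.exp 1)⁻¹) / 2 = (Real.exp 1 - 1) / 2 / Real.exp 1 := by
    field_simp
  rw [e1, le_div_iff₀ (by linarith)]
  norm_num at a2 key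
  have b1 : (Real.exp 1 - 2) * g 0 2 ≤ (Real.exp 1 - 2) * (g 0 1 - g 1 1) :=
    mul_le_mul_of_nonneg_left (by linarith) (by linarith)
  have b2 : (Real.exp 1 - 1) * g 0 1 ≤ (Real.exp 1 - 1) * (1 / 2) :=
    mul_le_mul_of_nonneg_left (by linarith) (by linarith)
  nlinarith

lemma lp_bound (g : ℕ → ℕ → ℝ) (h0 : g 0 0 ≤ 1)
    (hn : ∀ r s, 0 ≤ g r s) (ht : ∀ r s, g (r + 1) s + g r (s + 1) ≤ g r s)
    (hx : ∀ r s, 2 * g (r + 1) s ≤ g r s + g (r + 2) s)
    (hy : ∀ r s, 2 * g r (s + 1) ≤ g r s + g r (s + 2)) :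
    g 1 1 ≤ (1 - (Real.exp 1)⁻¹) / 2 := by
  have := lp_symm (fun r s => (g r s + g s r) / 2) (fun r s => by ring) (by linarith)
    (fun r s => by have := hn r s; have := hn s r; linarith)
    (fun r s => by have := ht r s; have := ht s r; linarith)
    (fun r s => by have := hx r s; have := hy s r; linarith)
  linarith

end Pool.Agent.P.MP_07218e_co
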