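import Mathlib
import Pool.Agent.P.MP_07218e_co.LP

namespace Pool.Agent.P.MP_07218e_co

open Filter Topology

/-- Limit along a fixed nonprincipal ultrafilter. -/
noncomputable def ulim (f : ℕ → ℝ) : ℝ := limUnder (hyperfilter ℕ : Filter ℕ) f

lemma tendsto_ulim {f : ℕ → ℝ} (h0 : ∀ k, 0 ≤ f k) (h1 : ∀ k, f k ≤ 1) :
    Tendsto f (hyperfilter ℕ : Filter ℕ) (𝓝 (ulim f)) := by
  apply tendsto_nhds_limUnder
  obtain ⟨x, -, hx⟩ := (isCompact_Icc (a := (0 : ℝ)) (b := 1)).ultrafilter_le_nhds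
    ((hyperfilter ℕ).map f) (by
      rw [Ultrafilter.coe_map, le_principal_iff, mem_map]
      exact Filter.univ_mem' fun k => ⟨h0 k, h1 k⟩)
  exact ⟨x, hx⟩

/-- Functions with values in the unit interval. -/
def Bd (ψ : Multiset (ℕ × Bool) → ℝ) : Prop := (∀ Z, 0 ≤ ψ Z) ∧ ∀ Z, ψ Z ≤ 1

/-- The class of admissible profiles. -/
structure Cls (ψ : Multiset (ℕ × Bool) → ℝ) : Prop where
  bd : Bd ψ
  conv : ∀ a b Z, ψ (a ::ₘ Z) + ψ (b ::ₘ Z) ≤ ψ (a ::ₘ b ::ₘ Z) + ψ Z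
  tri : ∀ k Z, ψ ((k, true) ::ₘ Z) + ψ ((k, false) ::ₘ Z) ≤ ψ Z

/-- Adding a generic window of a given kind. -/
noncomputable def TT (c : Bool) (ψ : Multiset (ℕ × Bool) → ℝ) : Multiset (ℕ × Bool) → ℝ :=
  fun Z => ulim fun k => ψ ((k, c) ::ₘ Z)

lemma Bd.tendsto {ψ : Multiset (ℕ × Bool) → ℝ} (h : Bd ψ) (c : Bool) (Z : Multiset (ℕ × Bool)) :
    Tendsto (fun k => ψ ((k, c) ::ₘ Z)) (hyperfilter ℕ : Filter ℕ) (𝓝 (TT c ψ Z)) :=
  tendsto_ulim (fun _ => h.1 _) (fun _ => h.2 _)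

lemma Bd.TT {ψ : Multiset (ℕ × Bool) → ℝ} (h : Bd ψ) (c : Bool) : Bd (TT c ψ) :=
  ⟨fun Z => ge_of_tendsto' (h.tendsto c Z) fun _ => h.1 _,
    fun Z => le_of_tendsto' (h.tendsto c Z) fun _ => h.2 _⟩

lemma Bd.iter {ψ : Multiset (ℕ × Bool) → ℝ} (h : Bd ψ) (c : Bool) (n : ℕ) :
    Bd ((Pool.Agent.P.MP_07218e_co.TT c)^[n] ψ) := by
  induction n with
  | zero => exact h
  | succ n ih => rw [Function.iterate_succ_apply']; exact ih.TT c

lemma Cls.TT {ψ : Multiset (ℕ × Bool) → ℝ} (h : Cls ψ) (c : Bool) : Cls (TT c ψ) := by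
  refine ⟨h.bd.TT c, fun a b Z => ?_, fun k Z => ?_⟩
  · refine le_of_tendsto_of_tendsto' ((h.bd.tendsto c _).add (h.bd.tendsto c _))
      ((h.bd.tendsto c _).add (h.bd.tendsto c _)) fun l => ?_
    have := h.conv a b ((l, c) ::ₘ Z)
    rw [Multiset.cons_swap (l, c) a, Multiset.cons_swap (l, c) a, Multiset.cons_swap (l, c) b]
    exact this
  · refine le_of_tendsto_of_tendsto' ((h.bd.tendsto c _).add (h.bd.tendsto c _))
      (h.bd.tendsto c _) fun l => ?_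
    have := h.tri k ((l, c) ::ₘ Z)
    rw [Multiset.cons_swap (l, c), Multiset.cons_swap (l, c)]
    exact this

lemma Cls.iter {ψ : Multiset (ℕ × Bool) → ℝ} (h : Cls ψ) (c : Bool) (n : ℕ) :
    Cls ((Pool.Agent.P.MP_07218e_co.TT c)^[n] ψ) := by
  induction n with
  | zero => exact h
  | succ n ih => rw [Function.iterate_succ_apply']; exact ih.TT c

lemma Cls.tri_TT {ψ : Multiset (ℕ × Bool) → ℝ} (h : Cls ψ) (Z : Multiset (ℕ × Bool)) :
    Pool.Agent.P.MP_07218e_co.TT true ψ Z + Pool.Agent.P.MP_07218e_co.TT false ψ Z ≤ ψ Z :=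
  le_of_tendsto' ((h.bd.tendsto true Z).add (h.bd.tendsto false Z)) fun k => h.tri k Z

lemma Cls.conv_TT {ψ : Multiset (ℕ × Bool) → ℝ} (h : Cls ψ) (c : Bool)
    (Z : Multiset (ℕ × Bool)) :
    Pool.Agent.P.MP_07218e_co.TT c ψ Z + Pool.Agent.P.MP_07218e_co.TT c ψ Z ≤
      Pool.Agent.P.MP_07218e_co.TT c (Pool.Agent.P.MP_07218e_co.TT c ψ) Z + ψ Z := by
  refine le_of_tendsto_of_tendsto' ((h.bd.tendsto c Z).add_const _)
    (((h.bd.TT c).tendsto c Z).add_const _) fun k => ?_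
  refine le_of_tendsto_of_tendsto' ((h.bd.tendsto c Z).const_add _)
    ((h.bd.tendsto c ((k, c) ::ₘ Z)).add_const _) fun l => ?_
  have := h.conv (l, c) (k, c) Z
  linarith

lemma iter_mono3 (c : Bool) (n : ℕ) {ψ₁ ψ₂ ψ₃ : Multiset (ℕ × Bool) → ℝ} (h₁ : Bd ψ₁)
    (h₂ : Bd ψ₂) (h₃ : Bd ψ₃) (h : ∀ Z, ψ₁ Z + ψ₂ Z ≤ ψ₃ Z) (Z : Multiset (ℕ × Bool)) :
    (TT c)^[n] ψ₁ Z + (TT c)^[n] ψ₂ Z ≤ (TT c)^[n] ψ₃ Z := by
  induction n generalizing Z with
  | zero => exact h Z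
  | succ n ih =>
    simp only [Function.iterate_succ_apply']
    exact le_of_tendsto_of_tendsto' (((h₁.iter c n).tendsto c Z).add ((h₂.iter c n).tendsto c Z))
      ((h₃.iter c n).tendsto c Z) fun k => ih _

lemma iter_mono4 (c : Bool) (n : ℕ) {ψ₁ ψ₂ ψ₃ ψ₄ : Multiset (ℕ × Bool) → ℝ} (h₁ : Bd ψ₁)
    (h₂ : Bd ψ₂) (h₃ : Bd ψ₃) (h₄ : Bd ψ₄) (h : ∀ Z, ψ₁ Z + ψ₂ Z ≤ ψ₃ Z + ψ₄ Z)
    (Z : Multiset (ℕ × Bool)) :
    (TT c)^[n] ψ₁ Z + (TT c)^[n] ψ₂ Z ≤ (TT c)^[n] ψ₃ Z + (TT c)^[n] ψ₄ Z := by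
  induction n generalizing Z with
  | zero => exact h Z
  | succ n ih =>
    simp only [Function.iterate_succ_apply']
    exact le_of_tendsto_of_tendsto' (((h₁.iter c n).tendsto c Z).add ((h₂.iter c n).tendsto c Z))
      (((h₃.iter c n).tendsto c Z).add ((h₄.iter c n).tendsto c Z)) fun k => ih _

lemma Cls.bound {ψ : Multiset (ℕ × Bool) → ℝ} (h : Cls ψ) {β : ℝ}
    (hβ : ∀ j l, j < l → β ≤ ψ ((l, true) ::ₘ (j, false) ::ₘ 0)) :
    β ≤ (1 - (Real.exp 1)⁻¹) / 2 := by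
  have key := lp_bound (fun r s => (Pool.Agent.P.MP_07218e_co.TT false)^[s]
      ((Pool.Agent.P.MP_07218e_co.TT true)^[r] ψ) 0) (h.bd.2 _)
    (fun r s => ((h.bd.iter true r).iter false s).1 _)
    (fun r s => by
      rw [Function.iterate_succ_apply', Function.iterate_succ_apply]
      exact iter_mono3 false s ((h.bd.iter true r).TT true) ((h.bd.iter true r).TT false)
        (h.bd.iter true r) (h.iter true r).tri_TT 0)
    (fun r s => by
      rw [Function.iterate_succ_apply', Function.iterate_succ_apply',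
        Function.iterate_succ_apply', two_mul, add_comm (_ : ℝ) ((Pool.Agent.P.MP_07218e_co.TT false)^[s] (Pool.Agent.P.MP_07218e_co.TT true (Pool.Agent.P.MP_07218e_co.TT true _)) 0)]
      exact iter_mono4 false s ((h.bd.iter true r).TT true) ((h.bd.iter true r).TT true)
        (((h.bd.iter true r).TT true).TT true) (h.bd.iter true r)
        ((h.iter true r).conv_TT true) 0)
    (fun r s => by
      rw [Function.iterate_succ_apply', Function.iterate_succ_apply',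
        Function.iterate_succ_apply']
      have := ((h.iter true r).iter false s).conv_TT false 0
      linarith)
  refine le_trans ?_ key
  simp only [Function.iterate_one]
  refine ge_of_tendsto' ((h.bd.TT true).tendsto false 0) fun j => ?_
  refine ge_of_tendsto (h.bd.tendsto true _) ?_
  have : ∀ᶠ l in (hyperfilter ℕ : Filter ℕ), j < l :=
    (Nat.hyperfilter_le_atTop) (eventually_gt_atTop j)
  exact this.mono fun l hl => hβ j l hl

lemma exists_windows {β : ℝ} (hβ : (1 - (Real.exp 1)⁻¹) / 2 < β) :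
    ∃ n : ℕ, ∀ ψ : Multiset (ℕ × Bool) → ℝ, Cls ψ →
      ∃ j l, j < l ∧ l < n ∧ ψ ((l, true) ::ₘ (j, false) ::ₘ 0) < β := by
  by_contra hne
  push Not at hne
  choose φ hφ hφ' using hne
  have ht : ∀ Z, Tendsto (fun n => φ n Z) (hyperfilter ℕ : Filter ℕ)
      (𝓝 (ulim fun n => φ n Z)) := fun Z =>
    tendsto_ulim (fun n => (hφ n).bd.1 Z) (fun n => (hφ n).bd.2 Z)
  have hc : Cls fun Z => ulim fun n => φ n Z :=
    ⟨⟨fun Z => ge_of_tendsto' (ht Z) fun n => (hφ n).bd.1 Z,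
      fun Z => le_of_tendsto' (ht Z) fun n => (hφ n).bd.2 Z⟩,
      fun a b Z => le_of_tendsto_of_tendsto' ((ht _).add (ht _)) ((ht _).add (ht _))
        fun n => (hφ n).conv a b Z,
      fun k Z => le_of_tendsto_of_tendsto' ((ht _).add (ht _)) (ht _)
        fun n => (hφ n).tri k Z⟩
  refine absurd (hc.bound (β := β) fun j l hjl => ?_) (not_le.2 hβ)
  refine ge_of_tendsto (ht _) ?_
  have : ∀ᶠ n in (hyperfilter ℕ : Filter ℕ), l < n :=
    (Nat.hyperfilter_le_atTop) (eventually_gt_atTop l)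
  exact this.mono fun n hn => hφ' n j l hjl hn

end Pool.Agent.P.MP_07218e_co
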