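import Mathlib
import Pool.Agent.P.MP_07218e_co.Entropy
import Pool.Agent.P.MP_07218e_co.Limit

namespace Pool.Agent.P.MP_07218e_co

open Finset

lemma exists_big_sumset {β : ℝ} (hβ : (1 - (Real.exp 1)⁻¹) / 2 < β) :
    ∃ n : ℕ, ∀ (G : Type) [AddCommGroup G] [Fintype G] [DecidableEq G], 2 ≤ Fintype.card G →
      ∀ x y : ℕ → G → G, (∀ k, Function.Injective fun i => x k i - y k i) →
      ∃ j l, j < l ∧ l < n ∧ (Fintype.card G : ℝ) ^ (1 - β) ≤
        ((univ.image fun p : G × G => y j p.1 + x l p.2).card : ℝ) := by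
  obtain ⟨n, hn⟩ := exists_windows hβ
  refine ⟨n, fun G _ _ _ hG x y hxy => ?_⟩
  let w : ℕ × Bool → G → G := fun a => if a.2 then x a.1 else y a.1
  let f : ℕ × Bool → (G → ℝ) → (G → ℝ) := fun a R => avg (w a) R
  have : LeftCommutative f := ⟨fun a b R => avg_comm _ _ R⟩
  let δ : G → ℝ := fun t => if t = 0 then 1 else 0
  have hδ : IsProb δ := ⟨fun t => by simp only [δ]; split_ifs <;> norm_num, by simp [δ]⟩
  let D : Multiset (ℕ × Bool) → G → ℝ := fun Z => Multiset.foldr f δ Z
  have Dc : ∀ a Z, D (a ::ₘ Z) = avg (w a) (D Z) := fun a Z => Multiset.foldr_cons f δ a Z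
  have Dp : ∀ Z, IsProb (D Z) := by
    intro Z
    induction Z using Multiset.induction_on with
    | empty => exact hδ
    | cons a Z ih => rw [Dc]; exact ih.avg _
  set M : ℝ := Real.log (Fintype.card G) with hM
  have hm1 : (1 : ℝ) < Fintype.card G := by exact_mod_cast hG
  have hM0 : 0 < M := Real.log_pos hm1
  have hcls : Cls fun Z => 1 - ent (D Z) / M := by
    refine ⟨⟨fun Z => ?_, fun Z => ?_⟩, fun a b Z => ?_, fun k Z => ?_⟩
    · have := ent_le_log_card (Dp Z) univ (by simp)
      rw [card_univ, ← hM] at this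
      rw [sub_nonneg, div_le_one hM0]
      exact this
    · have := div_nonneg (ent_nonneg (Dp Z)) hM0.le
      linarith
    · simp only [Dc]
      have := div_le_div_of_nonneg_right (ent_submod (Dp Z) (w a) (w b)) hM0.le
      simp only [add_div] at this
      linarith
    · simp only [Dc]
      have := div_le_div_of_nonneg_right (ent_triangle (Dp Z) (x k) (y k) (hxy k)) hM0.le
      simp only [add_div, ← hM, div_self hM0.ne'] at this
      have e1 : w (k, true) = x k := rfl
      have e2 : w (k, false) = y k := rfl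
      rw [e1, e2]
      linarith
  obtain ⟨j, l, hjl, hln, hlt⟩ := hn _ hcls
  refine ⟨j, l, hjl, hln, ?_⟩
  have hsupp := ent_le_log_card (Dp ((l, true) ::ₘ (j, false) ::ₘ 0))
    (univ.image fun p : G × G => y j p.1 + x l p.2) (by
      intro t ht
      rw [Dc, Dc] at ht
      have e1 : w (l, true) = x l := rfl
      have e2 : w (j, false) = y j := rfl
      have e3 : D 0 = δ := rfl
      rw [e1, e2, e3] at ht
      simp only [avg] at ht
      obtain ⟨i, -, hi⟩ := Finset.exists_ne_zero_of_sum_ne_zero (div_ne_zero_iff.1 ht).1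
      obtain ⟨i', -, hi'⟩ := Finset.exists_ne_zero_of_sum_ne_zero (div_ne_zero_iff.1 hi).1
      simp only [δ, ne_eq, ite_eq_right_iff, one_ne_zero, imp_false, not_not] at hi'
      rw [mem_image]
      refine ⟨(i', i), mem_univ _, ?_⟩
      simp only
      rw [sub_sub, sub_eq_zero] at hi'
      rw [hi', add_comm])
  have hpos : (0 : ℝ) < (univ.image fun p : G × G => y j p.1 + x l p.2).card := by
    have : (univ.image fun p : G × G => y j p.1 + x l p.2).Nonempty := by simp
    exact_mod_cast this.card_pos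
  rw [← Real.log_le_log_iff (by positivity) hpos, Real.log_rpow (by linarith), ← hM]
  have h2 : 1 - β < ent (D ((l, true) ::ₘ (j, false) ::ₘ 0)) / M := by linarith
  rw [lt_div_iff₀ hM0] at h2
  linarith

lemma window_count (S : Finset ℕ) (m q W : ℕ) (hq : 0 < q) :
    ∑ t ∈ Icc 1 W, (S.filter fun s => q * t * m ≤ s + m ∧ s < q * t * m + 3 * m).card ≤
      4 * S.card := by
  simp only [card_filter]
  rw [Finset.sum_comm, mul_comm 4, ← smul_eq_mul]
  apply Finset.sum_le_card_nsmul
  intro s _
  rw [← card_filter]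
  have key : ∀ t t', q * t * m ≤ s + m → s < q * t' * m + 3 * m → t < t' + 4 := by
    intro t t' h1 h2
    by_contra hge
    have h3 : q * (t' + 4) * m ≤ q * t * m :=
      Nat.mul_le_mul_right _ (Nat.mul_le_mul_left _ (by omega))
    have h4 : 1 * m ≤ q * m := Nat.mul_le_mul_right _ hq
    nlinarith
  calc _ ≤ (range 4).card := by
        apply Finset.card_le_card_of_injOn (fun t => t % 4)
        · intro t _
          simp only [coe_range, Set.mem_Iio]
          omega
        · intro t ht t' ht' e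
          simp only [coe_filter, Set.mem_ofPred_eq] at ht ht'
          have := key t t' ht.2.1 ht'.2.2
          have := key t' t ht'.2.1 ht.2.2
          simp only at e
          omega
    _ = 4 := by simp

lemma sequence_bound {β : ℝ} (hβ : (1 - (Real.exp 1)⁻¹) / 2 < β) :
    ∃ n : ℕ, ∀ (m W : ℕ) (a : ℕ → ℕ) (S : Finset ℕ), Odd m → 2 ≤ m → (∀ i, a i ≤ m) →
      (∀ i j, i < j → j < n * W * m → a i + a j + (j - i) ∈ S) →
      (W : ℝ) * (m : ℝ) ^ (1 - β) ≤ 4 * n * S.card := by
  obtain ⟨n, hn⟩ := exists_big_sumset hβ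
  refine ⟨n, fun m W a S hodd hm ha hS => ?_⟩
  have : NeZero m := ⟨by omega⟩
  have h2 : IsUnit (2 : ZMod m) := by
    have := (ZMod.isUnit_iff_coprime 2 m).2 (Nat.coprime_two_left.2 hodd)
    exact_mod_cast this
  have key : ∀ t ∈ Icc 1 W, (m : ℝ) ^ (1 - β) ≤ ∑ q ∈ Icc 1 n,
      ((S.filter fun s => q * t * m ≤ s + m ∧ s < q * t * m + 3 * m).card : ℝ) := by
    intro t ht
    rw [mem_Icc] at ht
    obtain ⟨j, l, hjl, hln, hb⟩ := hn (ZMod m) (by simpa using hm)
      (fun k i => (a (k * t * m + i.val) : ZMod m) + i)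
      (fun k i => (a (k * t * m + i.val) : ZMod m) - i) (by
        intro k i i' e
        simp only [add_sub_sub_cancel] at e
        apply h2.mul_left_cancel
        rw [two_mul, two_mul, e])
    rw [ZMod.card] at hb
    refine hb.trans ?_
    obtain ⟨q, rfl⟩ : ∃ q, l = j + (q + 1) := ⟨l - j - 1, by omega⟩
    refine le_trans ?_ (Finset.single_le_sum (f := fun q =>
      ((S.filter fun s => q * t * m ≤ s + m ∧ s < q * t * m + 3 * m).card : ℝ))
      (fun _ _ => by positivity) (show q + 1 ∈ Icc 1 n by rw [mem_Icc]; omega))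
    rw [Nat.cast_le]
    refine le_trans (Finset.card_le_card ?_) (Finset.card_image_le (f := fun s : ℕ => (s : ZMod m)))
    intro r hr
    rw [mem_image] at hr ⊢
    obtain ⟨⟨i, i'⟩, -, rfl⟩ := hr
    have hi := ZMod.val_lt i
    have hi' := ZMod.val_lt i'
    have e : (j + (q + 1)) * t * m = j * t * m + (q + 1) * t * m := by ring
    have hge : 1 * 1 * m ≤ (q + 1) * t * m :=
      Nat.mul_le_mul_right _ (Nat.mul_le_mul (by omega) ht.1)
    have hup : (j + (q + 1) + 1) * t * m ≤ n * W * m :=
      Nat.mul_le_mul_right _ (Nat.mul_le_mul (by omega) ht.2)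
    have hge2 : 1 * m ≤ t * m := Nat.mul_le_mul_right _ ht.1
    have e' : (j + (q + 1) + 1) * t * m = (j + (q + 1)) * t * m + t * m := by ring
    have hmem := hS (j * t * m + i.val) ((j + (q + 1)) * t * m + i'.val) (by omega) (by omega)
    have b1 := ha (j * t * m + i.val)
    have b2 := ha ((j + (q + 1)) * t * m + i'.val)
    refine ⟨_, mem_filter.2 ⟨hmem, by omega, by omega⟩, ?_⟩
    rw [Nat.cast_add, Nat.cast_add, Nat.cast_sub (by omega)]
    push_cast
    simp only [CharP.cast_eq_zero, mul_zero, zero_add, ZMod.natCast_zmod_val]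
    ring
  have := Finset.sum_le_sum key
  rw [sum_const, Nat.card_Icc, Nat.add_sub_cancel, nsmul_eq_mul, Finset.sum_comm] at this
  refine this.trans ?_
  have h3 : ∀ q ∈ Icc 1 n, ∑ t ∈ Icc 1 W,
      ((S.filter fun s => q * t * m ≤ s + m ∧ s < q * t * m + 3 * m).card : ℝ) ≤ 4 * S.card := by
    intro q hq
    rw [mem_Icc] at hq
    exact_mod_cast window_count S m q W (by omega)
  refine (Finset.sum_le_sum h3).trans ?_
  rw [sum_const, Nat.card_Icc, Nat.add_sub_cancel, nsmul_eq_mul]
  apply le_of_eq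
  ring

end Pool.Agent.P.MP_07218e_co
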