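import Mathlib

namespace Pool.Agent.P.MP_07218e_co

open SimpleGraph

/-- A description of a graph as a rooted tree through a parent map and a depth function. -/
structure Rooted {V : Type} (G : SimpleGraph V) where
  root : V
  par : V → V
  dep : V → ℕ
  dep_root : dep root = 0
  dep_par : ∀ v, v ≠ root → dep (par v) + 1 = dep v
  adj_iff : ∀ u v, G.Adj u v ↔ (u ≠ root ∧ par u = v) ∨ (v ≠ root ∧ par v = u)

namespace Rooted

variable {V : Type} {G : SimpleGraph V} (R : Rooted G)

lemma ne_root_of_pos {v : V} (h : 0 < R.dep v) : v ≠ R.root := by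
  rintro rfl
  simp [R.dep_root] at h

lemma pos_of_ne_root {v : V} (h : v ≠ R.root) : 0 < R.dep v := by
  have := R.dep_par v h
  omega

lemma eq_root_of_dep {v : V} (h : R.dep v = 0) : v = R.root := by
  by_contra hne
  have := R.pos_of_ne_root hne
  omega

lemma dep_iter (a : ℕ) (v : V) (h : a ≤ R.dep v) : R.dep (R.par^[a] v) + a = R.dep v := by
  induction a with
  | zero => simp
  | succ a ih =>
    have h1 := ih (by omega)
    rw [Function.iterate_succ_apply']
    have := R.dep_par (R.par^[a] v) (R.ne_root_of_pos (by omega))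
    omega

lemma adj_par {v : V} (h : v ≠ R.root) : G.Adj v (R.par v) :=
  (R.adj_iff _ _).2 (Or.inl ⟨h, rfl⟩)

lemma reachable_root (v : V) : G.Reachable v R.root := by
  induction hd : R.dep v generalizing v with
  | zero => rw [R.eq_root_of_dep hd]
  | succ n ih =>
    have hv : v ≠ R.root := R.ne_root_of_pos (by omega)
    have := R.dep_par v hv
    exact (R.adj_par hv).reachable.trans (ih _ (by omega))

include R in
lemma connected : G.Connected := by
  have : Nonempty V := ⟨R.root⟩
  exact ⟨fun u v => (R.reachable_root u).trans (R.reachable_root v).symm⟩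

/-- `a` steps up from `u` and `b` steps up from `v` meet for the first time. -/
def Good (u v : V) (a b : ℕ) : Prop :=
  a ≤ R.dep u ∧ b ≤ R.dep v ∧ R.par^[a] u = R.par^[b] v ∧
    (0 < a → 0 < b → R.par^[a - 1] u ≠ R.par^[b - 1] v)

lemma Good.dep_eq {u v : V} {a b : ℕ} (h : R.Good u v a b) :
    R.dep u + b = R.dep v + a := by
  obtain ⟨h1, h2, h3, -⟩ := h
  have e1 := R.dep_iter a u h1
  have e2 := R.dep_iter b v h2
  rw [h3] at e1
  omega

lemma good_not_lt {u v : V} {a b a' b' : ℕ} (h : R.Good u v a b) (h' : R.Good u v a' b') :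
    ¬ a' < a := by
  intro hlt
  have e1 := h.dep_eq
  have e2 := h'.dep_eq
  apply h.2.2.2 (by omega) (by omega)
  obtain ⟨k, hk⟩ : ∃ k, a - 1 = k + a' := ⟨a - 1 - a', by omega⟩
  have hk' : b - 1 = k + b' := by omega
  rw [hk, hk', Function.iterate_add_apply, Function.iterate_add_apply, h'.2.2.1]

lemma good_unique {u v : V} {a b a' b' : ℕ} (h : R.Good u v a b) (h' : R.Good u v a' b') :
    a = a' ∧ b = b' := by
  have e1 := h.dep_eq
  have e2 := h'.dep_eq
  have := R.good_not_lt h h'
  have := R.good_not_lt h' h
  omega

lemma path_struct {u v : V} (p : G.Walk u v) (hp : p.IsPath) :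
    ∃ a b, a + b = p.length ∧ R.Good u v a b ∧ (∀ i ≤ a, R.par^[i] u ∈ p.support) ∧
      (∀ i ≤ b, R.par^[i] v ∈ p.support) := by
  induction p with
  | nil => exact ⟨0, 0, by simp, ⟨by simp, by simp, by simp, by simp⟩, by simp, by simp⟩
  | @cons u w v h q ih =>
    rw [Walk.cons_isPath_iff] at hp
    obtain ⟨a, b, hab, ⟨g1, g2, g3, g4⟩, s1, s2⟩ := ih hp.1
    rcases (R.adj_iff u w).1 h with ⟨hu, hw⟩ | ⟨hw, hu⟩
    · have hd := R.dep_par u hu
      subst hw
      refine ⟨a + 1, b, by simp; omega, ⟨by omega, g2, by simpa using g3, ?_⟩, ?_, ?_⟩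
      · intro _ hb
        rcases Nat.eq_zero_or_pos a with rfl | ha
        · intro e
          apply hp.2
          simp only [zero_add, Nat.sub_self, Function.iterate_zero, id_eq] at e
          have := s2 (b - 1) (by omega)
          rwa [← e] at this
        · have := g4 ha hb
          obtain ⟨a', rfl⟩ : ∃ a', a = a' + 1 := ⟨a - 1, by omega⟩
          simpa using this
      · intro i hi
        rcases i with _ | i
        · simp
        · rw [Walk.support_cons]
          exact List.mem_cons_of_mem _ (by simpa using s1 i (by omega))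
      · intro i hi
        rw [Walk.support_cons]
        exact List.mem_cons_of_mem _ (s2 i hi)
    · have ha : a = 0 := by
        by_contra hne
        apply hp.2
        have := s1 1 (by omega)
        simpa [hu] using this
      subst ha
      simp only [Function.iterate_zero, id_eq] at g3
      have e := R.dep_iter b v g2
      rw [← g3] at e
      have hpos := R.pos_of_ne_root hw
      refine ⟨0, b + 1, by simp; omega, ⟨by omega, by omega, ?_, by simp⟩, ?_, ?_⟩
      · rw [Function.iterate_succ_apply', ← g3, hu]; rfl
      · intro i hi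
        obtain rfl : i = 0 := by omega
        simp
      · intro i hi
        rcases Nat.lt_or_ge i (b + 1) with hlt | hge
        · rw [Walk.support_cons]
          exact List.mem_cons_of_mem _ (s2 i (by omega))
        · obtain rfl : i = b + 1 := by omega
          rw [Function.iterate_succ_apply', ← g3, hu]
          simp

lemma length_eq_of_good {u v : V} {a b : ℕ} (h : R.Good u v a b) (p : G.Walk u v)
    (hp : p.IsPath) : p.length = a + b := by
  obtain ⟨a', b', hab, hg, -⟩ := R.path_struct p hp
  have := R.good_unique h hg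
  omega

lemma exists_path_of_good {u v : V} {a b : ℕ} (h : R.Good u v a b) :
    ∃ p : G.Walk u v, p.IsPath ∧ p.length = a + b := by
  obtain ⟨p, hp⟩ := R.connected.exists_isPath u v
  exact ⟨p, hp, R.length_eq_of_good h p hp⟩

include R in
lemma isTree : G.IsTree := by
  refine ⟨R.connected, ?_⟩
  intro v c hc
  have h3 := hc.three_le_length
  cases c with
  | nil => simp at h3
  | @cons _ w _ h q =>
    rw [Walk.cons_isCycle_iff] at hc
    obtain ⟨a, b, hab, hg, -⟩ := R.path_struct q hc.1
    have := R.length_eq_of_good hg (Walk.cons h.symm Walk.nil) (by simp [h.ne.symm])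
    simp at this h3
    omega

/-- The children of a vertex. -/
def children (v : V) : Set V := {u | u ≠ R.root ∧ R.par u = v}

lemma neighborSet_root : G.neighborSet R.root = R.children R.root := by
  ext u
  simp [R.adj_iff, children]

lemma neighborSet_of_ne {v : V} (hv : v ≠ R.root) :
    G.neighborSet v = insert (R.par v) (R.children v) := by
  ext u
  simp only [mem_neighborSet, R.adj_iff, children, Set.mem_insert_iff, Set.mem_ofPred_eq]
  constructor
  · rintro (⟨-, h⟩ | h)
    · exact Or.inl h.symm
    · exact Or.inr h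
  · rintro (h | h)
    · exact Or.inl ⟨hv, h.symm⟩
    · exact Or.inr h

lemma par_notMem_children {v : V} (hv : v ≠ R.root) : R.par v ∉ R.children v := by
  rintro ⟨h1, h2⟩
  have e1 := R.dep_par v hv
  have e2 := R.dep_par _ h1
  rw [h2] at e2
  omega

lemma ncard_neighborSet_of_ne [Finite V] {v : V} (hv : v ≠ R.root) :
    (G.neighborSet v).ncard = (R.children v).ncard + 1 := by
  rw [R.neighborSet_of_ne hv, Set.ncard_insert_of_notMem (R.par_notMem_children hv)]

end Rooted

lemma exists_rooted {V : Type} {G : SimpleGraph V} (hG : G.IsTree) (r : V) :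
    ∃ R : Rooted G, R.root = r := by
  choose f hf hf' using fun v => hG.existsUnique_path v r
  have hr : f r = Walk.nil := (hf' r Walk.nil Walk.IsPath.nil).symm
  have hnil : ∀ v, v ≠ r → ¬ (f v).Nil := fun v hv => Walk.not_nil_of_ne hv
  refine ⟨⟨r, fun v => (f v).snd, fun v => (f v).length, by simp [hr], ?_, ?_⟩, rfl⟩
  · intro v hv
    rw [← hf' _ (f v).tail (hf v).tail]
    exact Walk.length_tail_add_one (hnil v hv)
  · intro u v
    constructor
    · intro h
      by_cases hu : u ∈ (f v).support
      · right
        refine ⟨?_, (hG.isAcyclic.eq_snd_of_adj_start (hf v) h.symm hu).symm⟩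
        rintro rfl
        rw [hr] at hu
        simp at hu
        exact h.ne hu
      · left
        refine ⟨?_, ?_⟩
        · rintro rfl
          exact hu (f v).end_mem_support
        · rw [← hf' u (Walk.cons h (f v)) ((Walk.cons_isPath_iff _ _).2 ⟨hf v, hu⟩)]
          simp
    · rintro (⟨hu, rfl⟩ | ⟨hv, rfl⟩)
      · exact Walk.adj_snd (hnil u hu)
      · exact (Walk.adj_snd (hnil v hv)).symm

end Pool.Agent.P.MP_07218e_co
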