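import Mathlib
import Pool.Agent.P.MP_07218e_co.Defs
import Pool.Agent.P.MP_07218e_co.Rooted

namespace Pool.Agent.P.MP_07218e_co

open SimpleGraph

/-- There is a leaf-to-leaf path of length `l`. -/
def LeafLen {V : Type} (T : SimpleGraph V) (l : ℕ) : Prop :=
  ∃ u v : V, (T.neighborSet u).ncard = 1 ∧ (T.neighborSet v).ncard = 1 ∧
    ∃ p : T.Walk u v, p.IsPath ∧ p.length = l

namespace Rooted

variable {V : Type} {G : SimpleGraph V} (R : Rooted G)

/-- There is a childless vertex `k` levels below `v`. -/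
def Below (v : V) (k : ℕ) : Prop :=
  ∃ x, x ≠ R.root ∧ R.children x = ∅ ∧ k ≤ R.dep x ∧ R.par^[k] x = v

lemma exists_below [Finite V] {v : V} (hv : v ≠ R.root) : ∃ k, R.Below v k := by
  have hne : ({x | ∃ k, k ≤ R.dep x ∧ R.par^[k] x = v} : Set V).Nonempty := ⟨v, 0, by simp, rfl⟩
  obtain ⟨x, ⟨k, hk, hx⟩, hmax⟩ := Set.exists_max_image _ R.dep (Set.toFinite _) hne
  have e := R.dep_iter k x hk
  rw [hx] at e
  have hpos := R.pos_of_ne_root hv
  refine ⟨k, x, R.ne_root_of_pos (by omega), ?_, hk, hx⟩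
  rw [Set.eq_empty_iff_forall_notMem]
  rintro c ⟨hc, hcx⟩
  have e2 := R.dep_par c hc
  rw [hcx] at e2
  have := hmax c ⟨k + 1, by omega, by rw [Function.iterate_succ_apply, hcx, hx]⟩
  omega

lemma Below.succ {v c : V} {k : ℕ} (h : R.Below c k) (hc : c ∈ R.children v) :
    R.Below v (k + 1) := by
  obtain ⟨x, h1, h2, h3, h4⟩ := h
  have e := R.dep_iter k x h3
  rw [h4] at e
  have := R.pos_of_ne_root hc.1
  exact ⟨x, h1, h2, by omega, by rw [Function.iterate_succ_apply', h4, hc.2]⟩

open Classical in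
/-- Least depth of a childless vertex below `v`. -/
noncomputable def md (v : V) : ℕ := if h : ∃ k, R.Below v k then Nat.find h else 0

lemma md_spec [Finite V] {v : V} (hv : v ≠ R.root) : R.Below v (R.md v) := by
  classical
  have h := R.exists_below hv
  simp only [md, dif_pos h]
  exact Nat.find_spec h

lemma md_le {v : V} {k : ℕ} (hk : R.Below v k) : R.md v ≤ k := by
  classical
  have h : ∃ k, R.Below v k := ⟨k, hk⟩
  simp only [md, dif_pos h]
  exact Nat.find_min' h hk

lemma leafLen_of_good [Finite V] {x y : V} {a b : ℕ} (hx : x ≠ R.root) (hx' : R.children x = ∅)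
    (hy : y ≠ R.root) (hy' : R.children y = ∅) (h : R.Good x y a b) : LeafLen G (a + b) := by
  refine ⟨x, y, ?_, ?_, R.exists_path_of_good h⟩
  · rw [R.ncard_neighborSet_of_ne hx, hx']; simp
  · rw [R.ncard_neighborSet_of_ne hy, hy']; simp

lemma two_children [Finite V] (hT : IsOneThreeTree G) {v : V} (hv : v ≠ R.root)
    (hne : R.children v ≠ ∅) : ∃ c₁ c₂, c₁ ≠ c₂ ∧ R.children v = {c₁, c₂} := by
  rw [← Set.ncard_eq_two]
  have h := hT.2 v
  rw [R.ncard_neighborSet_of_ne hv] at h
  have : (R.children v).ncard ≠ 0 := by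
    rw [Ne, Set.ncard_eq_zero]
    exact hne
  omega

lemma even_lengths [Finite V] (hT : IsOneThreeTree G) {v : V} (hv : v ≠ R.root) {x : ℕ}
    (hx : x ≤ R.md v) : LeafLen G (2 * x) := by
  rcases Nat.eq_zero_or_pos x with rfl | hpos
  · obtain ⟨k, y, h1, h2, -, -⟩ := R.exists_below hv
    exact R.leafLen_of_good (a := 0) (b := 0) h1 h2 h1 h2 ⟨by simp, by simp, by simp, by simp⟩
  have hne : ({w | w ≠ R.root ∧ x ≤ R.md w} : Set V).Nonempty := ⟨v, hv, hx⟩
  obtain ⟨w, ⟨hw, hwx⟩, hmax⟩ := Set.exists_max_image _ R.dep (Set.toFinite _) hne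
  have hch : R.children w ≠ ∅ := by
    intro h
    have := R.md_le (v := w) (k := 0) ⟨w, hw, h, by simp, rfl⟩
    omega
  obtain ⟨c₁, c₂, hc, hcc⟩ := R.two_children hT hw hch
  have key : ∀ c ∈ R.children w, R.Below c (x - 1) := by
    intro c hcw
    have h1 := R.md_le (Below.succ R (R.md_spec hcw.1) hcw)
    have h2 : R.md c < x := by
      by_contra hge
      have := hmax c ⟨hcw.1, by omega⟩
      have e := R.dep_par c hcw.1
      rw [hcw.2] at e
      omega
    have : x - 1 = R.md c := by omega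
    rw [this]
    exact R.md_spec hcw.1
  have m1 : c₁ ∈ R.children w := by rw [hcc]; simp
  have m2 : c₂ ∈ R.children w := by rw [hcc]; simp
  obtain ⟨y₁, a1, a2, a3, a4⟩ := key c₁ m1
  obtain ⟨y₂, b1, b2, b3, b4⟩ := key c₂ m2
  obtain ⟨x, rfl⟩ : ∃ x', x = x' + 1 := ⟨x - 1, by omega⟩
  simp only [Nat.add_sub_cancel] at a3 a4 b3 b4
  have e1 := R.dep_iter x y₁ a3
  have e2 := R.dep_iter x y₂ b3
  rw [a4] at e1
  rw [b4] at e2
  have p1 := R.pos_of_ne_root m1.1
  have p2 := R.pos_of_ne_root m2.1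
  rw [two_mul]
  refine R.leafLen_of_good a1 a2 b1 b2 ⟨by omega, by omega, ?_, ?_⟩
  · rw [Function.iterate_succ_apply', Function.iterate_succ_apply', a4, b4, m1.2, m2.2]
  · intro _ _
    simpa [a4, b4] using hc

lemma spine_lengths [Finite V] (hT : IsOneThreeTree G) {m L : ℕ} (hm : 0 < m)
    (hsmall : ∀ v, v ≠ R.root → R.md v < m) {z : V} (hz : L + 1 ≤ R.dep z) :
    ∃ a : ℕ → ℕ, (∀ i, a i < m) ∧
      ∀ i j, i < j → j < L → LeafLen G (a i + a j + (j - i) + 2) := by
  have hc : ∀ i, ∃ c, i < L → c ∈ R.children (R.par^[i + 1] z) ∧ c ≠ R.par^[i] z := by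
    intro i
    by_cases hi : i < L
    · have e1 := R.dep_iter i z (by omega)
      have e2 := R.dep_iter (i + 1) z (by omega)
      have hmem : R.par^[i] z ∈ R.children (R.par^[i + 1] z) :=
        ⟨R.ne_root_of_pos (by omega), by rw [Function.iterate_succ_apply']⟩
      obtain ⟨c₁, c₂, hne, hcc⟩ := R.two_children hT (v := R.par^[i + 1] z)
        (R.ne_root_of_pos (by omega)) (Set.nonempty_iff_ne_empty.1 ⟨_, hmem⟩)
      by_cases h : c₁ = R.par^[i] z
      · exact ⟨c₂, fun _ => ⟨by rw [hcc]; simp, by rw [← h]; exact hne.symm⟩⟩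
      · exact ⟨c₁, fun _ => ⟨by rw [hcc]; simp, h⟩⟩
    · exact ⟨z, fun h => absurd h hi⟩
  choose c hc using hc
  refine ⟨fun i => if i < L then R.md (c i) else 0, ?_, ?_⟩
  · intro i
    by_cases hi : i < L
    · simp only [if_pos hi]
      exact hsmall _ (hc i hi).1.1
    · simpa [if_neg hi] using hm
  · intro i j hij hj
    have hi : i < L := by omega
    simp only [if_pos hi, if_pos hj]
    obtain ⟨⟨ci1, ci2⟩, -⟩ := hc i hi
    obtain ⟨⟨cj1, cj2⟩, cj3⟩ := hc j hj
    obtain ⟨x, a1, a2, a3, a4⟩ := R.md_spec ci1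
    obtain ⟨y, b1, b2, b3, b4⟩ := R.md_spec cj1
    have e1 := R.dep_iter _ x a3
    have e2 := R.dep_iter _ y b3
    rw [a4] at e1
    rw [b4] at e2
    have d1 := R.dep_par _ ci1
    have d2 := R.dep_par _ cj1
    rw [ci2] at d1
    rw [cj2] at d2
    have f1 := R.dep_iter (i + 1) z (by omega)
    have f2 := R.dep_iter (j + 1) z (by omega)
    obtain ⟨k, rfl⟩ : ∃ k, j = k + (i + 1) := ⟨j - (i + 1), by omega⟩
    have hup : R.par^[k + (R.md (c i) + 1)] x = R.par^[k + (i + 1)] z := by
      rw [Function.iterate_add_apply, Function.iterate_add_apply _ k,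
        Function.iterate_succ_apply', a4, ci2]
    have hlen : R.md (c i) + R.md (c (k + (i + 1))) + (k + (i + 1) - i) + 2 =
        (k + (R.md (c i) + 1) + 1) + (R.md (c (k + (i + 1))) + 1) := by omega
    rw [hlen]
    refine R.leafLen_of_good a1 a2 b1 b2 ⟨by omega, by omega, ?_, ?_⟩
    · rw [Function.iterate_succ_apply', hup, Function.iterate_succ_apply' _ _ y, b4, cj2,
        Function.iterate_succ_apply']
    · intro _ _
      simp only [Nat.add_sub_cancel]
      rw [hup, b4]
      exact cj3.symm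

lemma card_le_of_dep_le [Fintype V] (hT : IsOneThreeTree G) (k : ℕ) :
    (Finset.univ.filter fun v => R.dep v ≤ k).card ≤ 4 ^ k := by
  classical
  induction k with
  | zero =>
    rw [pow_zero, Finset.card_le_one]
    intro a ha b hb
    simp only [Finset.mem_filter, Finset.mem_univ, true_and] at ha hb
    rw [R.eq_root_of_dep (v := a) (by omega), R.eq_root_of_dep (v := b) (by omega)]
  | succ k ih =>
    have hsub : (Finset.univ.filter fun v => R.dep v ≤ k + 1) ⊆
        (Finset.univ.filter fun v => R.dep v ≤ k).biUnion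
          (fun u => insert u (G.neighborSet u).toFinset) := by
      intro v hv
      simp only [Finset.mem_filter, Finset.mem_univ, true_and, Finset.mem_biUnion,
        Finset.mem_insert, Set.mem_toFinset, mem_neighborSet] at hv ⊢
      by_cases h : R.dep v ≤ k
      · exact ⟨v, h, Or.inl rfl⟩
      · have hne : v ≠ R.root := R.ne_root_of_pos (by omega)
        have := R.dep_par v hne
        exact ⟨R.par v, by omega, Or.inr (R.adj_par hne).symm⟩
    refine (Finset.card_le_card hsub).trans ?_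
    refine (Finset.card_biUnion_le_card_mul _ _ 4 ?_).trans ?_
    · intro u _
      refine (Finset.card_insert_le _ _).trans ?_
      have := hT.2 u
      rw [Set.ncard_eq_toFinset_card'] at this
      omega
    · rw [pow_succ]
      exact Nat.mul_le_mul_right _ ih

end Rooted

lemma tree_dichotomy {V : Type} [Fintype V] {T : SimpleGraph V} (hT : IsOneThreeTree T)
    (m L : ℕ) (hm : 0 < m) (hn : 4 ^ L < Fintype.card V) :
    (∀ x, x ≤ m → LeafLen T (2 * x)) ∨ ∃ a : ℕ → ℕ, (∀ i, a i < m) ∧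
      ∀ i j, i < j → j < L → LeafLen T (a i + a j + (j - i) + 2) := by
  obtain ⟨r⟩ := hT.1.connected.nonempty
  obtain ⟨R, -⟩ := exists_rooted hT.1 r
  by_cases h : ∃ v, v ≠ R.root ∧ m ≤ R.md v
  · obtain ⟨v, hv, hmv⟩ := h
    exact Or.inl fun x hx => R.even_lengths hT hv (hx.trans hmv)
  · right
    push Not at h
    have : ∃ z, L + 1 ≤ R.dep z := by
      by_contra hne
      push Not at hne
      have h1 := R.card_le_of_dep_le hT L
      rw [Finset.filter_true_of_mem (fun v _ => by have := hne v; omega), Finset.card_univ] at h1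
      omega
    obtain ⟨z, hz⟩ := this
    exact R.spine_lengths hT hm h hz

end Pool.Agent.P.MP_07218e_co
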