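import Mathlib
import Pool.Agent.P.MP_07218e_co.Defs
import Pool.Agent.P.MP_07218e_co.Rooted
import Pool.Agent.P.MP_07218e_co.TreeLower

namespace Pool.Agent.P.MP_07218e_co

open SimpleGraph

lemma size_half {k : ℕ} (hk : k ≠ 0) : Nat.size (k / 2) + 1 = Nat.size k := by
  apply le_antisymm
  · obtain ⟨s, hs⟩ : ∃ s, Nat.size k = s + 1 :=
      ⟨Nat.size k - 1, by have := Nat.size_pos.2 (Nat.pos_of_ne_zero hk); omega⟩
    have h1 := Nat.lt_size_self k
    rw [hs, pow_succ] at h1
    rw [hs, Nat.add_le_add_iff_right, Nat.size_le]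
    omega
  · rw [Nat.size_le, pow_succ]
    have := Nat.lt_size_self (k / 2)
    omega

section

variable (b : ℕ → ℕ) (L : ℕ)

/-- Vertices: `(i, 0)` is the `i`-th spine vertex, `(i, k)` with `k ≥ 1` are the nodes of a
perfect binary tree in heap order. -/
abbrev CV : Type := {p : ℕ × ℕ // p.1 < L + 2 ∧ p.2 < 2 ^ b p.1}

lemma CV_finite : Finite (CV b L) := by
  have : ({p : ℕ × ℕ | p.1 < L + 2 ∧ p.2 < 2 ^ b p.1} : Set (ℕ × ℕ)).Finite := by
    refine (Set.Finite.biUnion (Set.finite_Iio (L + 2))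
      (t := fun i => (fun k => (i, k)) '' Set.Iio (2 ^ b i))
      (fun i _ => (Set.finite_Iio _).image _)).subset ?_
    rintro ⟨i, k⟩ ⟨h1, h2⟩
    simp only [Set.mem_iUnion, Set.mem_image, Set.mem_Iio]
    exact ⟨i, h1, k, h2, rfl⟩
  exact this.to_subtype

def croot : CV b L := ⟨(0, 0), by simp⟩

def cpar (v : CV b L) : CV b L :=
  if h : v.1.2 = 0 then ⟨(v.1.1 - 1, 0), by have := v.2.1; omega, by positivity⟩
  else ⟨(v.1.1, v.1.2 / 2), v.2.1, lt_of_le_of_lt (Nat.div_le_self _ _) v.2.2⟩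

def cdep (v : CV b L) : ℕ := v.1.1 + Nat.size v.1.2

variable {b L}

lemma cpar_zero {v : CV b L} (h : v.1.2 = 0) : (cpar b L v).1 = (v.1.1 - 1, 0) := by
  simp [cpar, h]

lemma cpar_pos {v : CV b L} (h : v.1.2 ≠ 0) : (cpar b L v).1 = (v.1.1, v.1.2 / 2) := by
  simp [cpar, h]

lemma ne_croot {v : CV b L} : v ≠ croot b L ↔ (v.1.1 ≠ 0 ∨ v.1.2 ≠ 0) := by
  obtain ⟨⟨i, k⟩, h⟩ := v
  simp only [croot, ne_eq, Subtype.mk.injEq, Prod.mk.injEq]
  tauto

lemma cdep_par (v : CV b L) (hv : v ≠ croot b L) : cdep b L (cpar b L v) + 1 = cdep b L v := by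
  rw [ne_croot] at hv
  by_cases h : v.1.2 = 0
  · simp only [cdep, cpar_zero h, h, Nat.size_zero]
    omega
  · simp only [cdep, cpar_pos h]
    have := size_half h
    omega

variable (b L)

def cgraph : SimpleGraph (CV b L) where
  Adj u v := (u ≠ croot b L ∧ cpar b L u = v) ∨ (v ≠ croot b L ∧ cpar b L v = u)
  symm := ⟨fun _ _ h => h.symm⟩
  loopless := ⟨fun v h => by
    rcases h with ⟨h1, h2⟩ | ⟨h1, h2⟩ <;>
    · have := cdep_par v h1
      rw [h2] at this
      omega⟩

def crooted : Rooted (cgraph b L) where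
  root := croot b L
  par := cpar b L
  dep := cdep b L
  dep_root := by simp [cdep, croot]
  dep_par := cdep_par
  adj_iff := fun _ _ => Iff.rfl

variable {b L}

lemma mem_cchildren {u v : CV b L} : u ∈ (crooted b L).children v ↔
    (u.1.2 = 0 ∧ v.1.2 = 0 ∧ u.1.1 = v.1.1 + 1) ∨
      (u.1.2 ≠ 0 ∧ u.1.1 = v.1.1 ∧ u.1.2 / 2 = v.1.2) := by
  change (u ≠ croot b L ∧ cpar b L u = v) ↔ _
  rw [ne_croot, Subtype.ext_iff]
  by_cases h : u.1.2 = 0
  · rw [cpar_zero h, Prod.ext_iff]
    simp only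
    omega
  · rw [cpar_pos h, Prod.ext_iff]
    simp only
    omega

lemma cchildren_root (h0 : b 0 = 0) :
    ((crooted b L).children (crooted b L).root).ncard = 1 := by
  rw [Set.ncard_eq_one]
  refine ⟨⟨(1, 0), by omega, by positivity⟩, ?_⟩
  ext ⟨⟨i, k⟩, h1, h2⟩
  rw [mem_cchildren]
  simp only [crooted, croot, Set.mem_singleton_iff, Subtype.mk.injEq, Prod.mk.injEq] at *
  constructor
  · rintro (h | ⟨h, rfl, h'⟩)
    · omega
    · rw [h0] at h2
      omega
  · rintro ⟨rfl, rfl⟩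
    simp

lemma cchildren_cases (h0 : b 0 = 0) (hL : b (L + 1) = 0) (hpos : ∀ i, 1 ≤ i → i ≤ L → 1 ≤ b i)
    (v : CV b L) (hv : v ≠ croot b L) :
    ((crooted b L).children v = ∅ ∧ Nat.size v.1.2 = b v.1.1) ∨
      ((crooted b L).children v).ncard = 2 := by
  rw [ne_croot] at hv
  obtain ⟨⟨i, k⟩, h1, h2⟩ := v
  simp only at h1 h2 hv
  by_cases hk : k = 0
  · subst hk
    by_cases hi : i = L + 1
    · left
      subst hi
      refine ⟨?_, by simp [hL]⟩
      ext ⟨⟨i', k'⟩, h3, h4⟩
      rw [mem_cchildren]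
      simp only [Set.mem_empty_iff_false, iff_false] at *
      rintro (h | ⟨h, rfl, h'⟩)
      · omega
      · rw [hL] at h4
        omega
    · right
      have hb : 1 < 2 ^ b i := Nat.one_lt_two_pow (by have := hpos i (by omega) (by omega); omega)
      rw [Set.ncard_eq_two]
      refine ⟨⟨(i + 1, 0), by simp only; omega, by positivity⟩, ⟨(i, 1), h1, hb⟩, by simp, ?_⟩
      ext ⟨⟨i', k'⟩, h3, h4⟩
      rw [mem_cchildren]
      simp only [Set.mem_insert_iff, Set.mem_singleton_iff, Subtype.mk.injEq, Prod.mk.injEq,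
        true_and]
      omega
  · obtain ⟨s, hs⟩ : ∃ s, b i = s + 1 := by
      refine ⟨b i - 1, ?_⟩
      by_contra hne
      have : b i = 0 := by omega
      rw [this] at h2
      omega
    by_cases hk2 : 2 * k < 2 ^ b i
    · right
      have hk3 : 2 * k + 1 < 2 ^ b i := by
        rw [hs, pow_succ] at hk2 ⊢
        omega
      rw [Set.ncard_eq_two]
      refine ⟨⟨(i, 2 * k), h1, hk2⟩, ⟨(i, 2 * k + 1), h1, hk3⟩, by simp, ?_⟩
      ext ⟨⟨i', k'⟩, h3, h4⟩
      rw [mem_cchildren]
      simp only [Set.mem_insert_iff, Set.mem_singleton_iff, Subtype.mk.injEq, Prod.mk.injEq]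
      omega
    · left
      constructor
      · ext ⟨⟨i', k'⟩, h3, h4⟩
        rw [mem_cchildren]
        simp only [Set.mem_empty_iff_false, iff_false] at *
        rintro (h | ⟨h, rfl, h'⟩)
        · omega
        · dsimp only at h4
          omega
      · simp only
        apply le_antisymm (Nat.size_le.2 h2)
        rw [hs, Nat.succ_le_iff, Nat.lt_size]
        rw [hs, pow_succ] at hk2
        omega

lemma cgraph_oneThree (h0 : b 0 = 0) (hL : b (L + 1) = 0)
    (hpos : ∀ i, 1 ≤ i → i ≤ L → 1 ≤ b i) : IsOneThreeTree (cgraph b L) := by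
  have := CV_finite b L
  refine ⟨(crooted b L).isTree, fun v => ?_⟩
  by_cases hv : v = (crooted b L).root
  · left
    rw [hv, Rooted.neighborSet_root, cchildren_root h0]
  · rw [(crooted b L).ncard_neighborSet_of_ne hv]
    rcases cchildren_cases h0 hL hpos v hv with ⟨h, -⟩ | h
    · left; rw [h]; simp
    · right; rw [h]

lemma cleaf_size (h0 : b 0 = 0) (hL : b (L + 1) = 0) (hpos : ∀ i, 1 ≤ i → i ≤ L → 1 ≤ b i)
    {v : CV b L} (h : ((cgraph b L).neighborSet v).ncard = 1) : Nat.size v.1.2 = b v.1.1 := by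
  have := CV_finite b L
  by_cases hv : v = (crooted b L).root
  · rw [hv]
    simp [crooted, croot, h0]
  · rw [(crooted b L).ncard_neighborSet_of_ne hv] at h
    rcases cchildren_cases h0 hL hpos v hv with ⟨-, h'⟩ | h'
    · exact h'
    · omega

lemma citer (v : CV b L) (a : ℕ) :
    ((cpar b L)^[a] v).1.1 ≤ v.1.1 ∧
    (a ≤ Nat.size v.1.2 → ((cpar b L)^[a] v).1.1 = v.1.1 ∧
      Nat.size ((cpar b L)^[a] v).1.2 + a = Nat.size v.1.2) ∧
    (Nat.size v.1.2 ≤ a → ((cpar b L)^[a] v).1.2 = 0) := by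
  induction a with
  | zero => simp [Nat.size_eq_zero]
  | succ a ih =>
    obtain ⟨i1, i2, i3⟩ := ih
    rw [Function.iterate_succ_apply']
    by_cases h : ((cpar b L)^[a] v).1.2 = 0
    · rw [cpar_zero h]
      refine ⟨by simp only; omega, fun ha => ?_, fun _ => rfl⟩
      have := (i2 (by omega)).2
      rw [h, Nat.size_zero] at this
      omega
    · rw [cpar_pos h]
      have hh := size_half h
      refine ⟨i1, fun ha => ?_, fun ha => ?_⟩
      · have := i2 (by omega)
        simp only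
        omega
      · simp only
        have hlt : a < Nat.size v.1.2 := by
          by_contra hge
          exact h (i3 (by omega))
        have := i2 (by omega)
        rw [← Nat.size_eq_zero]
        omega

lemma cspine_eq {u v : CV b L} (hu : u.1.2 = 0) (hv : v.1.2 = 0)
    (h : cdep b L u = cdep b L v) : u = v := by
  simp only [cdep, hu, hv, Nat.size_zero, add_zero] at h
  exact Subtype.ext (Prod.ext h (hu.trans hv.symm))

lemma cgood_not_both {u v : CV b L} {x y : ℕ} (h : (crooted b L).Good u v x y) :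
    x ≤ Nat.size u.1.2 ∨ y ≤ Nat.size v.1.2 := by
  by_contra hne
  push Not at hne
  have e := h.dep_eq
  obtain ⟨g1, g2, -, g4⟩ := h
  apply g4 (by omega) (by omega)
  have d1 := (crooted b L).dep_iter (x - 1) u (by omega)
  have d2 := (crooted b L).dep_iter (y - 1) v (by omega)
  refine cspine_eq ((citer u (x - 1)).2.2 (by omega)) ((citer v (y - 1)).2.2 (by omega)) ?_
  change (crooted b L).dep ((crooted b L).par^[x - 1] u) =
    (crooted b L).dep ((crooted b L).par^[y - 1] v)
  omega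

lemma cgood_lt {u v : CV b L} {x y : ℕ} (h : (crooted b L).Good u v x y) (hlt : u.1.1 < v.1.1) :
    x + y = Nat.size u.1.2 + Nat.size v.1.2 + (v.1.1 - u.1.1) := by
  have e := h.dep_eq
  have nb := cgood_not_both h
  have g3 : (cpar b L)^[x] u = (cpar b L)^[y] v := h.2.2.1
  obtain ⟨a1, a2, -⟩ := citer u x
  obtain ⟨-, b2, b3⟩ := citer v y
  rw [g3] at a1 a2
  have hy : Nat.size v.1.2 < y := by
    by_contra hge
    have := (b2 (by omega)).1
    omega
  have hz := b3 hy.le
  have := (a2 (by omega)).2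
  rw [hz, Nat.size_zero] at this
  change cdep b L u + y = cdep b L v + x at e
  simp only [cdep] at e
  omega

lemma good_symm {V : Type} {G : SimpleGraph V} {R : Rooted G} {u v : V} {x y : ℕ}
    (h : R.Good u v x y) : R.Good v u y x :=
  ⟨h.2.1, h.1, h.2.2.1.symm, fun h1 h2 => (h.2.2.2 h2 h1).symm⟩

lemma cgraph_lengths (h0 : b 0 = 0) (hL : b (L + 1) = 0) (hpos : ∀ i, 1 ≤ i → i ≤ L → 1 ≤ b i)
    {l : ℕ} (h : LeafLen (cgraph b L) l) :
    (∃ i, l ≤ 2 * b i) ∨ ∃ i j, i < j ∧ l = b i + b j + (j - i) := by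
  obtain ⟨u, v, hu, hv, p, hp, rfl⟩ := h
  have su := cleaf_size h0 hL hpos hu
  have sv := cleaf_size h0 hL hpos hv
  obtain ⟨x, y, hxy, hg, -⟩ := (crooted b L).path_struct p hp
  rcases lt_trichotomy u.1.1 v.1.1 with hlt | heq | hgt
  · right
    exact ⟨_, _, hlt, by rw [← hxy, cgood_lt hg hlt, su, sv]⟩
  · left
    refine ⟨u.1.1, ?_⟩
    have e := hg.dep_eq
    have nb := cgood_not_both hg
    change cdep b L u + y = cdep b L v + x at e
    simp only [cdep] at e
    rw [← heq] at sv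
    omega
  · right
    refine ⟨_, _, hgt, ?_⟩
    have := cgood_lt (good_symm hg) hgt
    omega

end

lemma iso_ncard {V W : Type} {G : SimpleGraph V} {H : SimpleGraph W} (e : G ≃g H) (v : V) :
    (H.neighborSet (e v)).ncard = (G.neighborSet v).ncard :=
  (Nat.card_congr (e.mapNeighborSet v)).symm

lemma IsOneThreeTree.iso {V W : Type} {G : SimpleGraph V} {H : SimpleGraph W} (e : G ≃g H)
    (h : IsOneThreeTree G) : IsOneThreeTree H := by
  refine ⟨e.isTree_iff.1 h.1, fun w => ?_⟩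
  obtain ⟨v, rfl⟩ := e.surjective w
  rw [iso_ncard e v]
  exact h.2 v

lemma LeafLen.iso {V W : Type} {G : SimpleGraph V} {H : SimpleGraph W} (e : G ≃g H) {l : ℕ}
    (h : LeafLen G l) : LeafLen H l := by
  obtain ⟨u, v, hu, hv, p, hp, hl⟩ := h
  exact ⟨e u, e v, by rw [iso_ncard, hu], by rw [iso_ncard, hv], p.map e.toHom,
    hp.map e.injective, by simpa using hl⟩

lemma IsOneThreeTree.even_card {V : Type} [Fintype V] {G : SimpleGraph V}
    (h : IsOneThreeTree G) : Even (Fintype.card V) := by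
  classical
  have := G.even_card_odd_degree_vertices
  rw [Finset.filter_true_of_mem, Finset.card_univ] at this
  · exact this
  · intro v _
    have h2 := h.2 v
    rw [← Nat.card_coe_set_eq, Nat.card_eq_fintype_card, card_neighborSet_eq_degree] at h2
    rcases h2 with h2 | h2 <;> rw [h2] <;> decide

lemma caterpillar (b : ℕ → ℕ) (L : ℕ) (h0 : b 0 = 0) (hL : b (L + 1) = 0)
    (hpos : ∀ i, 1 ≤ i → i ≤ L → 1 ≤ b i) :
    ∃ n, L + 2 ≤ n ∧ Even n ∧ ∃ T : SimpleGraph (Fin n), IsOneThreeTree T ∧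
      ∀ l, LeafLen T l → (∃ i, l ≤ 2 * b i) ∨ ∃ i j, i < j ∧ l = b i + b j + (j - i) := by
  have := CV_finite b L
  have := Fintype.ofFinite (CV b L)
  have hT := cgraph_oneThree h0 hL hpos
  refine ⟨Fintype.card (CV b L), ?_, hT.even_card, (cgraph b L).overFin rfl,
    hT.iso ((cgraph b L).overFinIso rfl), fun l hl =>
      cgraph_lengths h0 hL hpos (hl.iso ((cgraph b L).overFinIso rfl).symm)⟩
  have := Fintype.card_le_of_injective
    (fun i : Fin (L + 2) => (⟨(i.1, 0), i.2, by positivity⟩ : CV b L)) (by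
      intro i j e
      simp only [Subtype.mk.injEq, Prod.mk.injEq, and_true] at e
      exact Fin.ext e)
  simpa using this

end Pool.Agent.P.MP_07218e_co
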