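import Mathlib

namespace Pool.Agent.P.MP_07218e_co

open Finset

section cover

variable {G : Type} [AddCommGroup G] [Fintype G] [DecidableEq G]

lemma cover_step (E R : Finset G) (hE : Fintype.card G ≤ 8 * E.card) :
    ∃ τ, 8 * (R.filter fun g => g - τ ∉ E).card ≤ 7 * R.card := by
  have h1 : ∑ τ : G, (R.filter fun g => g - τ ∈ E).card = R.card * E.card := by
    simp only [card_filter]
    rw [Finset.sum_comm, ← smul_eq_mul, ← sum_const]
    refine Finset.sum_congr rfl fun g _ => ?_
    rw [← card_filter]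
    refine Finset.card_bij (fun τ _ => g - τ) (by simp) (by simp) ?_
    intro e he
    exact ⟨g - e, by simpa using he, by simp⟩
  have h2 : ∑ _τ : G, R.card ≤ ∑ τ : G, 8 * (R.filter fun g => g - τ ∈ E).card := by
    rw [← Finset.mul_sum, h1, sum_const, card_univ, smul_eq_mul]
    nlinarith [Nat.mul_le_mul_right R.card hE]
  obtain ⟨τ, -, hτ⟩ := Finset.exists_le_of_sum_le univ_nonempty h2
  refine ⟨τ, ?_⟩
  have := Finset.card_filter_add_card_filter_not (s := R) (fun g => g - τ ∈ E)
  omega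

lemma cover_iter (E : Finset G) (hE : Fintype.card G ≤ 8 * E.card) (r : ℕ) :
    ∃ T : Finset G, T.card ≤ r ∧
      8 ^ r * (univ.filter fun g => ∀ τ ∈ T, g - τ ∉ E).card ≤ 7 ^ r * Fintype.card G := by
  induction r with
  | zero => exact ⟨∅, by simp, by simp⟩
  | succ r ih =>
    obtain ⟨T, hT, hT'⟩ := ih
    obtain ⟨τ, hτ⟩ := cover_step E (univ.filter fun g => ∀ τ ∈ T, g - τ ∉ E) hE
    refine ⟨insert τ T, (card_insert_le _ _).trans (by omega), ?_⟩
    have e : (univ.filter fun g => ∀ σ ∈ insert τ T, g - σ ∉ E) =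
        (univ.filter fun g => ∀ τ ∈ T, g - τ ∉ E).filter fun g => g - τ ∉ E := by
      ext g
      simp only [mem_insert, forall_eq_or_imp, mem_filter, mem_univ, true_and]
      tauto
    rw [e, pow_succ, pow_succ]
    have := Nat.mul_le_mul_left (8 ^ r) hτ
    nlinarith

lemma cover_all (E : Finset G) (hE : Fintype.card G ≤ 8 * E.card) :
    ∃ T : Finset G, T.card ≤ 6 * (Nat.log 2 (Fintype.card G) + 1) ∧
      ∀ g, ∃ τ ∈ T, g - τ ∈ E := by
  obtain ⟨T, hT, hT'⟩ := cover_iter E hE (6 * (Nat.log 2 (Fintype.card G) + 1))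
  refine ⟨T, hT, fun g => ?_⟩
  by_contra hne
  push Not at hne
  have h1 : 1 ≤ (univ.filter fun g => ∀ τ ∈ T, g - τ ∉ E).card :=
    card_pos.2 ⟨g, by simpa using hne⟩
  set k := Nat.log 2 (Fintype.card G) + 1 with hk
  have h2 : Fintype.card G < 2 ^ k := Nat.lt_pow_succ_log_self (by norm_num) _
  have h3 : 7 ^ (6 * k) * 2 ^ k ≤ 8 ^ (6 * k) := by
    rw [pow_mul, pow_mul, ← mul_pow]
    exact Nat.pow_le_pow_left (by norm_num) _
  have h4 : 7 ^ (6 * k) * Fintype.card G < 7 ^ (6 * k) * 2 ^ k :=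
    Nat.mul_lt_mul_of_pos_left h2 (by positivity)
  have h5 := Nat.mul_le_mul_left (8 ^ (6 * k)) h1
  omega

end cover

lemma card_ker_mul (M n : ℕ) [Fact M.Prime] (z : Fin n → ZMod M) (hz : z ≠ 0) :
    (univ.filter fun c : Fin n → ZMod M => ∑ i, c i * z i = 0).card * M = M ^ n := by
  let f : (Fin n → ZMod M) →+ ZMod M :=
    { toFun := fun c => ∑ i, c i * z i
      map_zero' := by simp
      map_add' := by intro a b; simp [add_mul, Finset.sum_add_distrib] }
  obtain ⟨i₀, hi₀⟩ : ∃ i, z i ≠ 0 := Function.ne_iff.1 hz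
  have hsurj : Function.Surjective f := by
    intro s
    refine ⟨Pi.single i₀ (s / z i₀), ?_⟩
    change ∑ i, (Pi.single i₀ (s / z i₀) : Fin n → ZMod M) i * z i = s
    rw [Finset.sum_eq_single i₀]
    · simp [hi₀]
    · intro j _ hj
      simp [hj]
    · simp
  have h1 := f.ker.card_mul_index
  rw [AddSubgroup.index_ker, AddMonoidHom.range_eq_top.2 hsurj, AddSubgroup.card_top] at h1
  simp only [Nat.card_eq_fintype_card, ZMod.card, Fintype.card_pi, prod_const, card_univ,
    Fintype.card_fin] at h1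
  rw [← h1]
  congr 1
  rw [Fintype.card_subtype]
  congr 1
  ext c
  simp [f]

lemma exists_projection {ι : Type} [DecidableEq ι] (M n : ℕ) [Fact M.Prime] (D : Finset ι)
    (z : ι → Fin n → ZMod M) (hz : Set.InjOn z D) (hD : 2 * D.card ≤ M) :
    ∃ c : Fin n → ZMod M, D.card ≤ 2 * (D.image fun w => ∑ i, c i * z w i).card := by
  have h1 : ∑ c : Fin n → ZMod M, M * (D.offDiag.filter
      fun p => ∑ i, c i * z p.1 i = ∑ i, c i * z p.2 i).card ≤
      ∑ _c : Fin n → ZMod M, D.card * D.card := by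
    rw [← Finset.mul_sum]
    simp only [card_filter]
    rw [Finset.sum_comm, Finset.mul_sum]
    have : ∀ p ∈ D.offDiag, M * ∑ c : Fin n → ZMod M,
        (if ∑ i, c i * z p.1 i = ∑ i, c i * z p.2 i then 1 else 0) = M ^ n := by
      intro p hp
      rw [mem_offDiag] at hp
      rw [← card_filter, mul_comm, ← card_ker_mul M n (z p.1 - z p.2)
        (sub_ne_zero.2 fun e => hp.2.2 (hz hp.1 hp.2.1 e))]
      congr 2
      ext c
      simp [mul_sub, Finset.sum_sub_distrib, sub_eq_zero]
    rw [Finset.sum_congr rfl this]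
    simp only [sum_const, smul_eq_mul, card_univ, Fintype.card_pi, ZMod.card, prod_const,
      Fintype.card_fin, offDiag_card]
    rw [mul_comm]
    exact Nat.mul_le_mul_left _ (Nat.sub_le _ _)
  obtain ⟨c, -, hc⟩ := Finset.exists_le_of_sum_le univ_nonempty h1
  refine ⟨c, ?_⟩
  set φ : ι → ZMod M := fun w => ∑ i, c i * z w i with hφ
  set C := D.offDiag.filter fun p => φ p.1 = φ p.2 with hC
  have hc' : M * C.card ≤ D.card * D.card := hc
  have h2 : 2 * C.card ≤ D.card := by
    rcases Nat.eq_zero_or_pos D.card with h0 | h0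
    · have : C.card ≤ D.offDiag.card := card_filter_le _ _
      rw [offDiag_card, h0] at this
      omega
    · have : D.card * (2 * C.card) ≤ D.card * D.card := by
        nlinarith [Nat.mul_le_mul_right C.card hD]
      exact Nat.le_of_mul_le_mul_left this h0
  have h3 : (D.filter fun w => ¬ ∀ w' ∈ D, φ w = φ w' → w = w').card ≤ C.card := by
    refine le_trans (card_le_card ?_) (card_image_le (f := Prod.fst))
    intro w hw
    rw [mem_filter] at hw
    obtain ⟨hw1, hw2⟩ := hw
    push Not at hw2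
    obtain ⟨w', h1, h2, h3⟩ := hw2
    exact mem_image.2 ⟨(w, w'), mem_filter.2 ⟨mem_offDiag.2 ⟨hw1, h1, h3⟩, h2⟩, rfl⟩
  have h4 : (D.filter fun w => ∀ w' ∈ D, φ w = φ w' → w = w').card ≤ (D.image φ).card := by
    apply card_le_card_of_injOn φ
    · intro w hw
      exact mem_coe.2 (mem_image_of_mem _ (mem_filter.1 hw).1)
    · intro w hw w' hw' e
      exact (mem_filter.1 hw).2 w' (mem_filter.1 hw').1 e
  have := Finset.card_filter_add_card_filter_not (s := D) (fun w => ∀ w' ∈ D, φ w = φ w' → w = w')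
  omega

lemma card_compositions (n t : ℕ) :
    ((Fintype.piFinset fun _ : Fin n => range (t + 1)).filter fun y => ∑ i, y i = t).card ≤
      2 ^ (n + t) := by
  have h1 : ∑ y ∈ Fintype.piFinset fun _ : Fin n => range (t + 1), ∏ i, (1 / 2 : ℝ) ^ y i ≤
      2 ^ n := by
    rw [← Finset.prod_univ_sum (fun _ : Fin n => range (t + 1)) (fun _ k => (1 / 2 : ℝ) ^ k)]
    rw [prod_const, card_univ, Fintype.card_fin]
    exact pow_le_pow_left₀ (by positivity) (sum_geometric_two_le _) _
  have h2 : ∑ y ∈ (Fintype.piFinset fun _ : Fin n => range (t + 1)).filter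
      (fun y => ∑ i, y i = t), ∏ i, (1 / 2 : ℝ) ^ y i ≤ 2 ^ n :=
    le_trans (Finset.sum_le_sum_of_subset_of_nonneg (filter_subset _ _)
      (fun _ _ _ => by positivity)) h1
  rw [Finset.sum_congr rfl (g := fun _ => (1 / 2 : ℝ) ^ t) (by
    intro y hy
    rw [Finset.prod_pow_eq_pow_sum, (mem_filter.1 hy).2]), sum_const, nsmul_eq_mul,
    one_div, inv_pow, ← div_eq_mul_inv, div_le_iff₀ (by positivity), ← pow_add] at h2
  exact_mod_cast h2

end Pool.Agent.P.MP_07218e_co
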