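import Mathlib
import Pool.Agent.P.MP_07218e_co.Cover

/-! Sets with many differences and few sums from a general digit system. -/

namespace Pool.Agent.P.MP_07218e_co

open Finset

/-- A digit system: the digit `k < K` stands for the difference `u k - v k`, and all sums
`u k + v k'` lie in `S`. -/
structure Digits where
  K : ℕ
  B : ℕ
  u : ℕ → ℕ
  v : ℕ → ℕ
  S : ℕ → Bool
  u_le : ∀ k < K, u k ≤ B
  v_le : ∀ k < K, v k ≤ B
  inj : ∀ k k', u k + v k' = u k' + v k → k = k'
  mem : ∀ k < K, ∀ k' < K, S (u k + v k') = true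

namespace Digits

variable (G : Digits)

/-- Words with prescribed positive and negative mass. -/
def words (n p q : ℕ) : Finset (Fin n → ℕ) :=
  (Fintype.piFinset fun _ : Fin n => range G.K).filter
    fun w => (∑ i, G.u (w i), ∑ i, G.v (w i)) = (p, q)

/-- Vectors with entries in `S` and prescribed mass. -/
def sums (n s : ℕ) : Finset (Fin n → ℕ) :=
  (Fintype.piFinset fun _ : Fin n => (range (s + 1)).filter fun y => G.S y = true).filter
    fun y => ∑ i, y i = s

lemma exists_words (n : ℕ) (x : ℝ) :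
    ∃ p q, (∑ k ∈ range G.K, x ^ (G.u k + G.v k)) ^ n ≤
      ((G.B : ℝ) * n + 1) ^ 2 * ((G.words n p q).card * x ^ (p + q)) := by
  have hpos : (0 : ℝ) < ((G.B : ℝ) * n + 1) ^ 2 := by positivity
  obtain ⟨⟨p, q⟩, -, h⟩ := Finset.exists_le_sum_fiber_of_maps_to_of_nsmul_le_sum
    (s := Fintype.piFinset fun _ : Fin n => range G.K)
    (t := range (G.B * n + 1) ×ˢ range (G.B * n + 1))
    (f := fun w => (∑ i, G.u (w i), ∑ i, G.v (w i)))
    (w := fun w => ∏ i, x ^ (G.u (w i) + G.v (w i)))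
    (b := (∑ k ∈ range G.K, x ^ (G.u k + G.v k)) ^ n / ((G.B : ℝ) * n + 1) ^ 2)
    (by
      intro w hw
      rw [Fintype.mem_piFinset] at hw
      simp only [mem_range] at hw
      have h1 : ∑ i, G.u (w i) ≤ n * G.B := by
        simpa using Finset.sum_le_card_nsmul univ _ G.B (fun i _ => G.u_le _ (hw i))
      have h2 : ∑ i, G.v (w i) ≤ n * G.B := by
        simpa using Finset.sum_le_card_nsmul univ _ G.B (fun i _ => G.v_le _ (hw i))
      rw [mul_comm] at h1 h2
      simp only [mem_product, mem_range]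
      omega)
    (by simp)
    (by
      rw [← Finset.prod_univ_sum (fun _ : Fin n => range G.K)
        (fun _ k => x ^ (G.u k + G.v k))]
      simp only [card_product, card_range, nsmul_eq_mul, prod_const, card_univ, Fintype.card_fin]
      push_cast
      apply le_of_eq
      field_simp)
  refine ⟨p, q, ?_⟩
  rw [div_le_iff₀' hpos] at h
  refine h.trans (le_of_eq ?_)
  congr 1
  rw [← nsmul_eq_mul, ← sum_const]
  refine Finset.sum_congr rfl fun w hw => ?_
  have := (mem_filter.1 hw).2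
  simp only [Prod.mk.injEq] at this
  rw [Finset.prod_pow_eq_pow_sum, ← this.1, ← this.2, ← Finset.sum_add_distrib]

lemma card_sums (n s : ℕ) {r F : ℝ} (hr : 0 ≤ r)
    (hF : ∀ m, ∑ y ∈ (range m).filter (fun y => G.S y = true), r ^ y ≤ F) :
    ((G.sums n s).card : ℝ) * r ^ s ≤ F ^ n := by
  have h1 : ∑ y ∈ Fintype.piFinset
      fun _ : Fin n => (range (s + 1)).filter fun y => G.S y = true, ∏ i, r ^ y i ≤ F ^ n := by
    rw [← Finset.prod_univ_sum
      (fun _ : Fin n => (range (s + 1)).filter fun y => G.S y = true) (fun _ k => r ^ k)]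
    rw [prod_const, card_univ, Fintype.card_fin]
    exact pow_le_pow_left₀ (by positivity) (hF _) _
  have h2 : ∑ y ∈ G.sums n s, ∏ i, r ^ y i ≤ F ^ n :=
    le_trans (Finset.sum_le_sum_of_subset_of_nonneg (filter_subset _ _)
      (fun _ _ _ => by positivity)) h1
  rwa [Finset.sum_congr rfl (g := fun _ => r ^ s) (by
    intro y hy
    rw [Finset.prod_pow_eq_pow_sum, (mem_filter.1 hy).2]), sum_const, nsmul_eq_mul] at h2

lemma build (n p q M : ℕ) [Fact M.Prime] (hB : 2 * G.B < M)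
    (h1 : 2 * (G.words n p q).card ≤ M) (h2 : M ≤ 4 * (G.words n p q).card) :
    ∃ (a : ZMod M → ZMod M) (R : Finset (ZMod M)),
      R.card ≤ 6 * (Nat.log 2 M + 1) * (G.sums n (p + q)).card ∧
        ∀ i j, a i + a j + j - i ∈ R := by
  have hmem : ∀ w ∈ G.words n p q,
      (∀ i, w i < G.K) ∧ ∑ i, G.u (w i) = p ∧ ∑ i, G.v (w i) = q := by
    intro w hw
    simpa [words, Fintype.mem_piFinset] using hw
  obtain ⟨c, hc⟩ := exists_projection M n (G.words n p q)
    (fun w i => (G.u (w i) : ZMod M) - G.v (w i)) (by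
      intro w hw w' hw' e
      funext i
      have e1 : (G.u (w i) : ZMod M) - G.v (w i) = (G.u (w' i) : ZMod M) - G.v (w' i) :=
        congrFun e i
      have e2 : ((G.u (w i) + G.v (w' i) : ℕ) : ZMod M)
          = ((G.u (w' i) + G.v (w i) : ℕ) : ZMod M) := by
        push_cast
        linear_combination e1
      rw [ZMod.natCast_eq_natCast_iff] at e2
      have a1 := G.u_le _ ((hmem w hw).1 i)
      have a2 := G.v_le _ ((hmem w hw).1 i)
      have a3 := G.u_le _ ((hmem w' hw').1 i)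
      have a4 := G.v_le _ ((hmem w' hw').1 i)
      exact G.inj _ _ (e2.eq_of_lt_of_lt (by omega) (by omega))) h1
  obtain ⟨T, hT, hcov⟩ := cover_all
    ((G.words n p q).image fun w => ∑ i, c i * ((G.u (w i) : ZMod M) - G.v (w i)))
    (by rw [ZMod.card]; omega)
  rw [ZMod.card] at hT
  have : ∀ i : ZMod M, ∃ τ ∈ T, ∃ w ∈ G.words n p q,
      ∑ k, c k * ((G.u (w k) : ZMod M) - G.v (w k)) = 2 * i - τ := by
    intro i
    obtain ⟨τ, hτ, h⟩ := hcov (2 * i)
    exact ⟨τ, hτ, by simpa using h⟩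
  choose τ hτ w hw hwe using this
  refine ⟨fun i => ∑ k, c k * G.v (w i k) + i,
    (T ×ˢ G.sums n (p + q)).image fun s => ∑ k, c k * (s.2 k : ZMod M) + s.1, ?_, ?_⟩
  · refine card_image_le.trans ?_
    rw [card_product]
    exact Nat.mul_le_mul_right _ hT
  · intro i j
    rw [mem_image]
    have hs : ∑ k, (G.u (w j k) + G.v (w i k)) = p + q := by
      rw [Finset.sum_add_distrib, (hmem _ (hw j)).2.1, (hmem _ (hw i)).2.2]
    refine ⟨(τ j, fun k => G.u (w j k) + G.v (w i k)), ?_, ?_⟩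
    · simp only [sums, mem_product, mem_filter, Fintype.mem_piFinset, mem_range]
      refine ⟨hτ j, fun k => ⟨?_, G.mem _ ((hmem _ (hw j)).1 k) _ ((hmem _ (hw i)).1 k)⟩, hs⟩
      rw [← hs, Nat.lt_succ_iff]
      exact Finset.single_le_sum (f := fun k => G.u (w j k) + G.v (w i k))
        (fun _ _ => Nat.zero_le _) (mem_univ k)
    · have e := hwe j
      simp only [mul_sub, Finset.sum_sub_distrib] at e
      simp only [Nat.cast_add, mul_add, Finset.sum_add_distrib]
      linear_combination e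

lemma exists_seq {α r t F : ℝ} (hα0 : 0 < α) (hα1 : α ≤ 1) (hr0 : 0 < r) (hr1 : r ≤ 1)
    (ht0 : 0 < t) (htr : t ^ α ≤ r) (hF1 : 1 ≤ F)
    (hF : ∀ m, ∑ y ∈ (range m).filter (fun y => G.S y = true), r ^ y ≤ F)
    (hΦ : F < (∑ k ∈ range G.K, t ^ (G.u k + G.v k)) ^ α) (M₀ : ℕ) :
    ∃ M : ℕ, M₀ ≤ M ∧ 0 < M ∧ ∃ (a : ZMod M → ZMod M) (R : Finset (ZMod M)),
      (R.card : ℝ) ≤ (M : ℝ) ^ α ∧ ∀ i j, a i + a j + j - i ∈ R := by
  set Φ : ℝ := ∑ k ∈ range G.K, t ^ (G.u k + G.v k) with hΦdef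
  have hΦ0 : 0 ≤ Φ := Finset.sum_nonneg fun _ _ => by positivity
  set θ : ℝ := Φ ^ α with hθ
  have hθ0 : 0 < θ := by linarith
  have hlim := tendsto_pow_const_mul_const_pow_of_abs_lt_one 3 (r := F / θ) (by
    rw [abs_of_pos (by positivity), div_lt_one hθ0]; exact hΦ)
  set C : ℝ := 6 * (G.K + 3) * (G.B + 1) ^ 2 with hC
  have hC0 : 0 < C := by positivity
  obtain ⟨s₀, hs₀⟩ := Filter.eventually_atTop.1
    (hlim.eventually (gt_mem_nhds (show (0 : ℝ) < 1 / C by positivity)))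
  set n : ℕ := s₀ + M₀ + G.B + 1 with hn
  obtain ⟨p, q, hpq⟩ := G.exists_words n t
  rw [← hΦdef] at hpq
  set d : ℕ := (G.words n p q).card with hd
  have hn1 : (1 : ℝ) ≤ n := by exact_mod_cast (by omega : 1 ≤ n)
  have hP1 : (1 : ℝ) ≤ (((G.B : ℝ) + 1) * n) ^ 2 := by
    apply one_le_pow₀
    have : (0 : ℝ) ≤ G.B := by positivity
    nlinarith
  have k1 : Φ ^ n ≤ (((G.B : ℝ) + 1) * n) ^ 2 * (d * t ^ (p + q)) := by
    refine hpq.trans ?_
    gcongr
    linarith
  have k2 : θ ^ n ≤ (((G.B : ℝ) + 1) * n) ^ 2 * ((d : ℝ) ^ α * r ^ (p + q)) := by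
    calc θ ^ n = (Φ ^ n) ^ α := by
          rw [hθ, ← Real.rpow_natCast, ← Real.rpow_natCast, ← Real.rpow_mul hΦ0,
            ← Real.rpow_mul hΦ0, mul_comm]
      _ ≤ ((((G.B : ℝ) + 1) * n) ^ 2 * (d * t ^ (p + q))) ^ α :=
          Real.rpow_le_rpow (by positivity) k1 hα0.le
      _ = ((((G.B : ℝ) + 1) * n) ^ 2) ^ α * ((d : ℝ) ^ α * (t ^ α) ^ (p + q)) := by
          rw [Real.mul_rpow (by positivity) (by positivity),
            Real.mul_rpow (by positivity) (by positivity), ← Real.rpow_natCast t,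
            ← Real.rpow_natCast (t ^ α), ← Real.rpow_mul ht0.le, ← Real.rpow_mul ht0.le,
            mul_comm α]
      _ ≤ _ := by
          gcongr
          exact Real.rpow_le_self_of_one_le hP1 hα1
  have k3 : 6 * ((G.K : ℝ) + 3) * n * F ^ n ≤ (d : ℝ) ^ α * r ^ (p + q) := by
    have h := (hs₀ n (by omega)).le
    rw [div_pow, ← mul_div_assoc, div_le_div_iff₀ (by positivity) hC0, one_mul] at h
    apply le_of_mul_le_mul_left _ (lt_of_lt_of_le one_pos hP1)
    refine le_trans (le_of_eq ?_) (h.trans k2)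
    rw [hC]; ring
  have k4 : (n : ℝ) ≤ (d : ℝ) ^ α := by
    have h1 : (1 : ℝ) ≤ F ^ n := one_le_pow₀ hF1
    have h2 : (d : ℝ) ^ α * r ^ (p + q) ≤ (d : ℝ) ^ α :=
      mul_le_of_le_one_right (by positivity) (pow_le_one₀ hr0.le hr1)
    have h3 : (0 : ℝ) ≤ G.K := by positivity
    have h4 : (n : ℝ) ≤ 6 * ((G.K : ℝ) + 3) * n := by nlinarith
    have h5 : 6 * ((G.K : ℝ) + 3) * n ≤ 6 * ((G.K : ℝ) + 3) * n * F ^ n :=
      le_mul_of_one_le_right (by positivity) h1
    linarith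
  have hd1 : (1 : ℝ) ≤ d := by
    rcases Nat.eq_zero_or_pos d with h0 | h0
    · rw [h0, Nat.cast_zero, Real.zero_rpow hα0.ne'] at k4
      linarith
    · exact_mod_cast h0
  have k5 : n ≤ d := by
    have := k4.trans (Real.rpow_le_self_of_one_le hd1 hα1)
    exact_mod_cast this
  obtain ⟨M, hMp, hM1, hM2⟩ := Nat.exists_prime_lt_and_le_two_mul (2 * d) (by omega)
  have : Fact M.Prime := ⟨hMp⟩
  obtain ⟨a, R, hR, ha⟩ := G.build n p q M (by omega) (by omega) (by omega)
  refine ⟨M, by omega, by omega, a, R, ?_, ha⟩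
  have hdle : d ≤ G.K ^ n := by
    refine (card_filter_le _ _).trans ?_
    simp
  have hMle : M ≤ 2 ^ (2 + G.K * n) := by
    rw [pow_add, pow_mul]
    have : G.K ^ n ≤ (2 ^ G.K) ^ n := Nat.pow_le_pow_left Nat.lt_two_pow_self.le _
    omega
  have hlogM : Nat.log 2 M ≤ 2 + G.K * n := by
    have := Nat.log_mono_right (b := 2) hMle
    rwa [Nat.log_pow (by norm_num)] at this
  have hr : 6 * (Nat.log 2 M + 1) ≤ 6 * (G.K + 3) * n := by
    have : 1 ≤ n := by omega
    nlinarith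
  have hR2 : R.card ≤ 6 * (G.K + 3) * n * (G.sums n (p + q)).card :=
    hR.trans (Nat.mul_le_mul_right _ hr)
  have hR3 : (R.card : ℝ) ≤ 6 * ((G.K : ℝ) + 3) * n * (G.sums n (p + q)).card := by
    exact_mod_cast hR2
  have k6 : (R.card : ℝ) ≤ (d : ℝ) ^ α := by
    apply le_of_mul_le_mul_right _ (show 0 < r ^ (p + q) by positivity)
    calc (R.card : ℝ) * r ^ (p + q)
        ≤ 6 * ((G.K : ℝ) + 3) * n * (G.sums n (p + q)).card * r ^ (p + q) := by gcongr
      _ = 6 * ((G.K : ℝ) + 3) * n * ((G.sums n (p + q)).card * r ^ (p + q)) := by ring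
      _ ≤ 6 * ((G.K : ℝ) + 3) * n * F ^ n := by
          gcongr
          exact G.card_sums n (p + q) hr0.le hF
      _ ≤ _ := k3
  exact k6.trans (Real.rpow_le_rpow (by positivity)
    (by exact_mod_cast (by omega : d ≤ M)) hα0.le)

end Digits

end Pool.Agent.P.MP_07218e_co
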