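import Mathlib

namespace Pool.Agent.P.MP_07218e_co

open Finset

section Collisions

variable {α β δ κ : Type} [DecidableEq δ] [DecidableEq κ]

lemma card_filter_prod (A : Finset α) (B : Finset β) (P : α → β → Prop)
    [∀ a b, Decidable (P a b)] :
    ((A ×ˢ B).filter fun p => P p.1 p.2).card = ∑ a ∈ A, (B.filter fun b => P a b).card := by
  simp only [card_filter, sum_product]

/-- The number of pairs in `A × B` with the same image. -/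
def coll (A : Finset α) (B : Finset β) (φ : α → δ) (ψ : β → δ) : ℕ :=
  ((A ×ˢ B).filter fun p => φ p.1 = ψ p.2).card

lemma coll_eq_sum (A : Finset α) (B : Finset β) (φ : α → δ) (ψ : β → δ) (D : Finset δ)
    (hA : ∀ a ∈ A, φ a ∈ D) :
    coll A B φ ψ = ∑ d ∈ D, (A.filter fun a => φ a = d).card * (B.filter fun b => ψ b = d).card := by
  unfold coll
  rw [card_eq_sum_card_fiberwise (f := fun p : α × β => φ p.1) (t := D)]
  · refine sum_congr rfl fun d _ => ?_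
    rw [← card_product]
    congr 1
    ext ⟨a, b⟩
    simp only [mem_filter, mem_product]
    constructor
    · rintro ⟨⟨⟨ha, hb⟩, h1⟩, h2⟩
      exact ⟨⟨ha, h2⟩, hb, h1 ▸ h2⟩
    · rintro ⟨⟨ha, h1⟩, hb, h2⟩
      exact ⟨⟨⟨ha, hb⟩, h1.trans h2.symm⟩, h1⟩
  · intro p hp
    simp only [coe_filter, mem_product, Set.mem_ofPred_eq] at hp
    exact hA _ hp.1.1

lemma coll_sq_le (A : Finset α) (B : Finset β) (φ : α → δ) (ψ : β → δ) :
    coll A B φ ψ ^ 2 ≤ coll A A φ φ * coll B B ψ ψ := by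
  have hA : ∀ a ∈ A, φ a ∈ A.image φ ∪ B.image ψ := fun a ha =>
    mem_union_left _ (mem_image_of_mem _ ha)
  have hB : ∀ b ∈ B, ψ b ∈ A.image φ ∪ B.image ψ := fun b hb =>
    mem_union_right _ (mem_image_of_mem _ hb)
  rw [coll_eq_sum A B φ ψ _ hA, coll_eq_sum A A φ φ _ hA, coll_eq_sum B B ψ ψ _ hB]
  simp only [← sq]
  exact sum_mul_sq_le_sq_mul_sq _ _ _

lemma card_sq_le_coll (A : Finset α) (φ : α → δ) (D : Finset δ) (hA : ∀ a ∈ A, φ a ∈ D) :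
    A.card ^ 2 ≤ D.card * coll A A φ φ := by
  rw [coll_eq_sum A A φ φ D hA, card_eq_sum_card_fiberwise (f := φ) (t := D) hA]
  simp only [← sq]
  exact sq_sum_le_card_mul_sum_sq

lemma coll_le_windows (A : Finset α) (φ : α → δ) (ω : α → κ) (K : Finset κ)
    (hK : ∀ a ∈ A, ω a ∈ K) :
    coll A A φ φ ≤ K.card * coll A A (fun a => (φ a, ω a)) (fun a => (φ a, ω a)) := by
  have hA : ∀ a ∈ A, φ a ∈ A.image φ := fun a ha => mem_image_of_mem _ ha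
  have e : coll A A (fun a => (φ a, ω a)) (fun a => (φ a, ω a)) =
      ∑ d ∈ A.image φ, coll (A.filter fun a => φ a = d) (A.filter fun a => φ a = d) ω ω := by
    unfold coll
    rw [card_eq_sum_card_fiberwise (f := fun p : α × α => φ p.1) (t := A.image φ)]
    · refine sum_congr rfl fun d _ => ?_
      congr 1
      ext ⟨a, b⟩
      simp only [mem_filter, mem_product, Prod.mk.injEq]
      constructor
      · rintro ⟨⟨⟨ha, hb⟩, h1, h3⟩, h2⟩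
        exact ⟨⟨⟨ha, h2⟩, hb, h1 ▸ h2⟩, h3⟩
      · rintro ⟨⟨⟨ha, h1⟩, hb, h2⟩, h3⟩
        exact ⟨⟨⟨ha, hb⟩, h1.trans h2.symm, h3⟩, h1⟩
    · intro p hp
      simp only [coe_filter, mem_product, Set.mem_ofPred_eq] at hp
      exact hA _ hp.1.1
  rw [e, coll_eq_sum A A φ φ _ hA, mul_sum]
  refine sum_le_sum fun d _ => ?_
  rw [← sq]
  exact card_sq_le_coll _ ω K fun a ha => hK a (mem_filter.1 ha).1

end Collisions

/-- Ordered pairs of elements of `Z`. -/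
def upPairs (Z : Finset ℤ) : Finset (ℤ × ℤ) := (Z ×ˢ Z).filter fun p => p.1 ≤ p.2

lemma mem_upPairs {Z : Finset ℤ} {p : ℤ × ℤ} : p ∈ upPairs Z ↔ p.1 ∈ Z ∧ p.2 ∈ Z ∧ p.1 ≤ p.2 := by
  simp only [upPairs, mem_filter, mem_product, and_assoc]

lemma sums_le_energy (X Y S : Finset ℤ) (hS : ∀ x ∈ X, ∀ y ∈ Y, x + y ∈ S) :
    (X.card * Y.card) ^ 2 ≤
      2 * S.card * coll (upPairs X) (upPairs Y) (fun p => p.2 - p.1) (fun p => p.2 - p.1) := by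
  have h1 := card_sq_le_coll (X ×ˢ Y) (fun p => p.1 + p.2) S fun p hp =>
    hS _ (mem_product.1 hp).1 _ (mem_product.1 hp).2
  rw [card_product] at h1
  refine h1.trans ?_
  rw [mul_comm 2, mul_assoc]
  refine Nat.mul_le_mul_left _ ?_
  unfold coll
  set T := ((X ×ˢ Y) ×ˢ (X ×ˢ Y)).filter
    fun p : (ℤ × ℤ) × (ℤ × ℤ) => p.1.1 + p.1.2 = p.2.1 + p.2.2 with hT
  rw [← card_filter_add_card_filter_not (s := T) (fun p => p.2.1 ≤ p.1.1), two_mul]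
  refine add_le_add ?_ ?_
  · refine card_le_card_of_injOn (fun p => ((p.2.1, p.1.1), (p.1.2, p.2.2))) ?_ ?_
    · rintro ⟨⟨x, y⟩, u, v⟩ hp
      simp only [hT, coe_filter, mem_filter, mem_product, Set.mem_ofPred_eq, mem_upPairs] at hp ⊢
      obtain ⟨⟨⟨⟨hx, hy⟩, hu, hv⟩, h2⟩, h3⟩ := hp
      exact ⟨⟨⟨hu, hx, h3⟩, hy, hv, by omega⟩, by omega⟩
    · rintro ⟨⟨x, y⟩, u, v⟩ - ⟨⟨x', y'⟩, u', v'⟩ - h
      simp only [Prod.mk.injEq] at h ⊢
      tauto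
  · refine card_le_card_of_injOn (fun p => ((p.1.1, p.2.1), (p.2.2, p.1.2))) ?_ ?_
    · rintro ⟨⟨x, y⟩, u, v⟩ hp
      simp only [hT, coe_filter, mem_filter, mem_product, Set.mem_ofPred_eq, mem_upPairs] at hp ⊢
      obtain ⟨⟨⟨⟨hx, hy⟩, hu, hv⟩, h2⟩, h3⟩ := hp
      exact ⟨⟨⟨hx, hu, by omega⟩, hv, hy, by omega⟩, by omega⟩
    · rintro ⟨⟨x, y⟩, u, v⟩ - ⟨⟨x', y'⟩, u', v'⟩ - h
      simp only [Prod.mk.injEq] at h ⊢
      tauto

section Side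

variable (U : Finset ℕ) (f g : ℕ → ℤ) (m μ : ℕ) (S Z : Finset ℤ)

lemma density
    (h5 : ∀ (t : ℤ) (k : ℕ), (U.filter fun i => t ≤ f i ∧ f i < t + k).card ≤ k + m)
    (hZ : ∀ z ∈ Z, μ ≤ (U.filter fun i => f i = z).card) (t : ℤ) (k : ℕ) :
    μ * (Z.filter fun z => t ≤ z ∧ z < t + k).card ≤ k + m := by
  refine le_trans ?_ (h5 t k)
  refine (mul_card_image_le_card_of_maps_to (f := f)
    (s := U.filter fun i => f i ∈ Z.filter fun z => t ≤ z ∧ z < t + k)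
    (fun a ha => (mem_filter.1 ha).2) μ ?_).trans (card_le_card ?_)
  · intro b hb
    refine (hZ b (mem_filter.1 hb).1).trans (card_le_card ?_)
    intro i hi
    rw [mem_filter] at hi
    rw [mem_filter, mem_filter]
    exact ⟨⟨hi.1, hi.2 ▸ hb⟩, hi.2⟩
  · intro i hi
    simp only [mem_filter] at hi ⊢
    exact ⟨hi.1, hi.2.2⟩

lemma near_bound (hm : 0 < m) (hμ : 0 < μ)
    (h1 : ∀ i ∈ U, ∀ j ∈ U, g i - f i = g j - f j → i = j)
    (h2 : ∀ i ∈ U, 0 ≤ f i + g i ∧ f i + g i < 2 * m)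
    (h3 : ∀ i ∈ U, ∀ j ∈ U, f i + m ≤ f j → g i + f j ∈ S)
    (h5 : ∀ (t : ℤ) (k : ℕ), (U.filter fun i => t ≤ f i ∧ f i < t + k).card ≤ k + m)
    (hZ : ∀ z ∈ Z, μ ≤ (U.filter fun i => f i = z).card) :
    μ ^ 2 * coll (upPairs Z) (upPairs Z) (fun p => (p.2 - p.1, p.1 / (m : ℤ)))
      (fun p => (p.2 - p.1, p.1 / (m : ℤ))) ≤ 7 * m * ((S.card + 4 * m) * Z.card) := by
  unfold coll
  set Q := (upPairs Z ×ˢ upPairs Z).filter fun p : (ℤ × ℤ) × (ℤ × ℤ) =>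
    (p.1.2 - p.1.1, p.1.1 / (m : ℤ)) = (p.2.2 - p.2.1, p.2.1 / (m : ℤ)) with hQ
  set S' : Finset ℤ := S ∪ Ico (-(m : ℤ)) (3 * m) with hS'
  have hS'c : S'.card ≤ S.card + 4 * m := by
    refine (card_union_le _ _).trans ?_
    rw [Int.card_Ico]
    omega
  have hQmem : ∀ y v y' v' : ℤ, ((y, v), (y', v')) ∈ Q → y ∈ Z ∧ v ∈ Z ∧ y' ∈ Z ∧ v' ∈ Z ∧
      y ≤ v ∧ v - y = v' - y' ∧ y - y' < m ∧ y' - y < m := by
    intro y v y' v' h
    simp only [hQ, mem_filter, mem_product, mem_upPairs, Prod.mk.injEq] at h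
    obtain ⟨⟨⟨a1, a2, a3⟩, a4, a5, -⟩, a7, a8⟩ := h
    have hm' : (0 : ℤ) < m := by exact_mod_cast hm
    have e1 := Int.mul_ediv_add_emod y m
    have e2 := Int.mul_ediv_add_emod y' m
    have e3 := Int.emod_nonneg y hm'.ne'
    have e4 := Int.emod_nonneg y' hm'.ne'
    have e5 := Int.emod_lt_of_pos y hm'
    have e6 := Int.emod_lt_of_pos y' hm'
    rw [a8] at e1
    exact ⟨a1, a2, a4, a5, a3, a7, by omega, by omega⟩
  have k1 : μ * Q.card ≤ ((Q ×ˢ U).filter fun r => f r.2 = r.1.1.1).card := by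
    rw [card_filter_prod Q U fun q i => f i = q.1.1, mul_comm, ← smul_eq_mul, ← sum_const]
    refine sum_le_sum ?_
    rintro ⟨⟨y, v⟩, y', v'⟩ hq
    exact hZ y (hQmem y v y' v' hq).1
  have k2 : ((Q ×ˢ U).filter fun r => f r.2 = r.1.1.1).card ≤
      (((S' ×ˢ Z) ×ˢ Z).filter fun r : (ℤ × ℤ) × ℤ => r.1.1 + r.1.2 - 4 * m ≤ r.2 ∧
        r.2 < r.1.1 + r.1.2 - 4 * m + ((6 * m : ℕ) : ℤ)).card := by
    refine card_le_card_of_injOn (fun r => ((g r.2 + r.1.2.2, r.1.2.1), r.1.1.2)) ?_ ?_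
    · rintro ⟨⟨⟨y, v⟩, y', v'⟩, i⟩ hr
      simp only [coe_filter, mem_product, Set.mem_ofPred_eq] at hr ⊢
      obtain ⟨⟨hq, hi⟩, hfi⟩ := hr
      obtain ⟨a1, a2, a3, a4, a5, a6, a7, a8⟩ := hQmem y v y' v' hq
      obtain ⟨b1, b2⟩ := h2 i hi
      refine ⟨⟨⟨?_, a3⟩, a2⟩, by omega, by push_cast; omega⟩
      by_cases hc : f i + m ≤ v'
      · obtain ⟨j, hj⟩ := card_pos.1 (hμ.trans_le (hZ v' a4))
        rw [mem_filter] at hj
        refine mem_union_left _ ?_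
        rw [← hj.2] at hc ⊢
        exact h3 i hi j hj.1 hc
      · refine mem_union_right _ ?_
        rw [mem_Ico]
        constructor <;> omega
    · rintro ⟨⟨⟨y, v⟩, y', v'⟩, i⟩ hr ⟨⟨⟨z, w⟩, z', w'⟩, j⟩ hs h
      simp only [coe_filter, mem_product, Set.mem_ofPred_eq, Prod.mk.injEq] at hr hs h ⊢
      obtain ⟨⟨hq, hi⟩, hfi⟩ := hr
      obtain ⟨⟨hq', hj⟩, hfj⟩ := hs
      obtain ⟨-, -, -, -, -, a6, -, -⟩ := hQmem y v y' v' hq
      obtain ⟨-, -, -, -, -, b6, -, -⟩ := hQmem z w z' w' hq'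
      obtain ⟨⟨c1, c2⟩, c3⟩ := h
      have hij : i = j := h1 i hi j hj (by omega)
      subst hij
      exact ⟨⟨⟨by omega, c3⟩, c2, by omega⟩, rfl⟩
  have k3 : μ * (((S' ×ˢ Z) ×ˢ Z).filter fun r : (ℤ × ℤ) × ℤ => r.1.1 + r.1.2 - 4 * m ≤ r.2 ∧
        r.2 < r.1.1 + r.1.2 - 4 * m + ((6 * m : ℕ) : ℤ)).card ≤ 7 * m * (S'.card * Z.card) := by
    rw [card_filter_prod (S' ×ˢ Z) Z fun p v => p.1 + p.2 - 4 * m ≤ v ∧
      v < p.1 + p.2 - 4 * m + ((6 * m : ℕ) : ℤ), mul_sum, ← card_product, mul_comm (7 * m),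
      ← smul_eq_mul (S' ×ˢ Z).card]
    refine sum_le_card_nsmul _ _ _ fun p _ => ?_
    have := density U f m μ Z h5 hZ (p.1 + p.2 - 4 * m) (6 * m)
    omega
  calc μ ^ 2 * Q.card = μ * (μ * Q.card) := by ring
    _ ≤ _ := Nat.mul_le_mul_left _ (k1.trans k2)
    _ ≤ _ := k3
    _ ≤ _ := by gcongr

lemma energy_bound (hm : 0 < m) (hμ : 0 < μ) (K : Finset ℤ)
    (h1 : ∀ i ∈ U, ∀ j ∈ U, g i - f i = g j - f j → i = j)
    (h2 : ∀ i ∈ U, 0 ≤ f i + g i ∧ f i + g i < 2 * m)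
    (h3 : ∀ i ∈ U, ∀ j ∈ U, f i + m ≤ f j → g i + f j ∈ S)
    (h5 : ∀ (t : ℤ) (k : ℕ), (U.filter fun i => t ≤ f i ∧ f i < t + k).card ≤ k + m)
    (h6 : ∀ z ∈ Z, z / (m : ℤ) ∈ K)
    (hZ : ∀ z ∈ Z, μ ≤ (U.filter fun i => f i = z).card) :
    μ ^ 2 * coll (upPairs Z) (upPairs Z) (fun p => p.2 - p.1) (fun p => p.2 - p.1) ≤
      K.card * (7 * m * ((S.card + 4 * m) * Z.card)) := by
  have a := coll_le_windows (upPairs Z) (fun p => p.2 - p.1) (fun p => p.1 / (m : ℤ)) K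
    fun p hp => h6 _ (mem_upPairs.1 hp).1
  have b := near_bound U f g m μ S Z hm hμ h1 h2 h3 h5 hZ
  calc _ ≤ μ ^ 2 * (K.card * _) := Nat.mul_le_mul_left _ a
    _ = K.card * (μ ^ 2 * _) := by ring
    _ ≤ _ := Nat.mul_le_mul_left _ b

end Side

end Pool.Agent.P.MP_07218e_co
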