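import Mathlib
import Pool.Agent.P.MP_07218e_co.Defs
import Pool.Agent.P.MP_07218e_co.TreeLower
import Pool.Agent.P.MP_07218e_co.Additive

namespace Pool.Agent.P.MP_07218e_co

open Finset

lemma leafLengths_finite {V : Type} (T : SimpleGraph V) (N : ℕ) : (leafLengths T N).Finite :=
  (Set.finite_Iic N).subset fun _ h => h.1

lemma LeafLen.zero {V : Type} {T : SimpleGraph V} {l : ℕ} (h : LeafLen T l) : LeafLen T 0 := by
  obtain ⟨u, -, hu, -⟩ := h
  exact ⟨u, u, hu, hu, SimpleGraph.Walk.nil, SimpleGraph.Walk.IsPath.nil, rfl⟩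

lemma propertyP_of_lt {c : ℝ} (hc1 : 3 / 4 ≤ c) (hc2 : c < 2 * Real.exp 1 / (3 * Real.exp 1 - 1)) :
    PropertyP c := by
  have he : (2 : ℝ) < Real.exp 1 := by
    have := Real.exp_one_gt_d9
    linarith
  have hc0 : 0 < c := by linarith
  rw [lt_div_iff₀ (by linarith)] at hc2
  have hc3 : c < 1 := by nlinarith
  set β : ℝ := 1 / c - 1 with hβdef
  have hcβ : c * β = 1 - c := by rw [hβdef]; field_simp
  have hβ : (1 - (Real.exp 1)⁻¹) / 2 < β := by
    have e1 : (1 - (Real.exp 1)⁻¹) / 2 = (Real.exp 1 - 1) / (2 * Real.exp 1) := by field_simp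
    have e2 : β = (1 - c) / c := by rw [hβdef]; field_simp
    rw [e1, e2, div_lt_div_iff₀ (by linarith) hc0]
    nlinarith
  have hβ0 : 0 ≤ β := by
    have e2 : β = (1 - c) / c := by rw [hβdef]; field_simp
    rw [e2]; exact div_nonneg (by linarith) hc0.le
  have hβ1 : β ≤ 1 := by nlinarith
  obtain ⟨n, hn⟩ := sequence_bound hβ
  set K : ℝ := (5 * ((n : ℝ) + 2)) ^ (c / (1 - c)) with hK
  have hK0 : 0 < K := by positivity
  refine ⟨min (1 / K) (1 / (40 * ((n : ℝ) + 2) ^ 2)), by positivity, fun N hN => ?_⟩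
  have hN1 : (1 : ℝ) ≤ N := by exact_mod_cast hN
  have hNc : (1 : ℝ) ≤ (N : ℝ) ^ c := Real.one_le_rpow hN1 hc0.le
  set m : ℕ := 2 * ⌈(N : ℝ) ^ c⌉₊ + 1 with hm
  have hceil : 1 ≤ ⌈(N : ℝ) ^ c⌉₊ := Nat.one_le_ceil_iff.2 (by linarith)
  have hm1 : (N : ℝ) ^ c ≤ m := by
    have := Nat.le_ceil ((N : ℝ) ^ c)
    rw [hm]; push_cast
    linarith
  have hm2 : (m : ℝ) ≤ 5 * (N : ℝ) ^ c := by
    have := Nat.ceil_lt_add_one (a := (N : ℝ) ^ c) (by linarith)
    rw [hm]; push_cast
    linarith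
  have hm0 : (0 : ℝ) < m := by linarith
  set W : ℕ := N / ((n + 2) * m) with hW
  refine ⟨4 ^ (n * W * m + 2) + 1, fun n' hn' _ T hT => ?_⟩
  have hdich := tree_dichotomy hT m (n * W * m + 2) (by omega) (by simpa using hn')
  have hfin := leafLengths_finite T N
  rcases Nat.eq_zero_or_pos W with hW0 | hW0
  · have hz : LeafLen T 0 := by
      rcases hdich with h | ⟨a, -, h⟩
      · exact h 0 (by omega)
      · exact (h 0 1 (by omega) (by omega)).zero
    have h1 : 1 ≤ (leafLengths T N).ncard :=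
      (Set.ncard_pos hfin).2 ⟨0, by omega, hz⟩
    have h1' : (1 : ℝ) ≤ (leafLengths T N).ncard := by exact_mod_cast h1
    have hlt : N < (n + 2) * m := by
      rw [hW, Nat.div_eq_zero_iff] at hW0
      rcases hW0 with h | h
      · have : 0 < (n + 2) * m := by positivity
        omega
      · exact h
    have hlt' : (N : ℝ) < ((n : ℝ) + 2) * m := by exact_mod_cast hlt
    have h2 : (N : ℝ) ^ (1 - c) ≤ 5 * ((n : ℝ) + 2) := by
      rw [Real.rpow_sub (by linarith), Real.rpow_one, div_le_iff₀ (by linarith)]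
      have : ((n : ℝ) + 2) * m ≤ ((n : ℝ) + 2) * (5 * (N : ℝ) ^ c) := by gcongr
      linarith
    have h3 : (N : ℝ) ^ c ≤ K := by
      have : (N : ℝ) ^ c = ((N : ℝ) ^ (1 - c)) ^ (c / (1 - c)) := by
        rw [← Real.rpow_mul (by linarith)]
        congr 1
        have : 1 - c ≠ 0 := by linarith
        field_simp
      rw [this, hK]
      exact Real.rpow_le_rpow (by positivity) h2 (div_nonneg hc0.le (by linarith))
    calc _ ≤ 1 / K * K := mul_le_mul (min_le_left _ _) h3 (by linarith) (by positivity)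
      _ = 1 := by field_simp
      _ ≤ _ := h1'
  have hWle : W * ((n + 2) * m) ≤ N := Nat.div_mul_le_self _ _
  have hWm : 1 * m ≤ W * m := Nat.mul_le_mul_right _ hW0
  have hfit : n * W * m + 2 * m ≤ N := by nlinarith
  have hκ : min (1 / K) (1 / (40 * ((n : ℝ) + 2) ^ 2)) * (N : ℝ) ^ c ≤
      1 / (40 * ((n : ℝ) + 2) ^ 2) * (N : ℝ) ^ c := by
    gcongr
    exact min_le_right _ _
  refine hκ.trans ?_
  have hn2 : (2 : ℝ) ≤ (n : ℝ) + 2 := by
    have : (0 : ℝ) ≤ n := by positivity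
    linarith
  rcases hdich with h | ⟨a, ha, h⟩
  · have h1 : ((range (m + 1)).image fun x => 2 * x).card ≤ (leafLengths T N).ncard := by
      rw [← Set.ncard_coe_finset]
      apply Set.ncard_le_ncard _ hfin
      intro l hl
      simp only [coe_image, coe_range, Set.mem_image, Set.mem_Iio] at hl
      obtain ⟨x, hx, rfl⟩ := hl
      exact ⟨by omega, h x (by omega)⟩
    rw [card_image_of_injective _ (fun x y e => by simpa using e), card_range] at h1
    have h1' : ((m + 1 : ℕ) : ℝ) ≤ (leafLengths T N).ncard := by exact_mod_cast h1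
    push_cast at h1'
    have : 1 / (40 * ((n : ℝ) + 2) ^ 2) ≤ 1 := by
      rw [div_le_one (by positivity)]
      nlinarith
    have := mul_le_mul_of_nonneg_right this (by linarith : (0 : ℝ) ≤ (N : ℝ) ^ c)
    linarith
  · have key := hn m W (fun i => a i + 1) hfin.toFinset ⟨_, hm⟩ (by omega) (fun i => ha i) (by
      intro i j hij hj
      rw [Set.Finite.mem_toFinset]
      have e : a i + 1 + (a j + 1) + (j - i) = a i + a j + (j - i) + 2 := by ring
      rw [e]
      have := ha i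
      have := ha j
      exact ⟨by omega, h i j hij (by omega)⟩)
    rw [← Set.ncard_eq_toFinset_card _ hfin] at key
    have hW2 : N < (W + 1) * ((n + 2) * m) := by
      rw [hW, mul_comm]
      exact Nat.lt_mul_div_succ _ (by positivity)
    have hW3 : N ≤ 2 * W * ((n + 2) * m) :=
      hW2.le.trans (Nat.mul_le_mul_right _ (by omega))
    have hW4 : (N : ℝ) ≤ 2 * W * (((n : ℝ) + 2) * m) := by exact_mod_cast hW3
    have hmβ : (m : ℝ) ^ β ≤ 5 * (N : ℝ) ^ (1 - c) := by
      calc (m : ℝ) ^ β ≤ (5 * (N : ℝ) ^ c) ^ β := Real.rpow_le_rpow hm0.le hm2 hβ0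
        _ = 5 ^ β * (N : ℝ) ^ (1 - c) := by
          rw [Real.mul_rpow (by norm_num) (by positivity), ← Real.rpow_mul (by linarith), hcβ]
        _ ≤ 5 * (N : ℝ) ^ (1 - c) := by
          gcongr
          calc (5 : ℝ) ^ β ≤ 5 ^ (1 : ℝ) := Real.rpow_le_rpow_of_exponent_le (by norm_num) hβ1
            _ = 5 := Real.rpow_one 5
    rw [Real.rpow_sub hm0, Real.rpow_one, ← mul_div_assoc, div_le_iff₀ (by positivity)] at key
    have hsplit : (N : ℝ) = (N : ℝ) ^ c * (N : ℝ) ^ (1 - c) := by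
      rw [← Real.rpow_add (by linarith)]; simp
    have hp : (0 : ℝ) < (N : ℝ) ^ (1 - c) := by positivity
    set A : ℝ := ((leafLengths T N).ncard : ℝ) with hA
    have hA0 : 0 ≤ A := by positivity
    have k2 : (W : ℝ) * m ≤ 4 * ((n : ℝ) + 2) * A * (5 * (N : ℝ) ^ (1 - c)) := by
      refine key.trans ?_
      gcongr
      linarith
    have k3 : (N : ℝ) ^ c * (N : ℝ) ^ (1 - c) ≤
        (40 * ((n : ℝ) + 2) ^ 2 * A) * (N : ℝ) ^ (1 - c) := by
      rw [← hsplit]
      have := mul_le_mul_of_nonneg_left k2 (by linarith : (0 : ℝ) ≤ 2 * ((n : ℝ) + 2))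
      nlinarith
    have k4 := le_of_mul_le_mul_right k3 hp
    rw [one_div, inv_mul_le_iff₀ (by positivity)]
    exact k4

theorem lower_main : 2 * Real.exp 1 / (3 * Real.exp 1 - 1) ≤ cStar := by
  have he : (2 : ℝ) < Real.exp 1 := by
    have := Real.exp_one_gt_d9
    linarith
  have he2 : Real.exp 1 < 3 := by
    have := Real.exp_one_lt_d9
    linarith
  have h34 : (3 / 4 : ℝ) < 2 * Real.exp 1 / (3 * Real.exp 1 - 1) := by
    rw [lt_div_iff₀ (by linarith)]; linarith
  have h1 : 2 * Real.exp 1 / (3 * Real.exp 1 - 1) < 1 := by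
    rw [div_lt_one (by linarith)]; linarith
  refine le_of_forall_lt_imp_le_of_dense fun c hc => ?_
  have hb : BddAbove {c : ℝ | c ∈ Set.Icc (0 : ℝ) 1 ∧ PropertyP c} := ⟨1, fun x hx => hx.1.2⟩
  refine (le_max_left c (3 / 4)).trans (le_csSup hb ⟨⟨?_, ?_⟩, ?_⟩)
  · exact le_trans (by norm_num) (le_max_right _ _)
  · exact max_le (by linarith) (by norm_num)
  · exact propertyP_of_lt (le_max_right _ _) (max_lt hc h34)

end Pool.Agent.P.MP_07218e_co
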