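import Mathlib
import Pool.Agent.P.MP_07218e_co.Energy

namespace Pool.Agent.P.MP_07218e_co

open Finset

lemma exists_cut (J : Finset ℕ) (k : ℕ) (hk : k ≤ J.card) :
    ∃ t, (J.filter fun j => j < t).card = k := by
  have hex : ∃ t, k ≤ (J.filter fun j => j < t).card := by
    refine ⟨J.sup id + 1, ?_⟩
    rw [filter_true_of_mem]
    · exact hk
    · intro j hj
      exact Nat.lt_succ_of_le (le_sup (f := id) hj)
  classical
  refine ⟨Nat.find hex, le_antisymm ?_ (Nat.find_spec hex)⟩
  rcases h : Nat.find hex with _ | t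
  · simp
  · have h1 := Nat.find_min hex (m := t) (by omega)
    have h2 : (J.filter fun j => j < t + 1) ⊆ insert t (J.filter fun j => j < t) := by
      intro j hj
      simp only [mem_filter, mem_insert] at hj ⊢
      rcases Nat.lt_succ_iff_lt_or_eq.1 hj.2 with h | h
      · exact Or.inr ⟨hj.1, h⟩
      · exact Or.inl h
    have h3 := (card_le_card h2).trans (card_insert_le _ _)
    omega

lemma final_arith {X Y EX EY C S s μ ν h J L K m W : ℕ} (hW : 0 < W) (hL : L = W * m)
    (hs : S ≤ s) (hs0 : 0 < s) (hm : 0 < m) (hK : 0 < K)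
    (a1 : (X * Y) ^ 2 ≤ 2 * S * C) (a2 : C ^ 2 ≤ EX * EY)
    (a3 : ν ^ 2 * EX ≤ (W + 1) * (7 * m * (s * X)))
    (a4 : μ ^ 2 * EY ≤ (W + 1) * (7 * m * (s * Y)))
    (a5 : h ≤ 2 * μ * Y) (a6 : h ≤ 2 * ν * X) (a7 : μ * ν * J ≤ 3 * m * L)
    (a8 : J ≤ 2 * h + 1) (a9 : L ≤ J * (K * K)) :
    L ^ 4 ≤ 2 ^ 27 * K ^ 14 * m * s ^ 4 := by
  have hL0 : 0 < L := by rw [hL]; positivity
  rcases Nat.eq_zero_or_pos h with rfl | hh
  · have b1 : L ≤ K * K := a9.trans (by nlinarith)
    calc L ^ 4 ≤ (K * K) ^ 4 := by gcongr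
      _ = 1 * K ^ 8 * 1 * 1 := by ring
      _ ≤ 2 ^ 27 * K ^ 14 * m * s ^ 4 := by
        gcongr
        · norm_num
        · norm_num
        · exact hm
        · exact Nat.one_le_pow _ _ hs0
  have hX : 0 < X := Nat.pos_of_ne_zero (by rintro rfl; omega)
  have hY : 0 < Y := Nat.pos_of_ne_zero (by rintro rfl; omega)
  have hWL : (W + 1) * m ≤ 2 * L := by rw [hL]; nlinarith
  have b1 : (X * Y) ^ 3 * (μ * ν) ^ 2 * (X * Y) ≤ 196 * s ^ 4 * (2 * L) ^ 2 * (X * Y) := by
    calc (X * Y) ^ 3 * (μ * ν) ^ 2 * (X * Y) = ((X * Y) ^ 2) ^ 2 * (μ * ν) ^ 2 := by ring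
      _ ≤ (2 * s * C) ^ 2 * (μ * ν) ^ 2 := by
        gcongr
        exact a1.trans (by gcongr)
      _ = 4 * s ^ 2 * (μ * ν) ^ 2 * C ^ 2 := by ring
      _ ≤ 4 * s ^ 2 * (μ * ν) ^ 2 * (EX * EY) := by gcongr
      _ = 4 * s ^ 2 * ((ν ^ 2 * EX) * (μ ^ 2 * EY)) := by ring
      _ ≤ 4 * s ^ 2 * (((W + 1) * (7 * m * (s * X))) * ((W + 1) * (7 * m * (s * Y)))) := by gcongr
      _ = 196 * s ^ 4 * ((W + 1) * m) ^ 2 * (X * Y) := by ring
      _ ≤ _ := by gcongr
  have b2 := Nat.le_of_mul_le_mul_right b1 (by positivity)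
  have b3 : h ^ 6 * J ≤ 64 * 196 * 12 * m * L ^ 3 * s ^ 4 := by
    calc h ^ 6 * J = (h * h) ^ 3 * J := by ring
      _ ≤ ((2 * μ * Y) * (2 * ν * X)) ^ 3 * J := by gcongr
      _ = 64 * ((X * Y) ^ 3 * (μ * ν) ^ 2) * (μ * ν * J) := by ring
      _ ≤ 64 * (196 * s ^ 4 * (2 * L) ^ 2) * (3 * m * L) := by gcongr
      _ = _ := by ring
  have b4 : J ≤ 3 * h := by omega
  have b5 : L ^ 4 * L ^ 3 ≤ 2 ^ 27 * K ^ 14 * m * s ^ 4 * L ^ 3 := by
    calc L ^ 4 * L ^ 3 = L ^ 7 := by ring
      _ ≤ (J * (K * K)) ^ 7 := by gcongr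
      _ = K ^ 14 * (J ^ 6 * J) := by ring
      _ ≤ K ^ 14 * ((3 * h) ^ 6 * J) := by gcongr
      _ = 729 * K ^ 14 * (h ^ 6 * J) := by ring
      _ ≤ 729 * K ^ 14 * (64 * 196 * 12 * m * L ^ 3 * s ^ 4) := by gcongr
      _ = 109734912 * (K ^ 14 * m * s ^ 4 * L ^ 3) := by ring
      _ ≤ 2 ^ 27 * (K ^ 14 * m * s ^ 4 * L ^ 3) := by gcongr; norm_num
      _ = _ := by ring
  exact Nat.le_of_mul_le_mul_right b5 (by positivity)

lemma card_le_of_interval (A : Finset ℕ) (s : ℤ) (n : ℕ) (h : ∀ i ∈ A, s ≤ i ∧ (i : ℤ) < s + n) :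
    A.card ≤ n := by
  have : A.card ≤ (Ico s (s + n)).card :=
    card_le_card_of_injOn (fun i => (i : ℤ)) (fun i hi => by simpa using h i hi)
      (fun i _ j _ e => by simpa using e)
  simpa using this

theorem sequence_energy (m W : ℕ) (hm : 0 < m) (hW : 0 < W) (a : ℕ → ℕ) (ha : ∀ i, a i < m)
    (S : Finset ℤ) (hS : ∀ i j : ℕ, i < j → j < W * m → (a i : ℤ) + a j + (j - i) ∈ S) :
    (W * m) ^ 4 ≤ 2 ^ 27 * (Nat.log 2 (m + 1) + 1) ^ 14 * m * (S.card + 4 * m) ^ 4 := by
  set U := range (W * m) with hU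
  set x : ℕ → ℤ := fun i => a i + i with hx
  set y : ℕ → ℤ := fun i => a i - i with hy
  set K := Nat.log 2 (m + 1) + 1 with hK
  have hm' : (0 : ℤ) < m := by exact_mod_cast hm
  have h5x : ∀ (t : ℤ) (k : ℕ), (U.filter fun i => t ≤ x i ∧ x i < t + k).card ≤ k + m := by
    intro t k
    refine card_le_of_interval _ (t - m) _ fun i hi => ?_
    have := ha i
    have h := (mem_filter.1 hi).2
    simp only [hx] at h
    push_cast
    constructor <;> omega
  have h5y : ∀ (t : ℤ) (k : ℕ), (U.filter fun i => t ≤ y i ∧ y i < t + k).card ≤ k + m := by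
    intro t k
    refine card_le_of_interval _ (-t - k) _ fun i hi => ?_
    have := ha i
    have h := (mem_filter.1 hi).2
    simp only [hy] at h
    push_cast
    constructor <;> omega
  have hmult : ∀ f : ℕ → ℤ,
      (∀ (t : ℤ) (k : ℕ), (U.filter fun i => t ≤ f i ∧ f i < t + k).card ≤ k + m) → ∀ j ∈ U,
      0 < (U.filter fun i => f i = f j).card ∧
        Nat.log 2 (U.filter fun i => f i = f j).card < K := by
    intro f h5 j hj
    refine ⟨card_pos.2 ⟨j, mem_filter.2 ⟨hj, rfl⟩⟩, Nat.lt_succ_of_le (Nat.log_mono_right ?_)⟩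
    refine (card_le_card ?_).trans ((h5 (f j) 1).trans (by omega))
    intro i hi
    simp only [mem_filter] at hi ⊢
    exact ⟨hi.1, by omega, by omega⟩
  set c : ℕ → ℕ × ℕ := fun j => (Nat.log 2 (U.filter fun i => y i = y j).card,
    Nat.log 2 (U.filter fun i => x i = x j).card) with hc
  obtain ⟨⟨r, t⟩, -, hmax⟩ := exists_max_image (range K ×ˢ range K)
    (fun p => (U.filter fun j => c j = p).card) ⟨(0, 0), by simp [hK]⟩
  set J := U.filter fun j => c j = (r, t) with hJ
  have a9 : W * m ≤ J.card * (K * K) := by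
    have := card_le_mul_card_image_of_maps_to (s := U) (f := c) (t := range K ×ˢ range K)
      (fun j hj => mem_product.2
        ⟨mem_range.2 (hmult y h5y j hj).2, mem_range.2 (hmult x h5x j hj).2⟩) J.card hmax
    simpa [hU] using this
  have hJU : ∀ j ∈ J, j ∈ U := fun j hj => (mem_filter.1 hj).1
  have hJy : ∀ j ∈ J, 2 ^ r ≤ (U.filter fun i => y i = y j).card ∧
      (U.filter fun i => y i = y j).card ≤ 2 * 2 ^ r := by
    intro j hj
    have e : Nat.log 2 (U.filter fun i => y i = y j).card = r :=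
      congrArg Prod.fst (mem_filter.1 hj).2
    rw [← e]
    refine ⟨Nat.pow_log_le_self 2 (hmult y h5y j (hJU j hj)).1.ne', ?_⟩
    rw [← pow_succ']
    exact (Nat.lt_pow_succ_log_self (by norm_num) _).le
  have hJx : ∀ j ∈ J, 2 ^ t ≤ (U.filter fun i => x i = x j).card ∧
      (U.filter fun i => x i = x j).card ≤ 2 * 2 ^ t := by
    intro j hj
    have e : Nat.log 2 (U.filter fun i => x i = x j).card = t :=
      congrArg Prod.snd (mem_filter.1 hj).2
    rw [← e]
    refine ⟨Nat.pow_log_le_self 2 (hmult x h5x j (hJU j hj)).1.ne', ?_⟩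
    rw [← pow_succ']
    exact (Nat.lt_pow_succ_log_self (by norm_num) _).le
  have himg : ∀ (f : ℕ → ℤ) (μ : ℕ) (A : Finset ℕ), A ⊆ J →
      (∀ j ∈ J, μ ≤ (U.filter fun i => f i = f j).card ∧
        (U.filter fun i => f i = f j).card ≤ 2 * μ) →
      (∀ z ∈ A.image f, μ ≤ (U.filter fun i => f i = z).card) ∧
        A.card ≤ 2 * μ * (A.image f).card := by
    intro f μ A hA h
    refine ⟨fun z hz => ?_, card_le_mul_card_image A _ fun z hz => ?_⟩
    · obtain ⟨j, hj, rfl⟩ := mem_image.1 hz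
      exact (h j (hA hj)).1
    · obtain ⟨j, hj, rfl⟩ := mem_image.1 hz
      exact (card_le_card (filter_subset_filter _ fun i hi => hJU i (hA hi))).trans
        (h j (hA hj)).2
  have a7 : 2 ^ r * 2 ^ t * J.card ≤ 3 * m * (W * m) := by
    have b1 : 2 ^ r * (J.image y).card ≤ W * m := by
      refine (mul_card_image_le_card_of_maps_to (f := y)
        (s := U.filter fun i => y i ∈ J.image y) (fun i hi => (mem_filter.1 hi).2) _ ?_).trans ?_
      · intro z hz
        refine ((himg y _ J Subset.rfl hJy).1 z hz).trans (card_le_card ?_)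
        intro i hi
        rw [mem_filter] at hi
        rw [mem_filter, mem_filter]
        exact ⟨⟨hi.1, hi.2 ▸ hz⟩, hi.2⟩
      · exact (card_filter_le _ _).trans (by simp [hU])
    have b2 : 2 ^ t * J.card ≤ (J.image y).card * (3 * m) := by
      rw [card_eq_sum_card_image y J, mul_sum, ← smul_eq_mul (J.image y).card]
      refine sum_le_card_nsmul _ _ _ fun z _ => ?_
      have d := density U x m (2 ^ t) (J.image x) h5x (himg x _ J Subset.rfl hJx).1 (-z) (2 * m)
      refine le_trans (Nat.mul_le_mul_left _ ?_) (d.trans (by omega))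
      refine card_le_card_of_injOn x ?_ ?_
      · intro j hj
        simp only [coe_filter, Set.mem_ofPred_eq] at hj ⊢
        have := ha j
        have e := hj.2
        refine ⟨mem_image_of_mem _ hj.1, ?_⟩
        simp only [hx, hy] at e ⊢
        push_cast
        constructor <;> omega
      · intro i hi j hj e
        simp only [coe_filter, Set.mem_ofPred_eq] at hi hj
        have e1 := hi.2
        have e2 := hj.2
        simp only [hx, hy] at e e1 e2
        omega
    calc 2 ^ r * 2 ^ t * J.card = 2 ^ r * (2 ^ t * J.card) := by ring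
      _ ≤ 2 ^ r * ((J.image y).card * (3 * m)) := by gcongr
      _ = 3 * m * (2 ^ r * (J.image y).card) := by ring
      _ ≤ _ := by gcongr
  obtain ⟨t₀, ht₀⟩ := exists_cut J (J.card / 2) (Nat.div_le_self _ _)
  set J₁ := J.filter fun j => j < t₀ with hJ₁
  set J₂ := J.filter fun j => ¬ j < t₀ with hJ₂
  have hsum : J₁.card + J₂.card = J.card := card_filter_add_card_filter_not _
  obtain ⟨hY1, hY2⟩ := himg y _ J₁ (filter_subset _ _) hJy
  obtain ⟨hX1, hX2⟩ := himg x _ J₂ (filter_subset _ _) hJx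
  have a1 := sums_le_energy (J₂.image x) (J₁.image y) S (by
    intro u hu v hv
    obtain ⟨l, hl, rfl⟩ := mem_image.1 hu
    obtain ⟨j, hj, rfl⟩ := mem_image.1 hv
    rw [mem_filter] at hl hj
    have e : x l + y j = (a j : ℤ) + a l + (l - j) := by simp only [hx, hy]; ring
    rw [e]
    exact hS j l (by omega) (mem_range.1 (hJU l hl.1)))
  have a3 := energy_bound U x y m (2 ^ t) S (J₂.image x) hm (by positivity) (Ico 0 (W + 1))
    (fun i _ j _ e => by simp only [hx, hy] at e; omega)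
    (fun i _ => by have := ha i; simp only [hx, hy]; constructor <;> omega)
    (fun i _ j hj h => by
      have := ha j
      have e : y i + x j = (a i : ℤ) + a j + (j - i) := by simp only [hx, hy]; ring
      rw [e]
      simp only [hx] at h
      exact hS i j (by omega) (mem_range.1 hj))
    h5x
    (fun z hz => by
      obtain ⟨l, hl, rfl⟩ := mem_image.1 hz
      have h1 : ((l : ℕ) : ℤ) < W * m := by
        exact_mod_cast mem_range.1 (hJU l (mem_filter.1 hl).1)
      have h2 := ha l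
      rw [mem_Ico, Int.le_ediv_iff_mul_le hm', Int.ediv_lt_iff_lt_mul hm', add_mul]
      simp only [hx]
      constructor <;> omega)
    hX1
  have a4 := energy_bound U y x m (2 ^ r) S (J₁.image y) hm (by positivity) (Ico (-W) 1)
    (fun i _ j _ e => by simp only [hx, hy] at e; omega)
    (fun i _ => by have := ha i; simp only [hx, hy]; constructor <;> omega)
    (fun i hi j _ h => by
      have := ha j
      have e : x i + y j = (a j : ℤ) + a i + (i - j) := by simp only [hx, hy]; ring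
      rw [e]
      simp only [hy] at h
      exact hS j i (by omega) (mem_range.1 hi))
    h5y
    (fun z hz => by
      obtain ⟨l, hl, rfl⟩ := mem_image.1 hz
      have h1 : ((l : ℕ) : ℤ) < W * m := by
        exact_mod_cast mem_range.1 (hJU l (mem_filter.1 hl).1)
      have h2 := ha l
      rw [mem_Ico, Int.le_ediv_iff_mul_le hm', Int.ediv_lt_iff_lt_mul hm', neg_mul]
      simp only [hy]
      constructor <;> omega)
    hY1
  have c3 : (Ico (0 : ℤ) (W + 1)).card = W + 1 := by rw [Int.card_Ico]; omega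
  have c4 : (Ico (-W : ℤ) 1).card = W + 1 := by rw [Int.card_Ico]; omega
  rw [c3] at a3
  rw [c4] at a4
  exact final_arith (h := J.card / 2) hW rfl (Nat.le_add_right _ _) (by omega) hm (by omega) a1
    (coll_sq_le _ _ _ _) a3 a4 (by omega) (by omega) a7 (by omega) a9

end Pool.Agent.P.MP_07218e_co
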