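import Mathlib
import Pool.Agent.P.MP_07218e_co.Defs
import Pool.Agent.P.MP_07218e_co.TreeLower
import Pool.Agent.P.MP_07218e_co.Sequence45

namespace Pool.Agent.P.MP_07218e_co

open Finset

lemma log_two_bound {k N : ℕ} (hk : k ≠ 0) (hkN : k ≤ N) {ε : ℝ} (hε : 0 < ε) :
    ((Nat.log 2 k + 1 : ℕ) : ℝ) ≤ (2 / ε + 1) * (N : ℝ) ^ ε := by
  have hN1 : (1 : ℝ) ≤ N := by exact_mod_cast (Nat.pos_of_ne_zero hk).trans_le hkN
  have h1 : (2 : ℝ) ^ Nat.log 2 k ≤ N := by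
    exact_mod_cast (Nat.pow_log_le_self 2 hk).trans hkN
  have h2 : (Nat.log 2 k : ℝ) * Real.log 2 ≤ Real.log N := by
    rw [← Real.log_pow]
    exact Real.log_le_log (by positivity) h1
  have h3 := Real.log_le_rpow_div (x := (N : ℝ)) (by linarith) hε
  have h4 : (1 / 2 : ℝ) ≤ Real.log 2 := by
    have := Real.log_two_gt_d9
    linarith
  have h5 : (1 : ℝ) ≤ (N : ℝ) ^ ε := Real.one_le_rpow hN1 hε.le
  have h6 : (Nat.log 2 k : ℝ) * (1 / 2) ≤ (Nat.log 2 k : ℝ) * Real.log 2 := by gcongr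
  have h7 : (2 / ε + 1) * (N : ℝ) ^ ε = 2 * ((N : ℝ) ^ ε / ε) + (N : ℝ) ^ ε := by ring
  push_cast
  linarith

lemma propertyP_of_lt45 {c : ℝ} (hc0 : 0 < c) (hc : c < 4 / 5) : PropertyP c := by
  set ε : ℝ := (4 - 5 * c) / 28 with hεdef
  have hε : 0 < ε := by rw [hεdef]; linarith
  set C : ℝ := 81 * 2 ^ 27 * 625 * 32 * (2 / ε + 1) ^ 14 with hC
  have ev1 : ∀ᶠ N : ℕ in Filter.atTop, (8 : ℝ) ≤ (N : ℝ) ^ (1 - c) :=
    ((tendsto_rpow_atTop (by linarith : 0 < 1 - c)).comp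
      tendsto_natCast_atTop_atTop).eventually_ge_atTop 8
  have ev2 : ∀ᶠ N : ℕ in Filter.atTop, C < (N : ℝ) ^ (14 * ε) :=
    ((tendsto_rpow_atTop (by linarith : 0 < 14 * ε)).comp
      tendsto_natCast_atTop_atTop).eventually_gt_atTop C
  obtain ⟨N₀, hN₀⟩ := Filter.eventually_atTop.1 (ev1.and ev2)
  have hN₀0 : (0 : ℝ) ≤ N₀ := by positivity
  refine ⟨1 / ((N₀ : ℝ) + 1), by positivity, fun N hN => ?_⟩
  have hN1 : (1 : ℝ) ≤ N := by exact_mod_cast hN
  have hNc : (1 : ℝ) ≤ (N : ℝ) ^ c := Real.one_le_rpow hN1 hc0.le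
  set m : ℕ := ⌈(N : ℝ) ^ c⌉₊ with hm
  have hmpos : 0 < m := Nat.one_le_ceil_iff.2 (by linarith)
  have hm1 : (N : ℝ) ^ c ≤ m := Nat.le_ceil _
  have hm2 : (m : ℝ) ≤ 2 * (N : ℝ) ^ c := by
    have := Nat.ceil_lt_add_one (a := (N : ℝ) ^ c) (by linarith)
    rw [hm]
    linarith
  set W : ℕ := N / m - 2 with hW
  refine ⟨4 ^ (W * m + 2) + 1, fun n' hn' _ T hT => ?_⟩
  have hdich := tree_dichotomy hT m (W * m + 2) hmpos (by simpa using hn')
  have hfin : (leafLengths T N).Finite := (Set.finite_Iic N).subset fun _ h => h.1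
  rw [one_div, inv_mul_le_iff₀ (by positivity)]
  rcases lt_or_ge N N₀ with hlt | hge
  · have hz : LeafLen T 0 := by
      rcases hdich with h | ⟨a, -, h⟩
      · exact h 0 (by omega)
      · obtain ⟨u, -, hu, -⟩ := h 0 1 (by omega) (by omega)
        exact ⟨u, u, hu, hu, SimpleGraph.Walk.nil, SimpleGraph.Walk.IsPath.nil, rfl⟩
    have h1 : 1 ≤ (leafLengths T N).ncard := (Set.ncard_pos hfin).2 ⟨0, by omega, hz⟩
    have h1' : (1 : ℝ) ≤ (leafLengths T N).ncard := by exact_mod_cast h1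
    have h2 : (N : ℝ) ^ c ≤ N := by
      calc (N : ℝ) ^ c ≤ (N : ℝ) ^ (1 : ℝ) := Real.rpow_le_rpow_of_exponent_le hN1 (by linarith)
        _ = N := Real.rpow_one _
    have h3 : (N : ℝ) ≤ N₀ := by exact_mod_cast hlt.le
    nlinarith
  obtain ⟨e1, e2⟩ := hN₀ N hge
  have hA0 : (0 : ℝ) ≤ (leafLengths T N).ncard := by positivity
  suffices h : (N : ℝ) ^ c ≤ (leafLengths T N).ncard by nlinarith
  have hsplit : (N : ℝ) = (N : ℝ) ^ c * (N : ℝ) ^ (1 - c) := by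
    rw [← Real.rpow_add (by linarith)]; simp
  have h4m : 4 * m ≤ N := by
    have : (4 : ℝ) * m ≤ N := by
      calc (4 : ℝ) * m ≤ (N : ℝ) ^ c * 8 := by linarith
        _ ≤ (N : ℝ) ^ c * (N : ℝ) ^ (1 - c) := by gcongr
        _ = N := hsplit.symm
    exact_mod_cast this
  have hq : 4 ≤ N / m := (Nat.le_div_iff_mul_le hmpos).2 h4m
  have hq1 : N / m * m ≤ N := Nat.div_mul_le_self _ _
  have hq2 : N < m * (N / m + 1) := Nat.lt_mul_div_succ _ hmpos
  have hqW : N / m = W + 2 := by omega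
  rw [hqW] at hq hq1 hq2
  have hfit : W * m + 2 * m ≤ N := by nlinarith
  have hN3 : N ≤ 3 * (W * m) := by
    have : 2 * m ≤ W * m := Nat.mul_le_mul_right _ (by omega)
    nlinarith
  rcases hdich with h | ⟨a, ha, h⟩
  · have h1 : ((range (m + 1)).image fun x => 2 * x).card ≤ (leafLengths T N).ncard := by
      rw [← Set.ncard_coe_finset]
      apply Set.ncard_le_ncard _ hfin
      intro l hl
      simp only [coe_image, coe_range, Set.mem_image, Set.mem_Iio] at hl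
      obtain ⟨x, hx, rfl⟩ := hl
      exact ⟨by omega, h x (by omega)⟩
    rw [card_image_of_injective _ (fun x y e => by simpa using e), card_range] at h1
    have h1' : ((m + 1 : ℕ) : ℝ) ≤ (leafLengths T N).ncard := by exact_mod_cast h1
    push_cast at h1'
    linarith
  by_contra hcon
  push Not at hcon
  have key := sequence_energy m W hmpos (by omega) a ha
    (hfin.toFinset.image fun l : ℕ => (l : ℤ) - 2) (by
      intro i j hij hj
      refine mem_image.2 ⟨a i + a j + (j - i) + 2, ?_, ?_⟩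
      · rw [Set.Finite.mem_toFinset]
        have := ha i
        have := ha j
        exact ⟨by omega, h i j hij (by omega)⟩
      · push_cast [Nat.cast_sub hij.le]
        ring)
  have hS : (hfin.toFinset.image fun l : ℕ => (l : ℤ) - 2).card ≤ m := by
    refine card_image_le.trans ?_
    rw [← Set.ncard_eq_toFinset_card _ hfin]
    exact_mod_cast (hcon.le.trans hm1)
  have k1 : N ^ 4 ≤ 81 * 2 ^ 27 * 625 * (Nat.log 2 (m + 1) + 1) ^ 14 * m ^ 5 := by
    calc N ^ 4 ≤ (3 * (W * m)) ^ 4 := by gcongr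
      _ = 81 * (W * m) ^ 4 := by ring
      _ ≤ 81 * (2 ^ 27 * (Nat.log 2 (m + 1) + 1) ^ 14 * m * (m + 4 * m) ^ 4) := by
        refine Nat.mul_le_mul_left _ (key.trans ?_)
        gcongr
      _ = _ := by ring
  have k2 : (N : ℝ) ^ 4 ≤
      81 * 2 ^ 27 * 625 * ((Nat.log 2 (m + 1) + 1 : ℕ) : ℝ) ^ 14 * (m : ℝ) ^ 5 := by
    exact_mod_cast k1
  have k3 := log_two_bound (k := m + 1) (N := N) (by omega) (by omega) hε
  have hNpos : (0 : ℝ) < N := by linarith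
  have p1 : ((N : ℝ) ^ ε) ^ 14 = (N : ℝ) ^ (14 * ε) := by
    rw [← Real.rpow_natCast, ← Real.rpow_mul hNpos.le]
    congr 1
    push_cast
    ring
  have p2 : ((N : ℝ) ^ c) ^ 5 = (N : ℝ) ^ (5 * c) := by
    rw [← Real.rpow_natCast, ← Real.rpow_mul hNpos.le]
    congr 1
    push_cast
    ring
  have p3 : (N : ℝ) ^ 4 = (N : ℝ) ^ (14 * ε) * ((N : ℝ) ^ (14 * ε) * (N : ℝ) ^ (5 * c)) := by
    rw [← Real.rpow_add hNpos, ← Real.rpow_add hNpos, ← Real.rpow_natCast]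
    congr 1
    rw [hεdef]
    push_cast
    ring
  have k4 : (N : ℝ) ^ (14 * ε) * ((N : ℝ) ^ (14 * ε) * (N : ℝ) ^ (5 * c)) ≤
      C * ((N : ℝ) ^ (14 * ε) * (N : ℝ) ^ (5 * c)) := by
    calc _ = (N : ℝ) ^ 4 := p3.symm
      _ ≤ _ := k2
      _ ≤ 81 * 2 ^ 27 * 625 * ((2 / ε + 1) * (N : ℝ) ^ ε) ^ 14 * (2 * (N : ℝ) ^ c) ^ 5 := by gcongr
      _ = _ := by rw [mul_pow, mul_pow, p1, p2, hC]; ring
  have k5 := le_of_mul_le_mul_right k4 (by positivity)
  linarith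

theorem lower45 : 4 / 5 ≤ cStar := by
  refine le_of_forall_lt_imp_le_of_dense fun c hc => ?_
  have hb : BddAbove {c : ℝ | c ∈ Set.Icc (0 : ℝ) 1 ∧ PropertyP c} := ⟨1, fun x hx => hx.1.2⟩
  refine (le_max_left c (1 / 2)).trans (le_csSup hb ⟨⟨?_, ?_⟩, ?_⟩)
  · exact le_trans (by norm_num) (le_max_right _ _)
  · exact max_le (by linarith) (by norm_num)
  · exact propertyP_of_lt45 (lt_of_lt_of_le (by norm_num) (le_max_right _ _))
      (max_lt hc (by norm_num))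

end Pool.Agent.P.MP_07218e_co
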