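import Mathlib
import Pool.Agent.P.MP_07218e_co.Cover

namespace Pool.Agent.P.MP_07218e_co

open Finset

/-- Positive part of the digit coded by `k`. -/
def dU (k : ℕ) : ℕ := if k % 2 = 0 then k / 2 else 0

/-- Negative part of the digit coded by `k`. -/
def dV (k : ℕ) : ℕ := if k % 2 = 0 then 0 else (k + 1) / 2

lemma dU_add_dV (k : ℕ) : dU k + dV k = (k + 1) / 2 := by
  unfold dU dV; split_ifs <;> omega

lemma dU_le {B k : ℕ} (h : k < 2 * B + 1) : dU k ≤ B := by
  unfold dU; split_ifs <;> omega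

lemma dV_le {B k : ℕ} (h : k < 2 * B + 1) : dV k ≤ B := by
  unfold dV; split_ifs <;> omega

lemma d_inj {k k' : ℕ} (h : dU k + dV k' = dU k' + dV k) : k = k' := by
  unfold dU dV at h; split_ifs at h <;> omega

lemma phi_eq (x : ℝ) (B : ℕ) :
    (1 - x) * ∑ k ∈ range (2 * B + 1), x ^ ((k + 1) / 2) = 1 + x - 2 * x ^ (B + 1) := by
  induction B with
  | zero => simp; ring
  | succ B ih =>
    have e : 2 * (B + 1) + 1 = 2 * B + 1 + 1 + 1 := by ring
    have e1 : (2 * B + 1 + 1) / 2 = B + 1 := by omega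
    have e2 : (2 * B + 1 + 1 + 1) / 2 = B + 1 := by omega
    rw [e, sum_range_succ, sum_range_succ, e1, e2, mul_add, mul_add, ih]
    ring

/-- Words with prescribed positive and negative mass. -/
def DD (B n p q : ℕ) : Finset (Fin n → ℕ) :=
  (Fintype.piFinset fun _ : Fin n => range (2 * B + 1)).filter
    fun w => (∑ i, dU (w i), ∑ i, dV (w i)) = (p, q)

lemma exists_DD (B n : ℕ) (x : ℝ) :
    ∃ p q, (∑ k ∈ range (2 * B + 1), x ^ ((k + 1) / 2)) ^ n ≤
      ((B : ℝ) * n + 1) ^ 2 * ((DD B n p q).card * x ^ (p + q)) := by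
  have hpos : (0 : ℝ) < ((B : ℝ) * n + 1) ^ 2 := by positivity
  obtain ⟨⟨p, q⟩, -, h⟩ := Finset.exists_le_sum_fiber_of_maps_to_of_nsmul_le_sum
    (s := Fintype.piFinset fun _ : Fin n => range (2 * B + 1))
    (t := range (B * n + 1) ×ˢ range (B * n + 1))
    (f := fun w => (∑ i, dU (w i), ∑ i, dV (w i)))
    (w := fun w => ∏ i, x ^ ((w i + 1) / 2))
    (b := (∑ k ∈ range (2 * B + 1), x ^ ((k + 1) / 2)) ^ n / ((B : ℝ) * n + 1) ^ 2)
    (by
      intro w hw
      rw [Fintype.mem_piFinset] at hw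
      simp only [mem_range] at hw
      have h1 : ∑ i, dU (w i) ≤ n * B := by
        simpa using Finset.sum_le_card_nsmul univ _ B (fun i _ => dU_le (hw i))
      have h2 : ∑ i, dV (w i) ≤ n * B := by
        simpa using Finset.sum_le_card_nsmul univ _ B (fun i _ => dV_le (hw i))
      rw [mul_comm] at h1 h2
      simp only [mem_product, mem_range]
      omega)
    (by simp)
    (by
      rw [← Finset.prod_univ_sum (fun _ : Fin n => range (2 * B + 1))
        (fun _ k => x ^ ((k + 1) / 2))]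
      simp only [card_product, card_range, nsmul_eq_mul, prod_const, card_univ, Fintype.card_fin]
      push_cast
      apply le_of_eq
      field_simp)
  refine ⟨p, q, ?_⟩
  rw [div_le_iff₀' hpos] at h
  refine h.trans (le_of_eq ?_)
  congr 1
  rw [← nsmul_eq_mul, ← sum_const]
  refine Finset.sum_congr rfl fun w hw => ?_
  have := (mem_filter.1 hw).2
  simp only [Prod.mk.injEq] at this
  rw [Finset.prod_pow_eq_pow_sum, ← this.1, ← this.2, ← Finset.sum_add_distrib]
  simp only [dU_add_dV]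

lemma build_sequence (B n p q M : ℕ) [Fact M.Prime] (hB : 2 * B < M)
    (h1 : 2 * (DD B n p q).card ≤ M) (h2 : M ≤ 4 * (DD B n p q).card) :
    ∃ (a : ZMod M → ZMod M) (R : Finset (ZMod M)),
      R.card ≤ 6 * (Nat.log 2 M + 1) * 2 ^ (n + (p + q)) ∧ ∀ i j, a i + a j + j - i ∈ R := by
  have hmem : ∀ w ∈ DD B n p q, (∀ i, w i < 2 * B + 1) ∧ ∑ i, dU (w i) = p ∧ ∑ i, dV (w i) = q := by
    intro w hw
    simpa [DD, Fintype.mem_piFinset] using hw
  obtain ⟨c, hc⟩ := exists_projection M n (DD B n p q)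
    (fun w i => (dU (w i) : ZMod M) - dV (w i)) (by
      intro w hw w' hw' e
      funext i
      have e1 : (dU (w i) : ZMod M) - dV (w i) = (dU (w' i) : ZMod M) - dV (w' i) := congrFun e i
      have e2 : ((dU (w i) + dV (w' i) : ℕ) : ZMod M) = ((dU (w' i) + dV (w i) : ℕ) : ZMod M) := by
        push_cast
        linear_combination e1
      rw [ZMod.natCast_eq_natCast_iff] at e2
      have a1 := dU_le ((hmem w hw).1 i)
      have a2 := dV_le ((hmem w hw).1 i)
      have a3 := dU_le ((hmem w' hw').1 i)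
      have a4 := dV_le ((hmem w' hw').1 i)
      exact d_inj (e2.eq_of_lt_of_lt (by omega) (by omega))) h1
  obtain ⟨T, hT, hcov⟩ := cover_all
    ((DD B n p q).image fun w => ∑ i, c i * ((dU (w i) : ZMod M) - dV (w i)))
    (by rw [ZMod.card]; omega)
  rw [ZMod.card] at hT
  have : ∀ i : ZMod M, ∃ τ ∈ T, ∃ w ∈ DD B n p q,
      ∑ k, c k * ((dU (w k) : ZMod M) - dV (w k)) = 2 * i - τ := by
    intro i
    obtain ⟨τ, hτ, h⟩ := hcov (2 * i)
    exact ⟨τ, hτ, by simpa using h⟩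
  choose τ hτ w hw hwe using this
  refine ⟨fun i => ∑ k, c k * dV (w i k) + i,
    (T ×ˢ ((Fintype.piFinset fun _ : Fin n => range (p + q + 1)).filter
      fun y => ∑ i, y i = p + q)).image fun s => ∑ k, c k * (s.2 k : ZMod M) + s.1, ?_, ?_⟩
  · refine card_image_le.trans ?_
    rw [card_product]
    exact Nat.mul_le_mul hT (card_compositions n (p + q))
  · intro i j
    rw [mem_image]
    have hs : ∑ k, (dU (w j k) + dV (w i k)) = p + q := by
      rw [Finset.sum_add_distrib, (hmem _ (hw j)).2.1, (hmem _ (hw i)).2.2]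
    refine ⟨(τ j, fun k => dU (w j k) + dV (w i k)), ?_, ?_⟩
    · simp only [mem_product, mem_filter, Fintype.mem_piFinset, mem_range]
      refine ⟨hτ j, fun k => ?_, hs⟩
      rw [← hs, Nat.lt_succ_iff]
      exact Finset.single_le_sum (f := fun k => dU (w j k) + dV (w i k))
        (fun _ _ => Nat.zero_le _) (mem_univ k)
    · have e := hwe j
      simp only [mul_sub, Finset.sum_sub_distrib] at e
      simp only [Nat.cast_add, mul_add, Finset.sum_add_distrib]
      linear_combination e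

lemma exists_sequence {α : ℝ} (hα0 : Real.log 2 / Real.log (1 + √2) < α) (hα1 : α ≤ 1) (M₀ : ℕ) :
    ∃ M : ℕ, M₀ ≤ M ∧ 0 < M ∧ ∃ (a : ZMod M → ZMod M) (R : Finset (ZMod M)),
      (R.card : ℝ) ≤ (M : ℝ) ^ α ∧ ∀ i j, a i + a j + j - i ∈ R := by
  have hs2 : (√2 : ℝ) * √2 = 2 := Real.mul_self_sqrt (by norm_num)
  have hs1 : (1 : ℝ) < √2 := by rw [Real.lt_sqrt (by norm_num)]; norm_num
  have hs3 : (√2 : ℝ) < 2 := by nlinarith
  have hlog : 0 < Real.log (1 + √2) := Real.log_pos (by linarith)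
  have hαpos : 0 < α := lt_trans (div_pos (Real.log_pos (by norm_num)) hlog) hα0
  set x : ℝ := √2 - 1 with hx
  have hx0 : 0 < x := by linarith
  have hx1 : x < 1 := by linarith
  have hθ₀ : (2 : ℝ) ^ (1 / α) < 1 + √2 := by
    rw [← Real.log_lt_log_iff (by positivity) (by linarith), Real.log_rpow (by norm_num)]
    rw [div_lt_iff₀ hlog] at hα0
    rw [div_mul_eq_mul_div, one_mul, div_lt_iff₀ hαpos]
    linarith
  obtain ⟨B, hB⟩ := exists_pow_lt_of_lt_one
    (x := (1 + √2 - (2 : ℝ) ^ (1 / α)) * (1 - x) / 2) (y := x)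
    (by apply div_pos (mul_pos _ _) <;> linarith) hx1
  set Φ : ℝ := ∑ k ∈ range (2 * B + 1), x ^ ((k + 1) / 2) with hΦ
  have hΦe : (1 - x) * Φ = 1 + x - 2 * x ^ (B + 1) := phi_eq x B
  have hρ : (1 - x) * (1 + √2) = 1 + x := by rw [hx]; nlinarith
  have hxB : x ^ (B + 1) ≤ x ^ B := pow_le_pow_of_le_one hx0.le hx1.le (by omega)
  have hxB0 : 0 < x ^ (B + 1) := by positivity
  have hΦ1 : Φ ≤ 1 + √2 := by
    apply le_of_mul_le_mul_left _ (sub_pos.2 hx1)
    linarith
  have hΦ2 : (2 : ℝ) ^ (1 / α) < Φ := by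
    apply lt_of_mul_lt_mul_left _ (sub_pos.2 hx1).le
    nlinarith
  have hΦ0 : 0 < Φ := lt_trans (by positivity) hΦ2
  set θ : ℝ := Φ ^ α with hθ
  have hθ2 : 2 < θ := by
    have := Real.rpow_lt_rpow (by positivity) hΦ2 hαpos
    rwa [← Real.rpow_mul (by norm_num), one_div_mul_cancel hαpos.ne', Real.rpow_one] at this
  have hlim := tendsto_pow_const_mul_const_pow_of_abs_lt_one 3 (r := 2 / θ) (by
    rw [abs_of_pos (by positivity), div_lt_one (by linarith)]; exact hθ2)
  set C : ℝ := 6 * (2 * B + 4) * (B + 1) ^ 2 with hC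
  have hC0 : 0 < C := by positivity
  obtain ⟨s₀, hs₀⟩ := Filter.eventually_atTop.1
    (hlim.eventually (gt_mem_nhds (show (0 : ℝ) < 1 / C by positivity)))
  set n : ℕ := s₀ + M₀ + B + 1 with hn
  obtain ⟨p, q, hpq⟩ := exists_DD B n x
  rw [← hΦ] at hpq
  set d : ℕ := (DD B n p q).card with hd
  set s : ℕ := n + (p + q) with hs
  have hs1' : (1 : ℝ) ≤ s := by exact_mod_cast (by omega : 1 ≤ s)
  have hns : (n : ℝ) ≤ s := by exact_mod_cast (by omega : n ≤ s)
  have k1 : Φ ^ s ≤ (((B : ℝ) + 1) * s) ^ 2 * d := by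
    have e1 : (1 + √2) ^ (p + q) * x ^ (p + q) = 1 := by
      rw [← mul_pow]
      have : (1 + √2) * x = 1 := by rw [hx]; nlinarith
      rw [this, one_pow]
    calc Φ ^ s = Φ ^ n * Φ ^ (p + q) := by rw [hs, pow_add]
      _ ≤ (((B : ℝ) * n + 1) ^ 2 * (d * x ^ (p + q))) * (1 + √2) ^ (p + q) := by gcongr
      _ = ((B : ℝ) * n + 1) ^ 2 * d * ((1 + √2) ^ (p + q) * x ^ (p + q)) := by ring
      _ = ((B : ℝ) * n + 1) ^ 2 * d := by rw [e1, mul_one]
      _ ≤ _ := by
        gcongr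
        have : (B : ℝ) * n ≤ B * s := by gcongr
        linarith
  have hP1 : (1 : ℝ) ≤ (((B : ℝ) + 1) * s) ^ 2 := by
    apply one_le_pow₀
    have : (0 : ℝ) ≤ B := by positivity
    nlinarith
  have k2 : θ ^ s ≤ (((B : ℝ) + 1) * s) ^ 2 * (d : ℝ) ^ α := by
    calc θ ^ s = (Φ ^ s) ^ α := by
          rw [hθ, ← Real.rpow_natCast, ← Real.rpow_natCast, ← Real.rpow_mul hΦ0.le,
            ← Real.rpow_mul hΦ0.le, mul_comm]
      _ ≤ ((((B : ℝ) + 1) * s) ^ 2 * d) ^ α := Real.rpow_le_rpow (by positivity) k1 hαpos.le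
      _ = ((((B : ℝ) + 1) * s) ^ 2) ^ α * (d : ℝ) ^ α :=
          Real.mul_rpow (by positivity) (by positivity)
      _ ≤ _ := by
          gcongr
          exact Real.rpow_le_self_of_one_le hP1 hα1
  have k3 : 6 * (2 * (B : ℝ) + 4) * s * 2 ^ s ≤ (d : ℝ) ^ α := by
    have h := (hs₀ s (by omega)).le
    rw [div_pow, ← mul_div_assoc, div_le_div_iff₀ (by positivity) hC0, one_mul] at h
    apply le_of_mul_le_mul_left _ (lt_of_lt_of_le one_pos hP1)
    refine le_trans (le_of_eq ?_) (h.trans k2)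
    rw [hC]; ring
  have k4 : (2 : ℝ) ^ s ≤ (d : ℝ) ^ α := by
    refine le_trans ?_ k3
    apply le_mul_of_one_le_left (by positivity)
    have : (0 : ℝ) ≤ B := by positivity
    nlinarith
  have hd1 : (1 : ℝ) ≤ d := by
    rcases Nat.eq_zero_or_pos d with h0 | h0
    · rw [h0, Nat.cast_zero, Real.zero_rpow hαpos.ne'] at k4
      exact absurd k4 (not_le.2 (by positivity))
    · exact_mod_cast h0
  have k5 : 2 ^ s ≤ d := by
    have := k4.trans (Real.rpow_le_self_of_one_le hd1 hα1)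
    exact_mod_cast this
  have k6 : s < 2 ^ s := Nat.lt_two_pow_self
  obtain ⟨M, hMp, hM1, hM2⟩ := Nat.exists_prime_lt_and_le_two_mul (2 * d) (by omega)
  have : Fact M.Prime := ⟨hMp⟩
  obtain ⟨a, R, hR, ha⟩ := build_sequence B n p q M (by omega) (by omega) (by omega)
  refine ⟨M, by omega, by omega, a, R, ?_, ha⟩
  have hdle : d ≤ (2 * B + 1) ^ n := by
    refine (card_filter_le _ _).trans ?_
    simp
  have hMle : M ≤ 2 ^ (2 + (2 * B + 1) * n) := by
    rw [pow_add, pow_mul]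
    have : (2 * B + 1) ^ n ≤ (2 ^ (2 * B + 1)) ^ n :=
      Nat.pow_le_pow_left Nat.lt_two_pow_self.le _
    omega
  have hlogM : Nat.log 2 M ≤ 2 + (2 * B + 1) * n := by
    have := Nat.log_mono_right (b := 2) hMle
    rwa [Nat.log_pow (by norm_num)] at this
  have hr : 6 * (Nat.log 2 M + 1) ≤ 6 * (2 * B + 4) * s := by
    have : (2 * B + 1) * n ≤ (2 * B + 1) * s := Nat.mul_le_mul_left _ (by omega)
    have : 1 ≤ s := by omega
    nlinarith
  have hR2 : R.card ≤ 6 * (2 * B + 4) * s * 2 ^ s := hR.trans (Nat.mul_le_mul_right _ hr)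
  calc (R.card : ℝ) ≤ 6 * (2 * (B : ℝ) + 4) * s * 2 ^ s := by exact_mod_cast hR2
    _ ≤ (d : ℝ) ^ α := k3
    _ ≤ (M : ℝ) ^ α := Real.rpow_le_rpow (by positivity)
        (by exact_mod_cast (by omega : d ≤ M)) hαpos.le

end Pool.Agent.P.MP_07218e_co
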