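import Mathlib
import Pool.Agent.P.MP_07218e_co.Defs
import Pool.Agent.P.MP_07218e_co.Caterpillar
import Pool.Agent.P.MP_07218e_co.SumDiff

namespace Pool.Agent.P.MP_07218e_co

open Finset

lemma card_residues (M N : ℕ) (hM : 0 < M) (R : Finset (ZMod M)) :
    ((range (N + 1)).filter fun l : ℕ => (l : ZMod M) ∈ R).card ≤ (N / M + 1) * R.card := by
  rw [← card_range (N / M + 1), ← card_product]
  apply card_le_card_of_injOn (fun l : ℕ => (l / M, (l : ZMod M)))
  · intro l hl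
    simp only [coe_filter, mem_range, Set.mem_ofPred_eq] at hl
    simp only [coe_product, coe_range, Set.mem_prod, Set.mem_Iio, mem_coe]
    exact ⟨Nat.lt_succ_of_le (Nat.div_le_div_right (by omega)), hl.2⟩
  · intro l _ l' _ e
    simp only [Prod.mk.injEq] at e
    have h2 := (ZMod.natCast_eq_natCast_iff' _ _ _).1 e.2
    rw [← Nat.div_add_mod l M, ← Nat.div_add_mod l' M, e.1, h2]

lemma exists_tree (M : ℕ) (hM : 0 < M) (a : ZMod M → ZMod M) (R : Finset (ZMod M))
    (ha : ∀ i j, a i + a j + j - i ∈ R) (N n₀ : ℕ) :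
    ∃ n, n₀ ≤ n ∧ Even n ∧ ∃ T : SimpleGraph (Fin n), IsOneThreeTree T ∧
      (leafLengths T N).ncard ≤ 2 * M + 1 + (N / M + 1) * R.card := by
  classical
  have : NeZero M := ⟨by omega⟩
  obtain ⟨L, hL⟩ : ∃ L, L + 1 = M * (n₀ + 1) := ⟨M * (n₀ + 1) - 1, by
    have : 0 < M * (n₀ + 1) := by positivity
    omega⟩
  set b : ℕ → ℕ := fun i => if i = 0 ∨ i = L + 1 then 0 else (a i - a 0 - 1).val + 1 with hb
  have hb1 : ∀ i, b i ≤ M := by
    intro i
    simp only [hb]
    split_ifs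
    · omega
    · exact ZMod.val_lt _
  have hb2 : ∀ i : ℕ, (b i : ZMod M) = a i - a 0 := by
    intro i
    simp only [hb]
    split_ifs with h
    · rcases h with rfl | rfl
      · simp
      · rw [hL]; simp
    · simp
  obtain ⟨n, hn, hev, T, hT, hlen⟩ := caterpillar b L (by simp [hb]) (by simp [hb]) (by
    intro i h1 h2
    simp only [hb]
    rw [if_neg (by omega)]
    omega)
  have : 1 * (n₀ + 1) ≤ M * (n₀ + 1) := Nat.mul_le_mul_right _ hM
  refine ⟨n, by omega, hev, T, hT, ?_⟩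
  have hsub : leafLengths T N ⊆ ((range (2 * M + 1) ∪ (range (N + 1)).filter
      fun l : ℕ => (l : ZMod M) ∈ R.image (fun r => r - 2 * a 0) : Finset ℕ) : Set ℕ) := by
    rintro l ⟨hlN, hl⟩
    rw [mem_coe, mem_union, mem_filter, mem_range, mem_range, mem_image]
    rcases hlen l hl with ⟨i, hi⟩ | ⟨i, j, hij, rfl⟩
    · left
      have := hb1 i
      omega
    · right
      refine ⟨by omega, _, ha i j, ?_⟩
      rw [Nat.cast_add, Nat.cast_add, Nat.cast_sub hij.le, hb2, hb2]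
      ring
  refine (Set.ncard_le_ncard hsub (finite_toSet _)).trans ?_
  rw [Set.ncard_coe_finset]
  refine (card_union_le _ _).trans ?_
  rw [card_range]
  exact Nat.add_le_add_left ((card_residues M N hM _).trans
    (Nat.mul_le_mul_left _ card_image_le)) _

lemma log_ratio_lt_one : Real.log 2 / Real.log (1 + √2) < 1 := by
  have hs1 : (1 : ℝ) < √2 := by rw [Real.lt_sqrt (by norm_num)]; norm_num
  rw [div_lt_one (Real.log_pos (by linarith))]
  exact Real.log_lt_log (by norm_num) (by linarith)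

lemma not_propertyP {c : ℝ} (hc1 : (2 - Real.log 2 / Real.log (1 + √2))⁻¹ < c) (hc2 : c ≤ 1) :
    ¬ PropertyP c := by
  rintro ⟨κ, hκ, hP⟩
  have h1 := log_ratio_lt_one
  set α₀ := Real.log 2 / Real.log (1 + √2) with hα₀
  have hc0 : 0 < c := lt_trans (inv_pos.2 (by linarith)) hc1
  have h2 : 1 / c < 2 - α₀ := by
    rw [one_div]
    exact (inv_lt_comm₀ (by linarith) hc0).1 hc1
  have h3 : 1 ≤ 1 / c := by rw [le_div_iff₀ hc0]; linarith
  set α : ℝ := (α₀ + 2 - 1 / c) / 2 with hα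
  have hα1 : α ≤ 1 := by linarith
  have hγ : 0 < (2 - α) * c - 1 := by
    have : 1 / c < 2 - α := by linarith
    rw [div_lt_iff₀ hc0] at this
    linarith
  obtain ⟨M₀, hM₀⟩ := Filter.eventually_atTop.1
    (((tendsto_rpow_atTop hγ).comp tendsto_natCast_atTop_atTop).eventually
      (Filter.eventually_gt_atTop (6 / κ)))
  obtain ⟨M, hM1, hM2, a, R, hR, ha⟩ := exists_sequence (α := α) (by linarith) hα1 M₀
  have hMγ : 6 / κ < (M : ℝ) ^ ((2 - α) * c - 1) := hM₀ M hM1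
  have hM : (1 : ℝ) ≤ M := by exact_mod_cast hM2
  set N : ℕ := ⌈(M : ℝ) ^ (2 - α)⌉₊ with hN
  have hN1 : (M : ℝ) ^ (2 - α) ≤ N := Nat.le_ceil _
  have hN2 : (N : ℝ) < (M : ℝ) ^ (2 - α) + 1 := Nat.ceil_lt_add_one (by positivity)
  obtain ⟨n₀, hn₀⟩ := hP N (Nat.one_le_ceil_iff.2 (by positivity))
  obtain ⟨n, hn, hev, T, hT, hcount⟩ := exists_tree M hM2 a R ha N n₀
  have k1 := hn₀ n hn hev T hT
  have k2 : ((leafLengths T N).ncard : ℝ) ≤ 2 * M + 1 + ((N / M : ℕ) + 1) * R.card := by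
    exact_mod_cast hcount
  have k3 : ((N / M : ℕ) : ℝ) ≤ (M : ℝ) ^ (1 - α) + 1 := by
    refine Nat.cast_div_le.trans ?_
    rw [div_le_iff₀ (by linarith)]
    have : (M : ℝ) ^ (2 - α) = (M : ℝ) ^ (1 - α) * M := by
      rw [← Real.rpow_add_one (by linarith)]; congr 1; ring
    nlinarith
  have k4 : (M : ℝ) ^ α ≤ M := Real.rpow_le_self_of_one_le hM hα1
  have k5 : (M : ℝ) ^ (1 - α) * (M : ℝ) ^ α = M := by
    rw [← Real.rpow_add (by linarith)]; simp
  have k6 : (((N / M : ℕ) : ℝ) + 1) * R.card ≤ ((M : ℝ) ^ (1 - α) + 1 + 1) * (M : ℝ) ^ α := by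
    gcongr
  have k7 : ((leafLengths T N).ncard : ℝ) ≤ 6 * M := by nlinarith
  have k8 : (M : ℝ) ^ ((2 - α) * c - 1) * M ≤ (N : ℝ) ^ c := by
    rw [← Real.rpow_add_one (by linarith), sub_add_cancel, Real.rpow_mul (by linarith)]
    exact Real.rpow_le_rpow (by positivity) hN1 hc0.le
  rw [div_lt_iff₀ hκ] at hMγ
  have k9 := mul_le_mul_of_nonneg_left k8 hκ.le
  nlinarith

theorem upper_main : cStar ≤ (2 - Real.log 2 / Real.log (1 + √2))⁻¹ := by
  apply Real.sSup_le
  · rintro c ⟨hc, hP⟩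
    by_contra hlt
    exact not_propertyP (not_le.1 hlt) hc.2 hP
  · have := log_ratio_lt_one
    exact (inv_pos.2 (by linarith)).le

end Pool.Agent.P.MP_07218e_co
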