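import Mathlib
import Pool.Agent.P.MP_07218e_co.Digits
import Pool.Agent.P.MP_07218e_co.Upper

/-! The digit system given by the numerical semigroup generated by 4 and 5. -/

namespace Pool.Agent.P.MP_07218e_co

open Finset

/-- The least `y` such that `y` and `y + z` lie in the semigroup generated by 4 and 5. -/
def shift (z : ℕ) : ℕ :=
  if z = 1 ∨ z = 6 ∨ z = 11 then 4 else if z = 3 ∨ z = 7 then 5 else if z = 2 then 8 else 0

/-- Membership in the semigroup generated by 4 and 5. -/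
def inS (y : ℕ) : Bool := !(y = 1 ∨ y = 2 ∨ y = 3 ∨ y = 6 ∨ y = 7 ∨ y = 11)

lemma inS_add {x y : ℕ} (hx : inS x = true) (hy : inS y = true) : inS (x + y) = true := by
  simp only [inS, Bool.not_eq_true', decide_eq_false_iff_not] at *
  omega

/-- The digit system. -/
def G45 : Digits where
  K := 161
  B := 80
  u k := dU k + shift ((k + 1) / 2)
  v k := dV k + shift ((k + 1) / 2)
  S := inS
  u_le := by decide +kernel
  v_le := by decide +kernel
  inj k k' h := d_inj (by omega)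
  mem k hk k' hk' := inS_add
    ((by decide +kernel : ∀ k < 161, inS (dU k + shift ((k + 1) / 2)) = true) k hk)
    ((by decide +kernel : ∀ k < 161, inS (dV k + shift ((k + 1) / 2)) = true) k' hk')

lemma G45_sum (m : ℕ) :
    ∑ y ∈ (range m).filter (fun y => G45.S y = true), (8512 / 10000 : ℝ) ^ y
      ≤ 365389 / 100000 := by
  have h1 : ∑ y ∈ (range m).filter (fun y => G45.S y = true), (8512 / 10000 : ℝ) ^ y
      ≤ ∑ y ∈ (range (12 + m)).filter (fun y => inS y = true), (8512 / 10000 : ℝ) ^ y :=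
    Finset.sum_le_sum_of_subset_of_nonneg
      (filter_subset_filter _ (range_mono (by omega))) (fun _ _ _ => by positivity)
  refine h1.trans ?_
  rw [sum_filter, sum_range_add]
  have h2 : ∑ y ∈ range m, (if inS (12 + y) = true then (8512 / 10000 : ℝ) ^ (12 + y) else 0)
      ≤ (8512 / 10000 : ℝ) ^ 12 * (1 - 8512 / 10000)⁻¹ := by
    calc _ ≤ ∑ y ∈ range m, (8512 / 10000 : ℝ) ^ 12 * (8512 / 10000 : ℝ) ^ y := by
          refine Finset.sum_le_sum fun y _ => ?_
          rw [← pow_add]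
          split_ifs
          · exact le_rfl
          · positivity
      _ ≤ _ := by
          rw [← Finset.mul_sum]
          gcongr
          rw [← tsum_geometric_of_lt_one (by norm_num) (by norm_num)]
          exact (summable_geometric_of_lt_one (by norm_num) (by norm_num)).sum_le_tsum _
            (fun _ _ => by positivity)
  have h3 : ∑ y ∈ range 12, (if inS y = true then (8512 / 10000 : ℝ) ^ y else 0)
      = 1 + (8512 / 10000 : ℝ) ^ 4 + (8512 / 10000 : ℝ) ^ 5 + (8512 / 10000 : ℝ) ^ 8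
        + (8512 / 10000 : ℝ) ^ 9 + (8512 / 10000 : ℝ) ^ 10 := by
    simp [sum_range_succ, inS]
  rw [h3]
  refine (add_le_add_right h2 _).trans ?_
  norm_num

lemma G45_diff : (520168 / 100000 : ℝ) ≤
    ∑ k ∈ range G45.K, (814633 / 1000000 : ℝ) ^ (G45.u k + G45.v k) := by
  have h : (520168 / 100000 : ℚ) ≤ ∑ k ∈ range 161, (814633 / 1000000 : ℚ) ^
      (dU k + shift ((k + 1) / 2) + (dV k + shift ((k + 1) / 2))) := by decide +kernel
  have h2 := (Rat.cast_le (K := ℝ)).2 h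
  push_cast at h2
  exact h2

lemma rpow_ratio_le {x y : ℝ} (hx : 0 ≤ x) (hy : 0 ≤ y) (h : x ^ 499 ≤ y ^ 635) :
    x ^ (499 / 635 : ℝ) ≤ y := by
  refine le_of_pow_le_pow_left₀ (n := 635) (by norm_num) hy ?_
  rw [← Real.rpow_natCast, ← Real.rpow_mul hx]
  norm_num
  exact h

lemma lt_rpow_ratio {x y : ℝ} (hx : 0 ≤ x) (h : y ^ 635 < x ^ 499) :
    y < x ^ (499 / 635 : ℝ) := by
  refine lt_of_pow_lt_pow_left₀ 635 (by positivity) ?_
  rw [← Real.rpow_natCast (x ^ (499 / 635 : ℝ)), ← Real.rpow_mul hx]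
  norm_num
  exact h

lemma exists_sequence45 (M₀ : ℕ) :
    ∃ M : ℕ, M₀ ≤ M ∧ 0 < M ∧ ∃ (a : ZMod M → ZMod M) (R : Finset (ZMod M)),
      (R.card : ℝ) ≤ (M : ℝ) ^ (499 / 635 : ℝ) ∧ ∀ i j, a i + a j + j - i ∈ R := by
  have e1 : (814633 / 1000000 : ℚ) ^ 499 ≤ (8512 / 10000 : ℚ) ^ 635 := by decide +kernel
  have e2 : (365389 / 100000 : ℚ) ^ 635 < (520168 / 100000 : ℚ) ^ 499 := by decide +kernel
  have f1 := (Rat.cast_le (K := ℝ)).2 e1
  have f2 := (Rat.cast_lt (K := ℝ)).2 e2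
  rw [Rat.cast_pow, Rat.cast_pow, Rat.cast_div, Rat.cast_div] at f1 f2
  simp only [Rat.cast_ofNat] at f1 f2
  refine G45.exists_seq (r := 8512 / 10000) (t := 814633 / 1000000) (F := 365389 / 100000)
    (by norm_num) (by norm_num) (by norm_num) (by norm_num) (by norm_num)
    (rpow_ratio_le (by norm_num) (by norm_num) f1) (by norm_num) G45_sum ?_ M₀
  exact (lt_rpow_ratio (by norm_num) f2).trans_le
    (Real.rpow_le_rpow (by norm_num) G45_diff (by norm_num))

lemma not_propertyP_of_seq {α c : ℝ} (hα1 : α ≤ 1)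
    (hseq : ∀ M₀ : ℕ, ∃ M : ℕ, M₀ ≤ M ∧ 0 < M ∧ ∃ (a : ZMod M → ZMod M) (R : Finset (ZMod M)),
      (R.card : ℝ) ≤ (M : ℝ) ^ α ∧ ∀ i j, a i + a j + j - i ∈ R)
    (hc1 : (2 - α)⁻¹ < c) : ¬ PropertyP c := by
  rintro ⟨κ, hκ, hP⟩
  have hc0 : 0 < c := lt_trans (inv_pos.2 (by linarith)) hc1
  have hγ : 0 < (2 - α) * c - 1 := by
    rw [inv_lt_iff_one_lt_mul₀' (by linarith)] at hc1
    linarith
  obtain ⟨M₀, hM₀⟩ := Filter.eventually_atTop.1
    (((tendsto_rpow_atTop hγ).comp tendsto_natCast_atTop_atTop).eventually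
      (Filter.eventually_gt_atTop (6 / κ)))
  obtain ⟨M, hM1, hM2, a, R, hR, ha⟩ := hseq M₀
  have hMγ : 6 / κ < (M : ℝ) ^ ((2 - α) * c - 1) := hM₀ M hM1
  have hM : (1 : ℝ) ≤ M := by exact_mod_cast hM2
  set N : ℕ := ⌈(M : ℝ) ^ (2 - α)⌉₊ with hN
  have hN1 : (M : ℝ) ^ (2 - α) ≤ N := Nat.le_ceil _
  have hN2 : (N : ℝ) < (M : ℝ) ^ (2 - α) + 1 := Nat.ceil_lt_add_one (by positivity)
  obtain ⟨n₀, hn₀⟩ := hP N (Nat.one_le_ceil_iff.2 (by positivity))
  obtain ⟨n, hn, hev, T, hT, hcount⟩ := exists_tree M hM2 a R ha N n₀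
  have k1 := hn₀ n hn hev T hT
  have k2 : ((leafLengths T N).ncard : ℝ) ≤ 2 * M + 1 + ((N / M : ℕ) + 1) * R.card := by
    exact_mod_cast hcount
  have k3 : ((N / M : ℕ) : ℝ) ≤ (M : ℝ) ^ (1 - α) + 1 := by
    refine Nat.cast_div_le.trans ?_
    rw [div_le_iff₀ (by linarith)]
    have : (M : ℝ) ^ (2 - α) = (M : ℝ) ^ (1 - α) * M := by
      rw [← Real.rpow_add_one (by linarith)]; congr 1; ring
    nlinarith
  have k4 : (M : ℝ) ^ α ≤ M := Real.rpow_le_self_of_one_le hM hα1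
  have k5 : (M : ℝ) ^ (1 - α) * (M : ℝ) ^ α = M := by
    rw [← Real.rpow_add (by linarith)]; simp
  have k6 : (((N / M : ℕ) : ℝ) + 1) * R.card ≤ ((M : ℝ) ^ (1 - α) + 1 + 1) * (M : ℝ) ^ α := by
    gcongr
  have k7 : ((leafLengths T N).ncard : ℝ) ≤ 6 * M := by nlinarith
  have k8 : (M : ℝ) ^ ((2 - α) * c - 1) * M ≤ (N : ℝ) ^ c := by
    rw [← Real.rpow_add_one (by linarith), sub_add_cancel, Real.rpow_mul (by linarith)]
    exact Real.rpow_le_rpow (by positivity) hN1 hc0.le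
  rw [div_lt_iff₀ hκ] at hMγ
  have k9 := mul_le_mul_of_nonneg_left k8 hκ.le
  nlinarith

theorem upper45 : cStar ≤ 635 / 771 := by
  apply Real.sSup_le
  · rintro c ⟨-, hP⟩
    by_contra hlt
    refine not_propertyP_of_seq (α := 499 / 635) (by norm_num) exists_sequence45 ?_ hP
    have : ((2 : ℝ) - 499 / 635)⁻¹ = 635 / 771 := by norm_num
    rw [this]
    exact not_le.1 hlt
  · norm_num

end Pool.Agent.P.MP_07218e_co
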